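import Pool.Agent.V7H91.PL.Gd

set_option autoImplicit false
open Set Filter Topology

namespace Pool.Agent.V7H91.PL
open H535R3

/-- If one point moves up and no fixed point exists, all points move up. -/
lemma all_gt {r : ℤ} {ε b a u : ℝ} (h : (b, a) ∉ Ls r ε) (hu : u + 2 * Real.pi * r < P b a ε u) (x : ℝ) :
    x + 2 * Real.pi * r < P b a ε x := by
  by_contra hc
  push Not at hc
  exact h (mem_Ls_of (q := (b, a)) hu.le hc)

lemma all_lt {r : ℤ} {ε b a u : ℝ} (h : (b, a) ∉ Ls r ε) (hu : P b a ε u < u + 2 * Real.pi * r) (x : ℝ) :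
    P b a ε x < x + 2 * Real.pi * r := by
  by_contra hc
  push Not at hc
  exact h (mem_Ls_of (q := (b, a)) hc hu.le)

lemma slice_closed (r : ℤ) (ε a p q : ℝ) : IsCompact {b : ℝ | b ∈ Icc p q ∧ (b, a) ∈ Ls r ε} := by
  refine isCompact_Icc.inter_right ?_
  exact (isClosed_Ls r ε).preimage (f := fun b : ℝ => (b, a)) (by fun_prop)

/-- The right side of the germ condition forces a sign near the point. -/
lemma germ {n : ℕ} {r : ℤ} {σ a0 e : ℝ} (hσ : σ = 1 ∨ σ = -1) 
    (H1 : Bs σ r (2 * e) (n + 1) a0)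
    (H2 : ∀ᶠ p : ℝ × ℝ in 𝓝 ((n:ℝ) + 1, a0), Bs σ r (2 * e) p.1 p.2 → (n:ℝ) + 1 ≤ p.1)
    {s : ℝ} (hs : s = 1 ∨ s = -1) :
    ∀ᶠ a in 𝓝 a0, 0 < σ * XX n r (-s) a e → XX n r s a e ≤ 0 := by
  rw [Metric.eventually_nhds_iff] at H2
  obtain ⟨η, hη, H2⟩ := H2
  have H2' : ∀ b a : ℝ, |b - ((n:ℝ) + 1)| < η → |a - a0| < η → Bs σ r (2 * e) b a → (n:ℝ) + 1 ≤ b := by
    intro b a hb ha
    exact H2 (y := (b, a)) (by rw [Prod.dist_eq, max_lt_iff, Real.dist_eq, Real.dist_eq]; exact ⟨hb, ha⟩)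
  set l : ℝ := (n:ℝ) + 1 with hl
  set b1 := l - η / 2 with hb1
  have hb1l : b1 < l := by rw [hb1]; linarith
  have hball : ∀ᶠ a in 𝓝 a0, |a - a0| < η := by
    have := Metric.ball_mem_nhds a0 hη
    filter_upwards [this] with a ha
    rwa [Metric.mem_ball, Real.dist_eq] at ha
  have hcb : ∀ x a, Continuous fun b' : ℝ => P b' a (2 * e) x := fun x a =>
    continuous_P.comp (f := fun b' : ℝ => (b', a, 2 * e, x)) (by fun_prop)
  have hca : ∀ x b, Continuous fun a' : ℝ => P b a' (2 * e) x := fun x b =>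
    continuous_P.comp (f := fun a' : ℝ => (b, a', 2 * e, x)) (by fun_prop)
  rcases hσ with rfl | rfl
  · obtain ⟨x0, hx0⟩ := H1.1
    simp only at hx0
    have h1 : P b1 a0 (2 * e) x0 < x0 + 2 * Real.pi * r := by
      rw [← hx0]; exact P_lt_of_b hb1l
    filter_upwards [hball, (hca x0 b1).continuousAt.eventually (gt_mem_nhds h1)] with a ha h2 h3
    by_contra hcon
    push Not at hcon
    rw [one_mul] at h3
    have hXs : ∀ s : ℝ, (s = 1 ∨ s = -1) → 0 < XX n r s a e → 0 < XX n r (-s) a e →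
        0 < XX n r 1 a e ∧ 0 < XX n r (-1) a e := by
      intro s hs h4 h5
      rcases hs with rfl | rfl
      · exact ⟨h4, h5⟩
      · rw [neg_neg] at h5; exact ⟨h5, h4⟩
    obtain ⟨h4, h5⟩ := hXs s hs hcon h3
    have hnot : (l, a) ∉ Ls r (2 * e) := by
      intro hmem
      have h6 := lock_sign hmem
      rw [XX_one n r, XX_neg n r] at h6
      have : 0 < XX n r 1 a e * XX n r (-1) a e := mul_pos h4 h5
      nlinarith
    have hall : ∀ x, x + 2 * Real.pi * r < P l a (2 * e) x :=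
      all_gt hnot (u := Real.pi / 2) (by rw [XX_one n r]; linarith)
    obtain ⟨b2, hb2, hb2'⟩ : ∃ b2 ∈ Icc b1 l, P b2 a (2 * e) x0 = x0 + 2 * Real.pi * r :=
      intermediate_value_Icc hb1l.le (hcb x0 a).continuousOn ⟨h2.le, (hall x0).le⟩
    obtain ⟨bs, ⟨⟨hs1, hs2⟩, hs3⟩, hs4⟩ := (slice_closed r (2 * e) a b1 l).exists_isGreatest
      ⟨b2, hb2, ⟨x0, hb2'⟩⟩
    have hslt : bs < l := by
      rcases hs2.lt_or_eq with h | h
      · exact h
      · rw [h] at hs3; exact absurd hs3 hnot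
    have hB : Bs 1 r (2 * e) bs a := by
      refine ⟨hs3, fun b' hb' hmem => ?_⟩
      have hb'' : bs < b' := by linarith
      rcases le_or_gt b' l with h | h
      · have := hs4 ⟨⟨hs1.trans hb''.le, h⟩, hmem⟩
        linarith
      · exact not_mem_of_lt h (fun x => (hall x).le) hmem
    have := H2' bs a (by rw [abs_lt]; constructor <;> linarith) ha hB
    linarith
  · have hsg := H1.sign (Or.inr rfl)
    have h1 : ∀ x, P b1 a0 (2 * e) x < x + 2 * Real.pi * r := by
      intro x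
      have h2 := hsg x
      have h3 := P_lt_of_b (a := a0) (ε := 2 * e) (x := x) hb1l
      linarith
    have h2 : (b1, a0) ∉ Ls r (2 * e) := by
      rintro ⟨x, hx⟩
      have := h1 x
      simp only at hx
      linarith
    have h3 : ∀ᶠ a in 𝓝 a0, (b1, a) ∉ Ls r (2 * e) := by
      have hc : Continuous fun a : ℝ => (b1, a) := by fun_prop
      exact hc.continuousAt.eventually ((isClosed_Ls r (2 * e)).isOpen_compl.mem_nhds h2)
    filter_upwards [hball, h3, (hca 0 b1).continuousAt.eventually (gt_mem_nhds (h1 0))] with a ha h4 h5 h6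
    have hall : ∀ x, P b1 a (2 * e) x < x + 2 * Real.pi * r := all_lt h4 h5
    by_contra hcon
    push Not at hcon
    set u := s * (Real.pi / 2) with hu
    have hXu : u + 2 * Real.pi * r < P l a (2 * e) u := by
      have := XX_P (n := n) (r := r) (a := a) (e := e) hs
      rw [← hu] at this
      linarith
    obtain ⟨b2, hb2, hb2'⟩ : ∃ b2 ∈ Icc b1 l, P b2 a (2 * e) u = u + 2 * Real.pi * r :=
      intermediate_value_Icc hb1l.le (hcb u a).continuousOn ⟨(hall u).le, hXu.le⟩
    have hb2l : b2 < l := by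
      rcases hb2.2.lt_or_eq with h | h
      · exact h
      · rw [h] at hb2'; linarith
    obtain ⟨bs, ⟨⟨hs1, hs2⟩, hs3⟩, hs4⟩ := (slice_closed r (2 * e) a b1 b2).exists_isLeast
      ⟨b2, ⟨hb2.1, le_rfl⟩, ⟨u, hb2'⟩⟩
    have hB : Bs (-1) r (2 * e) bs a := by
      refine ⟨hs3, fun b' hb' hmem => ?_⟩
      have hb'' : b' < bs := by linarith
      rcases le_or_gt b1 b' with h | h
      · have := hs4 ⟨⟨h, hb''.le.trans hs2⟩, hmem⟩
        linarith
      · exact not_mem_of_gt h (fun x => (hall x).le) hmem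
    have := H2' bs a (by rw [abs_lt]; constructor <;> linarith) ha hB
    linarith

/-- Identity monodromy above the Perron point at parameters with trace two. -/
lemma ident_of {n : ℕ} {a e s : ℝ} (ha : 0 < a) (he : 0 < e) (hs : s = 1 ∨ s = -1)
    (hM : MM n e < a / 2) (h : XX n (n + 1) s a e = 0) (x : ℝ) :
    P (n + 1) a (2 * e) x = x + 2 * Real.pi * (((n:ℤ) + 1 : ℤ) : ℝ) := by
  obtain ⟨h1, h2⟩ := XX_K hs h
  by_contra hcon
  have hne : ¬ ∀ x, P (n + 1) a (2 * e) x = x + 2 * Real.pi * (((n:ℤ) + 1 : ℤ) : ℝ) := fun hall => hcon (hall x)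
  have h3 : Simple n (2 * e) a := frontier_of_parabolic h1 h2 hne
  have h4 := simple_unique (n := n) (ε := 2 * e) (by positivity) ha
    (mul_pos two_pos (MM_pos n (δ := 2 * e / 2) (by positivity))) h3 (simple_MM n (by positivity))
  rw [mul_div_cancel_left₀ _ two_ne_zero] at h4
  linarith

/-- Transversality at identity points. -/
lemma trans_ident {n : ℕ} {a e : ℝ} (ha : 0 < a) (he : 0 < e)
    (h : ∀ x, P (n + 1) a (2 * e) x = x + 2 * Real.pi * (((n:ℤ) + 1 : ℤ) : ℝ)) :
    ∃ τ : ℝ, (τ = 1 ∨ τ = -1) ∧ (∀ᶠ t in 𝓝[>] (0:ℝ), 0 < XX n (n + 1) 1 (a + τ * t) e) ∧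
      (∀ᶠ t in 𝓝[>] (0:ℝ), XX n (n + 1) 1 (a + -τ * t) e < 0) := by
  have hC := (Cc_per (h (Real.pi / 2))).1
  have hI := Ic_ne (n := n) (μ := a / 2) (e := e) (by positivity) he (by
    intro x
    rw [mul_div_cancel₀ _ two_ne_zero]
    exact_mod_cast h x)
  rw [mul_div_cancel₀ _ two_ne_zero, shift_int (by
    intro t
    rw [Real.cos_add_two_pi, (Cc_per (h (Real.pi / 2))).2])] at hI
  set K := ∫ t in (0:ℝ)..(2 * Real.pi), Real.cos t * Real.exp (2 * e * Cc (fl (n + 1) a (2 * e) (Real.pi / 2)) t)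
  have hlin : ∀ τ : ℝ, ∫ u in (0:ℝ)..(2 * Real.pi), ((0:ℝ) + τ * Real.cos u) *
      Real.exp (2 * e * Cc (fl (n + 1) a (2 * e) (Real.pi / 2)) u) = τ * K := by
    intro τ
    rw [← intervalIntegral.integral_const_mul]
    congr 1
    funext u; ring
  have hup : ∀ τ : ℝ, 0 < τ * K → ∀ᶠ t in 𝓝[>] (0:ℝ), 0 < XX n (n + 1) 1 (a + τ * t) e := by
    intro τ hτ
    have h1 := push_up (b := n + 1) (a := a) (ε := 2 * e) (x := Real.pi / 2) (η := 0) (σ := τ) hC
      (by rw [hlin]; exact hτ)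
    filter_upwards [h1] with t ht
    rw [zero_mul, add_zero, h, XX_one n (n + 1)] at ht
    linarith
  have hdown : ∀ τ : ℝ, τ * K < 0 → ∀ᶠ t in 𝓝[>] (0:ℝ), XX n (n + 1) 1 (a + τ * t) e < 0 := by
    intro τ hτ
    have h1 := push_down (b := n + 1) (a := a) (ε := 2 * e) (x := Real.pi / 2) (η := 0) (σ := τ) hC
      (by rw [hlin]; exact hτ)
    filter_upwards [h1] with t ht
    rw [zero_mul, add_zero, h, XX_one n (n + 1)] at ht
    linarith
  rcases lt_or_gt_of_ne hI with h1 | h1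
  · exact ⟨-1, Or.inr rfl, hup _ (by linarith), hdown _ (by linarith)⟩
  · exact ⟨1, Or.inl rfl, hup _ (by linarith), hdown _ (by linarith)⟩

/-- A whole interval of points in one sheet is impossible. -/
lemma no_interval {n : ℕ} {r : ℤ} {s a0 e : ℝ} (ha0 : 0 < a0) (he : 0 < e) (hs : s = 1 ∨ s = -1)
    (hX : ∀ᶠ a in 𝓝 a0, XX n r s a e = 0) (hY : ∀ᶠ a in 𝓝 a0, XX n r (-s) a e ≠ 0) : False := by
  by_cases hr : r = n + 1
  · subst hr
    have hev : ∀ᶠ a in 𝓝 a0, Simple n (2 * e) a := by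
      filter_upwards [hX, hY] with a h1 h2
      obtain ⟨h3, h4⟩ := XX_K hs h1
      refine frontier_of_parabolic h3 h4 (fun hall => h2 ?_)
      have h5 := hall (-s * (Real.pi / 2))
      have h6 := XX_P (n := n) (r := (n:ℤ) + 1) (a := a) (e := e) (neg_s hs)
      linarith
    have hev2 : ∀ᶠ a in 𝓝[>] a0, Simple n (2 * e) a := hev.filter_mono nhdsWithin_le_nhds
    obtain ⟨a1, h1, h2⟩ := (hev2.and self_mem_nhdsWithin).exists
    have h3 : a0 < a1 := h2
    have := simple_unique (by positivity) ha0 (ha0.trans h3) hev.self_of_nhds h1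
    linarith
  · set i : ℤ := (n:ℤ) + 1 - r with hi
    have hs0 : s ≠ 0 := by rcases hs with rfl | rfl <;> norm_num
    -- the trace is constant in `mu`
    have hD : ∀ᶠ a in 𝓝 a0, Dl n ((e:ℂ) ^ 2) ((a / 2 : ℝ) : ℂ) = ((2 * (-1) ^ i : ℝ) : ℂ) := by
      filter_upwards [hX] with a h1
      rw [XX_zero] at h1
      rw [Dl_eq he.ne', ← Dr_s n (a / 2) e hs, Dr_lock h1]
    have hall : ∀ z : ℂ, Dl n ((e:ℂ) ^ 2) z = ((2 * (-1) ^ i : ℝ) : ℂ) := by
      have hdiff : Differentiable ℂ fun z => Dl n ((e:ℂ) ^ 2) z := Dl_diff_mu n _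
      have han : AnalyticOnNhd ℂ (fun z => Dl n ((e:ℂ) ^ 2) z) univ := fun z _ => hdiff.analyticAt z
      have han2 : AnalyticOnNhd ℂ (fun _ : ℂ => ((2 * (-1) ^ i : ℝ) : ℂ)) univ := fun z _ => analyticAt_const
      have hfr : ∃ᶠ z in 𝓝[≠] (((a0 / 2 : ℝ) : ℂ)), Dl n ((e:ℂ) ^ 2) z = ((2 * (-1) ^ i : ℝ) : ℂ) := by
        have h1 : Tendsto (fun a : ℝ => ((a / 2 : ℝ) : ℂ)) (𝓝[≠] a0) (𝓝[≠] (((a0 / 2 : ℝ) : ℂ))) := by
          rw [tendsto_nhdsWithin_iff]
          constructor
          · have hc : Continuous fun a : ℝ => ((a / 2 : ℝ) : ℂ) := by fun_prop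
            exact (hc.tendsto a0).mono_left nhdsWithin_le_nhds
          · filter_upwards [self_mem_nhdsWithin] with a ha h0
            apply ha
            rw [mem_singleton_iff] at h0 ⊢
            have := Complex.ofReal_inj.1 h0
            linarith
        exact h1.frequently (hD.filter_mono nhdsWithin_le_nhds).frequently
      have := han.eq_of_frequently_eq han2 hfr
      intro z
      exact congrFun this z
    have hDr : ∀ mu : ℝ, Dr n mu e = 2 * (-1) ^ i := by
      intro mu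
      have h1 := hall (mu : ℂ)
      rw [Dl_eq he.ne'] at h1
      exact Complex.ofReal_inj.1 h1
    rcases Int.even_or_odd i with hev | hodd
    · have hid : ∀ mu : ℝ, MM n e < mu → ∀ x, P (n + 1) (2 * mu) (2 * e) x =
          x + 2 * Real.pi * (((n:ℤ) + 1 : ℤ) : ℝ) := by
        intro mu hmu
        have hmu0 : 0 < mu := (MM_pos n he).trans hmu
        obtain ⟨x1, hx1⟩ := (axis_iff n (a := 2 * mu) (ε := 2 * e) (by positivity) (by positivity)).2 (by
          rw [mul_div_cancel_left₀ _ two_ne_zero]; linarith)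
        simp only at hx1
        obtain ⟨κ, hκ, hκ2, hκ3⟩ := lock_eig (k := 0) (n := n) (mu := mu) (e := e) (x := x1)
          (by rw [hx1]; push_cast; ring)
        have h1 : κ + κ⁻¹ = 2 := by
          rw [Dl_eq he.ne', hDr, hev.neg_one_zpow] at hκ3
          have := Complex.ofReal_inj.1 hκ3
          simp at this
          linarith
        have h2 : κ = 1 := by
          have h3 : κ * κ⁻¹ = 1 := mul_inv_cancel₀ hκ.ne'
          have h4 : (κ - 1) ^ 2 = 0 := by
            have : κ⁻¹ = 2 - κ := by linarith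
            rw [this] at h3
            linarith
          have := pow_eq_zero_iff (two_ne_zero) |>.1 h4
          linarith
        have hK : Kx (n + 1) (2 * mu) (2 * e) x1 = 0 := by
          rw [h2] at hκ2
          exact (Real.exp_eq_one_iff _).1 hκ2.symm
        have hrefl := P_reflect hx1
        by_cases hne : Real.sin (((Real.pi - x1) - x1) / 2) = 0
        · have h2mu : 2 * mu / 2 = mu := by ring
          rcases sym_of_cos hx1 hne with h3 | h3
          · have h4 : XX n (n + 1) 1 (2 * mu) e = 0 := by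
              rw [XX_one n (n + 1)] at h3; linarith
            exact ident_of (by positivity) he (Or.inl rfl) (by rw [h2mu]; exact hmu) h4
          · have h4 : XX n (n + 1) (-1) (2 * mu) e = 0 := by
              rw [XX_neg n (n + 1)] at h3; linarith
            exact ident_of (by positivity) he (Or.inr rfl) (by rw [h2mu]; exact hmu) h4
        · rcases dich hx1 hrefl hne with ⟨h3, -⟩ | ⟨h3, -⟩
          · exact h3
          · exact absurd hK h3
      have hM := MM_pos n he
      set a := 2 * (MM n e + 1) with ha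
      obtain ⟨τ, hτ, h1, -⟩ := trans_ident (n := n) (a := a) (e := e) (by positivity) he
        (by rw [ha]; exact hid _ (by linarith))
      have hc : Tendsto (fun t : ℝ => a + τ * t) (𝓝[>] 0) (𝓝 a) := by
        have hc : Continuous fun t : ℝ => a + τ * t := by fun_prop
        have := (hc.tendsto 0).mono_left (nhdsWithin_le_nhds (s := Ioi 0))
        simpa using this
      have h2 : ∀ᶠ t in 𝓝[>] (0:ℝ), 2 * MM n e < a + τ * t :=
        hc.eventually (lt_mem_nhds (by rw [ha]; linarith))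
      obtain ⟨t, h3, h4⟩ := (h1.and h2).exists
      have h5 := hid ((a + τ * t) / 2) (by linarith) (Real.pi / 2)
      rw [mul_div_cancel₀ _ two_ne_zero, XX_one n (n + 1)] at h5
      linarith
    · have h1 := hDr (MM n e)
      rw [hodd.neg_one_zpow] at h1
      obtain ⟨x, hx⟩ := at_MM n (ε := 2 * e) (by positivity)
      rw [mul_div_cancel_left₀ _ two_ne_zero] at hx
      have := lock_trace he.ne' hx
      linarith

/-- The scaled statement. -/
theorem core {n r : ℕ} {σ a0 e0 : ℝ} (ha0 : 0 < a0) (he0 : 0 < e0) (hσ : σ = 1 ∨ σ = -1)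
    (H1 : Bs σ r (2 * e0) (n + 1) a0)
    (H2 : ∀ᶠ p : ℝ × ℝ in 𝓝 ((n:ℝ) + 1, a0), Bs σ r (2 * e0) p.1 p.2 → (n:ℝ) + 1 ≤ p.1)
    (H3 : ∀ᶠ p : ℝ × ℝ in 𝓝 (a0, e0), p.2 < e0 → ¬ Bs σ r (2 * p.2) (n + 1) p.1) : False := by
  obtain ⟨s, hs, hX, hY⟩ := of_Bs hσ H1
  have hpi := Real.pi_pos
  have hXc := XX_cont n (r:ℤ) s
  have hYc := XX_cont n (r:ℤ) (-s)
  -- range of the number
  have hrn : (r:ℤ) ≤ n + 1 := by
    by_contra hcon
    push Not at hcon
    obtain ⟨x, hx⟩ := H1.1
    simp only at hx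
    have h1 := strictly_right (ε := 2 * e0) (by positivity) (r := r) (by omega) (b := (n:ℝ) + 1)
      (a := a0) ha0.le ⟨x, by rw [hx]; push_cast; ring⟩
    have h2 : ((n + 2 : ℕ) : ℝ) ≤ (r : ℝ) := by exact_mod_cast (by omega : n + 2 ≤ r)
    push_cast at h2
    linarith
  by_cases hY0 : XX n r (-s) a0 e0 = 0
  · -- constriction
    have hid := XX_both' hs hX hY0
    have hr : (r:ℤ) = n + 1 := by
      by_contra hne
      have := no_ident_pos (n := n) (r := (r:ℤ)) (a := a0) (ε := 2 * e0) ha0 (by positivity) hne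
      exact this hid
    rw [hr] at hid H3
    have hM : MM n e0 < a0 / 2 := by
      rcases lt_trichotomy (a0 / 2) (MM n e0) with h | h | h
      · exact absurd (by rw [mul_div_cancel₀ _ two_ne_zero]; exact_mod_cast hid)
          (not_ident (n := n) (μ := a0 / 2) (by positivity) he0 h)
      · exact absurd h (not_ident_MM he0 (by rw [mul_div_cancel₀ _ two_ne_zero]; exact_mod_cast hid))
      · exact h
    obtain ⟨τ, hτ, h1, h2⟩ := trans_ident ha0 he0 hid
    rw [Metric.eventually_nhds_iff] at H3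
    obtain ⟨η, hη, H3⟩ := H3
    have H3' : ∀ a e : ℝ, |a - a0| < η → |e - e0| < η → e < e0 →
        ¬ Bs σ ((n:ℤ) + 1) (2 * e) (n + 1) a := by
      intro a e ha he
      exact H3 (y := (a, e)) (by rw [Prod.dist_eq, max_lt_iff, Real.dist_eq, Real.dist_eq]; exact ⟨ha, he⟩)
    have hball : ∀ᶠ a in 𝓝 a0, |a - a0| < η ∧ 2 * MM n e0 < a := by
      have h3 : ∀ᶠ a in 𝓝 a0, |a - a0| < η := by
        filter_upwards [Metric.ball_mem_nhds a0 hη] with a ha
        rwa [Metric.mem_ball, Real.dist_eq] at ha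
      exact h3.and (lt_mem_nhds (by linarith))
    have hct : ∀ c : ℝ, Tendsto (fun t : ℝ => a0 + c * t) (𝓝[>] 0) (𝓝 a0) := by
      intro c
      have hc : Continuous fun t : ℝ => a0 + c * t := by fun_prop
      have := (hc.tendsto 0).mono_left (nhdsWithin_le_nhds (s := Ioi 0))
      simpa using this
    obtain ⟨t1, h3, h4, h5⟩ := (h1.and ((hct τ).eventually hball)).exists
    obtain ⟨t2, h6, h7, h8⟩ := (h2.and ((hct (-τ)).eventually hball)).exists
    set a1 := a0 + τ * t1
    set a2 := a0 + -τ * t2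
    have hXc1 := XX_cont n ((n:ℤ) + 1) 1
    have hce : ∀ a : ℝ, Continuous fun e : ℝ => XX n (n + 1) 1 a e := fun a =>
      hXc1.comp (f := fun e : ℝ => (a, e)) (by fun_prop)
    have hev : ∀ᶠ e in 𝓝[<] e0, (0 < XX n (n + 1) 1 a1 e ∧ XX n (n + 1) 1 a2 e < 0) ∧ |e - e0| < η ∧ 0 < e := by
      refine Filter.Eventually.filter_mono nhdsWithin_le_nhds ?_
      refine (((hce a1).continuousAt.eventually (lt_mem_nhds h3)).and
        ((hce a2).continuousAt.eventually (gt_mem_nhds h6))).and (?_)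
      refine Filter.Eventually.and ?_ (lt_mem_nhds he0)
      filter_upwards [Metric.ball_mem_nhds e0 hη] with e he
      rwa [Metric.mem_ball, Real.dist_eq] at he
    obtain ⟨e, ⟨⟨h9, h10⟩, h11, he⟩, h12⟩ := (hev.and self_mem_nhdsWithin).exists
    have hee : e < e0 := h12
    have hca : Continuous fun a : ℝ => XX n (n + 1) 1 a e := hXc1.comp (f := fun a : ℝ => (a, e)) (by fun_prop)
    obtain ⟨a, ha, ha'⟩ : ∃ a ∈ uIcc a2 a1, XX n (n + 1) 1 a e = 0 :=
      intermediate_value_uIcc hca.continuousOn (by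
        rw [mem_uIcc]; left; exact ⟨h10.le, h9.le⟩)
    have hconv : ∀ S : Set ℝ, S.OrdConnected → a1 ∈ S → a2 ∈ S → a ∈ S := fun S hS h13 h14 =>
      hS.uIcc_subset h14 h13 ha
    have ha1 : |a - a0| < η := by
      have h13 := hconv (Ioo (a0 - η) (a0 + η)) ordConnected_Ioo
        (by rw [mem_Ioo]; constructor <;> linarith [(abs_lt.1 h4).1, (abs_lt.1 h4).2])
        (by rw [mem_Ioo]; constructor <;> linarith [(abs_lt.1 h7).1, (abs_lt.1 h7).2])
      rw [abs_lt]; constructor <;> linarith [h13.1, h13.2]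
    have ha2 : 2 * MM n e0 < a := hconv (Ioi (2 * MM n e0)) ordConnected_Ioi h5 h8
    have hMe := MM_mono (n := n) he hee.le
    have hMp := MM_pos n he
    have hida := ident_of (n := n) (a := a) (e := e) (s := 1) (by linarith) he (Or.inl rfl) (by linarith) ha'
    have hneg : XX n (n + 1) (-1) a e = 0 := by
      have h13 := hida (-(Real.pi / 2))
      rw [XX_neg n (n + 1)] at h13
      linarith
    exact H3' a e ha1 h11 hee (Bs_of hσ (Or.inl rfl) ha' (by rw [hneg]; simp))
  · -- noncritical case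
    have hYpos : 0 < σ * XX n r (-s) a0 e0 := by
      refine lt_of_le_of_ne hY (fun h => hY0 ?_)
      have hσ0 : σ ≠ 0 := by rcases hσ with rfl | rfl <;> norm_num
      exact (mul_eq_zero.1 h.symm).resolve_left hσ0
    have hmu : 0 < a0 / 2 := by positivity
    set i : ℤ := (n:ℤ) + 1 - r with hi
    have hA := XX_zero.1 hX
    have hB : al n (a0 / 2) (-(s * e0)) ≠ -(Real.pi * (i : ℝ)) := by
      intro h
      apply hY0
      rw [XX_zero, neg_mul]
      exact h
    have hstar := star hmu hs (i := i) (by omega) (by omega) he0 hA hB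
    have hstar' : ∀ᶠ e in 𝓝[<] e0, 0 < XX n r s a0 e := by
      filter_upwards [hstar] with e he
      rw [XX]
      rw [hi] at he
      push_cast at he ⊢
      linarith
    have hboth : ∀ᶠ p : ℝ × ℝ in 𝓝 (a0, e0), 0 < σ * XX n r (-s) p.1 p.2 ∧
        (p.2 < e0 → ¬ Bs σ r (2 * p.2) (n + 1) p.1) := by
      refine Filter.Eventually.and ?_ H3
      have hc : Continuous fun p : ℝ × ℝ => σ * XX n r (-s) p.1 p.2 := continuous_const.mul hYc
      exact hc.continuousAt.eventually (lt_mem_nhds hYpos)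
    rw [Metric.eventually_nhds_iff] at hboth
    obtain ⟨η, hη, hboth⟩ := hboth
    have hb' : ∀ a e : ℝ, |a - a0| < η → |e - e0| < η → 0 < σ * XX n r (-s) a e ∧
        (e < e0 → ¬ Bs σ r (2 * e) (n + 1) a) := by
      intro a e ha he
      exact hboth (y := (a, e)) (by rw [Prod.dist_eq, max_lt_iff, Real.dist_eq, Real.dist_eq]; exact ⟨ha, he⟩)
    have hne : ∀ a e : ℝ, |a - a0| < η → e ∈ Ioo (e0 - η) e0 → XX n r s a e ≠ 0 := by
      intro a e ha he h0
      obtain ⟨h1, h2⟩ := hb' a e ha (by rw [abs_lt]; constructor <;> linarith [he.1, he.2])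
      exact h2 he.2 (Bs_of hσ hs h0 h1.le)
    obtain ⟨e1, he1, he1'⟩ : ∃ e1 ∈ Ioo (e0 - η) e0, 0 < XX n r s a0 e1 := by
      obtain ⟨e1, h1, h2⟩ := (hstar'.and (Ioo_mem_nhdsLT (show e0 - η < e0 by linarith))).exists
      exact ⟨e1, h2, h1⟩
    have hpos : ∀ a : ℝ, |a - a0| < η → ∀ e ∈ Ioo (e0 - η) e0, 0 < XX n r s a e := by
      intro a ha
      -- first move in `a` at `e1`, then in `e`
      have hc1 : Continuous fun a : ℝ => XX n r s a e1 := hXc.comp (f := fun a : ℝ => (a, e1)) (by fun_prop)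
      have h1 := ivt_gt hc1 (a := a0 - η) (b := a0 + η) (c := a0) ⟨by linarith, by linarith⟩ he1'
        (fun x hx => hne x e1 (by rw [abs_lt]; constructor <;> linarith [hx.1, hx.2]) he1) a
        ⟨by linarith [(abs_lt.1 ha).1], by linarith [(abs_lt.1 ha).2]⟩
      have hc2 : Continuous fun e : ℝ => XX n r s a e := hXc.comp (f := fun e : ℝ => (a, e)) (by fun_prop)
      exact ivt_gt hc2 he1 h1 (fun x hx => hne a x ha hx)
    have hge : ∀ a : ℝ, |a - a0| < η → 0 ≤ XX n r s a e0 := by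
      intro a ha
      have hc2 : Continuous fun e : ℝ => XX n r s a e := hXc.comp (f := fun e : ℝ => (a, e)) (by fun_prop)
      have ht : Tendsto (fun e : ℝ => XX n r s a e) (𝓝[<] e0) (𝓝 (XX n r s a e0)) :=
        (hc2.tendsto e0).mono_left nhdsWithin_le_nhds
      refine ge_of_tendsto ht ?_
      filter_upwards [Ioo_mem_nhdsLT (show e0 - η < e0 by linarith)] with e he using (hpos a ha e he).le
    have hgerm := germ hσ H1 H2 hs
    have hball : ∀ᶠ a in 𝓝 a0, |a - a0| < η := by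
      filter_upwards [Metric.ball_mem_nhds a0 hη] with a ha
      rwa [Metric.mem_ball, Real.dist_eq] at ha
    refine no_interval (n := n) (r := (r:ℤ)) ha0 he0 hs ?_ ?_
    · filter_upwards [hgerm, hball] with a h1 h2
      exact le_antisymm (h1 (hb' a e0 h2 (by rw [sub_self, abs_zero]; exact hη)).1) (hge a h2)
    · filter_upwards [hball] with a h2 h0
      have := (hb' a e0 h2 (by rw [sub_self, abs_zero]; exact hη)).1
      rw [h0, mul_zero] at this
      exact lt_irrefl _ this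

end Pool.Agent.V7H91.PL
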