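import Pool.Agent.V7H91.PL.Tr

set_option autoImplicit false
open Set Filter Topology ComplexConjugate

namespace Pool.Agent.V7H91.PL
open H535R3

/-- Half displacement of the symmetric point, relative to `n + 1` turns. -/
noncomputable def al (n : ℕ) (mu e : ℝ) : ℝ :=
  (P (n + 1) (2 * mu) (2 * e) (Real.pi / 2) - Real.pi / 2 - 2 * Real.pi * (n + 1)) / 2

/-- Weight. -/
noncomputable def Wt (n : ℕ) (mu e : ℝ) : ℝ := Real.exp (Kx (n + 1) (2 * mu) (2 * e) (Real.pi / 2))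

lemma Wt_pos (n : ℕ) (mu e : ℝ) : 0 < Wt n mu e := Real.exp_pos _

lemma P_al (n : ℕ) (mu e : ℝ) : P (n + 1) (2 * mu) (2 * e) (Real.pi / 2) =
    Real.pi / 2 + 2 * Real.pi * (n + 1) + 2 * al n mu e := by
  unfold al; ring

lemma P_al_neg (n : ℕ) (mu e : ℝ) : P (n + 1) (2 * mu) (2 * e) (-(Real.pi / 2)) =
    -(Real.pi / 2) + 2 * Real.pi * (n + 1) + 2 * al n mu (-e) := by
  have h := (P_neg (n + 1) (2 * mu) (2 * e) (-(Real.pi / 2))).1
  rw [show -(Real.pi / 2) + Real.pi = Real.pi / 2 by ring, show -(2 * e) = 2 * -e by ring, P_al] at h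
  rw [h]; ring

lemma Wt_neg (n : ℕ) (mu e : ℝ) :
    Real.exp (Kx (n + 1) (2 * mu) (2 * e) (-(Real.pi / 2))) = Wt n mu (-e) := by
  have h := (P_neg (n + 1) (2 * mu) (2 * e) (-(Real.pi / 2))).2
  rw [show -(Real.pi / 2) + Real.pi = Real.pi / 2 by ring, show -(2 * e) = 2 * -e by ring] at h
  rw [h]; rfl

lemma al_cont2 (n : ℕ) : Continuous fun p : ℝ × ℝ => al n p.1 p.2 := by
  have h : Continuous fun p : ℝ × ℝ => P (n + 1) (2 * p.1) (2 * p.2) (Real.pi / 2) :=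
    continuous_P.comp (f := fun p : ℝ × ℝ => ((n:ℝ) + 1, 2 * p.1, 2 * p.2, Real.pi / 2)) (by fun_prop)
  exact ((h.sub continuous_const).sub continuous_const).div_const 2

lemma al_cont (n : ℕ) (mu : ℝ) : Continuous (al n mu) :=
  (al_cont2 n).comp (f := fun e : ℝ => (mu, e)) (by fun_prop)

lemma al_zero (n : ℕ) (mu : ℝ) : al n mu 0 = 0 := by
  unfold al
  rw [mul_zero, P_zero]; ring

/-- The two angles differ by less than a quarter turn. -/
lemma al_diff (n : ℕ) (mu e : ℝ) : |al n mu e - al n mu (-e)| < Real.pi / 2 := by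
  have hpi := Real.pi_pos
  have h1 : P (n + 1) (2 * mu) (2 * e) (-(Real.pi / 2)) < P (n + 1) (2 * mu) (2 * e) (Real.pi / 2) :=
    P_mono _ _ _ (by linarith)
  have h2 : P (n + 1) (2 * mu) (2 * e) (Real.pi / 2) <
      P (n + 1) (2 * mu) (2 * e) (-(Real.pi / 2) + 2 * Real.pi * (1 : ℤ)) :=
    P_mono _ _ _ (by push_cast; linarith)
  rw [P_add] at h2
  rw [P_al, P_al_neg] at h1 h2
  push_cast at h2
  rw [abs_lt]
  constructor <;> linarith

lemma cos_diff (n : ℕ) (mu e : ℝ) :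
    Wt n mu e * Wt n mu (-e) * Real.cos (al n mu e - al n mu (-e)) = 1 := by
  have h := mobP (n + 1) (2 * mu) (2 * e) (Real.pi / 2) (-(Real.pi / 2))
  rw [P_al, P_al_neg] at h
  rw [show (Real.pi / 2 + 2 * Real.pi * (n + 1) + 2 * al n mu e - (-(Real.pi / 2) +
    2 * Real.pi * (n + 1) + 2 * al n mu (-e))) / 2 = (al n mu e - al n mu (-e)) + Real.pi / 2 by ring,
    show (Real.pi / 2 - -(Real.pi / 2)) / 2 = Real.pi / 2 by ring, Real.sin_add_pi_div_two,
    Real.sin_pi_div_two, one_mul, Real.exp_neg, Real.exp_add, Wt_neg] at h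
  rw [h]
  have h1 := (Wt_pos n mu e).ne'
  have h2 := (Wt_pos n mu (-e)).ne'
  have h3 : Real.exp (Kx (n + 1) (2 * mu) (2 * e) (Real.pi / 2)) = Wt n mu e := rfl
  rw [h3]
  exact mul_inv_cancel₀ (mul_ne_zero h1 h2)

lemma diag_eq (n : ℕ) (mu e : ℝ) :
    Wt n mu e * Real.cos (al n mu e) = Wt n mu (-e) * Real.cos (al n mu (-e)) := by
  set b : ℝ := (n:ℝ) + 1
  set a : ℝ := 2 * mu
  set ε : ℝ := 2 * e
  set φ := fl b a ε (Real.pi / 2) with hφ
  have hs : Sol b a ε φ := fl_sol _ _ _ _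
  have hg : Sol b a ε (fun t => φ (t - 2 * Real.pi)) := by
    intro t
    have h1 := (hs (t - 2 * Real.pi)).comp_sub_const t (2 * Real.pi)
    rw [Real.cos_sub_two_pi] at h1
    exact h1
  set y0 := φ (-(2 * Real.pi)) with hy0
  have hge := hg.eq_fl
  simp only [zero_sub] at hge
  rw [← hy0] at hge
  have hy : y0 = Real.pi - P b a ε (Real.pi / 2) := by
    rw [hy0, hφ, sym_sol]; rfl
  have hP : P b a ε y0 = Real.pi / 2 := by
    have := congrFun hge (2 * Real.pi)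
    rw [sub_self] at this
    rw [P, ← this, hφ, fl_zero]
  have hK : Kx b a ε y0 = -Kx b a ε (Real.pi / 2) := by
    have h1 : Cc (fl b a ε y0) (2 * Real.pi) = -Cc φ (2 * Real.pi) := by
      rw [← hge, Cc]
      have h2 := intervalIntegral.integral_comp_sub_right (a := 0) (b := 2 * Real.pi)
        (fun s => Real.cos (φ s)) (2 * Real.pi)
      rw [h2, sub_self, zero_sub, intervalIntegral.integral_symm]
      have h3 : Cc φ (-(2 * Real.pi)) = Cc φ (2 * Real.pi) := Cc_even _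
      rw [← h3, Cc]
    rw [Kx, Kx, h1]; ring
  have h := mobP b a ε (-(Real.pi / 2)) y0
  rw [hP, hK] at h
  have e1 : P b a ε (-(Real.pi / 2)) = -(Real.pi / 2) + 2 * Real.pi * (n + 1) + 2 * al n mu (-e) :=
    P_al_neg n mu e
  have e2 : P b a ε (Real.pi / 2) = Real.pi / 2 + 2 * Real.pi * (n + 1) + 2 * al n mu e := P_al n mu e
  rw [e1, hy, e2] at h
  rw [show (-(Real.pi / 2) + 2 * Real.pi * (n + 1) + 2 * al n mu (-e) - Real.pi / 2) / 2 =
    (al n mu (-e) - Real.pi / 2) + ((n + 1 : ℕ) : ℝ) * Real.pi by push_cast; ring,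
    show (-(Real.pi / 2) - (Real.pi - (Real.pi / 2 + 2 * Real.pi * (n + 1) + 2 * al n mu e))) / 2 =
    (al n mu e - Real.pi / 2) + ((n + 1 : ℕ) : ℝ) * Real.pi by push_cast; ring,
    Real.sin_add_nat_mul_pi, Real.sin_add_nat_mul_pi, Real.sin_sub_pi_div_two,
    Real.sin_sub_pi_div_two, neg_add, neg_neg, Real.exp_add, Real.exp_neg] at h
  have e3 : Real.exp (Kx b a ε (-(Real.pi / 2))) = Wt n mu (-e) := Wt_neg n mu e
  have e4 : Real.exp (Kx b a ε (Real.pi / 2)) = Wt n mu e := rfl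
  rw [e3, e4] at h
  have h1 := (Wt_pos n mu e).ne'
  have h2 := (Wt_pos n mu (-e)).ne'
  have hs : ((-1:ℝ) ^ (n + 1)) ≠ 0 := pow_ne_zero _ (by norm_num)
  field_simp at h
  linear_combination h

/-- Real trace. -/
noncomputable def Dr (n : ℕ) (mu e : ℝ) : ℝ := 2 * (Wt n mu e * Real.cos (al n mu e))

lemma Dl_eq {n : ℕ} {mu e : ℝ} (he : e ≠ 0) : Dl n ((e:ℂ) ^ 2) mu = (Dr n mu e : ℂ) := by
  have h := trace_xy (n := n) (mu := mu) he (Real.pi / 2) (-(Real.pi / 2))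
  rw [show (Real.pi / 2 - -(Real.pi / 2)) / 2 = Real.pi / 2 by ring, Real.sin_pi_div_two,
    Complex.ofReal_one, mul_one, P_al, P_al_neg, Wt_neg] at h
  rw [← h, Dr]
  congr 1
  rw [show (Real.pi / 2 + 2 * Real.pi * (n + 1) + 2 * al n mu e - 2 * Real.pi * (n + 1) -
    -(Real.pi / 2)) / 2 = al n mu e + Real.pi / 2 by ring,
    show (Real.pi / 2 - (-(Real.pi / 2) + 2 * Real.pi * (n + 1) + 2 * al n mu (-e) -
      2 * Real.pi * (n + 1))) / 2 = Real.pi / 2 - al n mu (-e) by ring,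
    Real.sin_add_pi_div_two, Real.sin_pi_div_two_sub]
  have h3 : Real.exp (Kx (n + 1) (2 * mu) (2 * e) (Real.pi / 2)) = Wt n mu e := rfl
  rw [h3, ← diag_eq]
  ring

lemma Dr_neg (n : ℕ) (mu e : ℝ) : Dr n mu (-e) = Dr n mu e := by
  unfold Dr; rw [diag_eq n mu e]

/-- Continuity in the parameter at a fixed time. -/
lemma fl_cont_eps (b a x : ℝ) {t : ℝ} (ht : t ∈ Icc 0 (2 * Real.pi)) : Continuous fun ε => fl b a ε x t := by
  rw [continuous_iff_continuousAt]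
  intro ε
  rw [ContinuousAt, tendsto_iff_dist_tendsto_zero]
  have hb : Tendsto (fun ε' : ℝ => |ε' - ε| / (|ε| + 1) * (Real.exp ((|ε| + 1) * t) - 1)) (𝓝 ε) (𝓝 0) := by
    have hc : Continuous (fun ε' : ℝ => |ε' - ε| / (|ε| + 1) * (Real.exp ((|ε| + 1) * t) - 1)) := by fun_prop
    have := hc.tendsto ε
    simpa using this
  refine squeeze_zero (fun _ => dist_nonneg) (fun ε' => ?_) hb
  rw [dist_comm]
  have h := fl_dist b a ε x b a ε' x t ht
  have hK : ((KK ε : NNReal) : ℝ) = |ε| + 1 := rfl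
  rw [gronwallBound_of_K_ne_0 (by rw [hK]; positivity), hK, sub_zero, zero_add, dist_self] at h
  simp only [zero_mul, zero_add, sub_self, abs_zero] at h
  exact h

lemma Cc_cont_eps (b a x : ℝ) {t : ℝ} (ht : t ∈ Icc 0 (2 * Real.pi)) :
    Continuous fun ε => Cc (fl b a ε x) t := by
  unfold Cc
  refine intervalIntegral.continuous_of_dominated_interval (bound := fun _ => 1) ?_ ?_ ?_ ?_
  · intro ε
    have := (fl_sol b a ε x).cont
    exact (Real.continuous_cos.comp this).aestronglyMeasurable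
  · intro ε
    refine Eventually.of_forall fun s _ => ?_
    rw [Real.norm_eq_abs]
    exact Real.abs_cos_le_one _
  · exact intervalIntegrable_const
  · refine Eventually.of_forall fun s hs => ?_
    rw [uIoc_of_le ht.1] at hs
    exact Real.continuous_cos.comp (fl_cont_eps b a x ⟨hs.1.le, hs.2.trans ht.2⟩)

lemma Wt_cont (n : ℕ) (mu : ℝ) : Continuous (Wt n mu) := by
  have hm : ∀ e, Wt n mu e =
      Real.exp (e * Cc (fl (n + 1) (2 * mu) (2 * e) (Real.pi / 2)) (2 * Real.pi)) := by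
    intro e; rw [Wt, Kx]; ring_nf
  have h1 : Continuous fun e : ℝ => Cc (fl (n + 1) (2 * mu) (2 * e) (Real.pi / 2)) (2 * Real.pi) :=
    (Cc_cont_eps (n + 1) (2 * mu) (Real.pi / 2) ⟨Real.two_pi_pos.le, le_rfl⟩).comp
      (f := fun e : ℝ => 2 * e) (by fun_prop)
  rw [show Wt n mu = fun e => Real.exp (e * Cc (fl (n + 1) (2 * mu) (2 * e) (Real.pi / 2)) (2 * Real.pi))
    from funext hm]
  fun_prop

/-- The product of the sines. -/
lemma sin_prod (n : ℕ) (mu e : ℝ) :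
    Wt n mu e * Wt n mu (-e) * (Real.sin (al n mu e) * Real.sin (al n mu (-e))) = 1 - (Dr n mu e) ^ 2 / 4 := by
  have h1 := cos_diff n mu e
  have h2 := diag_eq n mu e
  rw [Real.cos_sub] at h1
  unfold Dr
  linear_combination h1 - Wt n mu e * Real.cos (al n mu e) * (-1) * h2

lemma Dr_cont (n : ℕ) (mu : ℝ) : Continuous (Dr n mu) := by
  have h1 := al_cont n mu
  have h2 := Wt_cont n mu
  unfold Dr
  fun_prop

lemma eig {n : ℕ} {lam mu ν : ℂ} {v q : ℝ → ℂ} (h : VS n lam mu v q) (hv : v (2 * Real.pi) = ν * v 0)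
    (hq : q (2 * Real.pi) = ν * q 0) (h0 : v 0 ≠ 0) : ν ^ 2 - Dl n lam mu * ν + 1 = 0 := by
  obtain ⟨h1, h2⟩ := h.at_two_pi (2 * Real.pi)
  have hd := det_one n lam mu
  rw [hv] at h1
  rw [hq] at h2
  unfold Dl
  set a := (Y n lam mu (1, 0) (2 * Real.pi)).1
  set b := (Y n lam mu (0, 1) (2 * Real.pi)).1
  set c := (Y n lam mu (1, 0) (2 * Real.pi)).2
  set d := (Y n lam mu (0, 1) (2 * Real.pi)).2
  apply mul_left_cancel₀ h0
  linear_combination (-v 0) * hd + (ν - d) * h1 + b * h2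

lemma lock_eig {n : ℕ} {mu e x : ℝ} {k : ℤ}
    (h : P (n + 1) (2 * mu) (2 * e) x = x + 2 * Real.pi * ((n + 1 : ℝ) + k)) :
    ∃ κ : ℝ, 0 < κ ∧ κ = Real.exp (Kx (n + 1) (2 * mu) (2 * e) x) ∧
      Dl n ((e:ℂ) ^ 2) mu = (((-1) ^ k * (κ + κ⁻¹) : ℝ) : ℂ) := by
  set κ := Real.exp (Kx (n + 1) (2 * mu) (2 * e) x) with hκ
  have hκ0 : 0 < κ := Real.exp_pos _
  refine ⟨κ, hκ0, rfl, ?_⟩
  have hvs := VS_of_sol (fl_sol (n + 1) (2 * mu) (2 * e) x)
  obtain ⟨a1, a2⟩ := VQ_zero n mu e x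
  obtain ⟨c1, c2⟩ := VQ_two_pi n mu e x
  have hs : ((-1:ℂ) ^ k) = Complex.exp (Complex.I * (Real.pi * k)) := by
    rw [show Complex.I * (Real.pi * (k:ℂ)) = k * (Real.pi * Complex.I) by ring, Complex.exp_int_mul,
      Complex.exp_pi_mul_I]
  have hs' : ((-1:ℂ) ^ k) = Complex.exp (-(Complex.I * (Real.pi * k))) := by
    rw [Complex.exp_neg, ← hs]
    rcases Int.even_or_odd k with hk | hk
    · rw [hk.neg_one_zpow, inv_one]
    · rw [hk.neg_one_zpow]; norm_num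
  have hs2 : ((-1:ℂ) ^ k) * (-1) ^ k = 1 := by
    rw [← mul_zpow]; norm_num
  rw [h] at c1 c2
  have h1 : Vf n mu e (fl (n + 1) (2 * mu) (2 * e) x) (2 * Real.pi) =
      ((-1) ^ k * (κ : ℂ)) * Vf n mu e (fl (n + 1) (2 * mu) (2 * e) x) 0 := by
    rw [c1, a1, hs, ← hκ]
    rw [show ∀ A B C : ℂ, A * B * C = B * (A * C) by intros; ring, ← Complex.exp_add]
    congr 2
    push_cast; ring
  have h2 : Qf n mu e (fl (n + 1) (2 * mu) (2 * e) x) (2 * Real.pi) =
      ((-1) ^ k * (κ : ℂ)) * Qf n mu e (fl (n + 1) (2 * mu) (2 * e) x) 0 := by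
    rw [c2, a2, hs', ← hκ]
    rw [show ∀ A B C D : ℂ, A * B * (C * D) = C * (B * (A * D)) by intros; ring, ← Complex.exp_add]
    congr 3
    push_cast; ring
  have h3 := eig hvs h1 h2 (by rw [a1]; exact Complex.exp_ne_zero _)
  have hκc : (κ : ℂ) ≠ 0 := Complex.ofReal_ne_zero.2 hκ0.ne'
  push_cast
  field_simp
  linear_combination (-((-1:ℂ) ^ k)) * h3 + ((κ:ℂ) ^ 2 * (-1) ^ k - Dl n ((e:ℂ) ^ 2) mu * κ) * hs2

end Pool.Agent.V7H91.PL
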