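import Pool.Agent.V7H91.PL.Al

set_option autoImplicit false
open Set Filter Topology Complex ComplexConjugate

namespace Pool.Agent.V7H91.PL
open H535R3

/-- If the outer part does not vanish the time-`2π` map is a rotation. -/
lemma rot_outer {n : ℕ} {m : ℤ} {μ ε : ℝ} {c : ℤ → ℝ}
    (h : P (n + 1) (2 * μ) ε (Real.pi / 2) = Real.pi / 2 + 2 * Real.pi * ((1 - n + 2 * m : ℤ) : ℝ))
    (hr : RRec n μ (ε / 2) c) (hb : ∃ C, ∀ k, |c k| ≤ C) (h0 : c (-1) ≠ 0) (x : ℝ) :
    P (n + 1) (2 * μ) ε x = x + 2 * Real.pi * ((1 - n + 2 * m : ℤ) : ℝ) := by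
  obtain ⟨c', hr', hb', j, hj⟩ := flip_exists hr h0 hb
  rw [← neg_div] at hr'
  obtain ⟨D, -, hD⟩ := decay hr' hb' 3
  have hs := summables hD
  have hs' := summable_c hs
  have hsol := HH_sol hr' hs
  obtain ⟨t1, ht1⟩ := HH_ne hs' hj
  obtain ⟨-, hK, m', hm⟩ := of_LSol hsol (HH_real c') (by simpa using HH_per c' 0) ht1
  have h1 := P_neg (n + 1) (2 * μ) ε (-(Real.pi / 2))
  have e1 : -(Real.pi / 2) + Real.pi = Real.pi / 2 := by ring
  rw [e1, hm, hK] at h1
  have hpi := Real.pi_pos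
  have h2 : P (n + 1) (2 * μ) ε (-(Real.pi / 2)) < P (n + 1) (2 * μ) ε (Real.pi / 2) :=
    P_mono _ _ _ (by linarith)
  have h3 : P (n + 1) (2 * μ) ε (Real.pi / 2) < P (n + 1) (2 * μ) ε (-(Real.pi / 2) + 2 * Real.pi * (1 : ℤ)) :=
    P_mono _ _ _ (by push_cast; linarith)
  rw [P_add] at h3
  rw [h1.1, h] at h2 h3
  push_cast at h2 h3
  have h4 : (m':ℝ) < m + 1 := by
    by_contra hcon
    push Not at hcon
    nlinarith
  have h5 : (m:ℝ) < m' + 1 := by
    by_contra hcon
    push Not at hcon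
    nlinarith
  have h6 : m' = m := by
    have h7 : m' < m + 1 := by exact_mod_cast h4
    have h8 : m < m' + 1 := by exact_mod_cast h5
    omega
  subst h6
  have h8 : P (n + 1) (2 * μ) ε (-(Real.pi / 2)) =
      -(Real.pi / 2) + 2 * Real.pi * ((1 - n + 2 * m' : ℤ) : ℝ) := by
    rw [h1.1]; push_cast; ring
  have hsin : Real.sin ((-(Real.pi / 2) - Real.pi / 2) / 2) ≠ 0 := by
    rw [show (-(Real.pi / 2) - Real.pi / 2) / 2 = -(Real.pi / 2) by ring, Real.sin_neg,
      Real.sin_pi_div_two]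
    norm_num
  rcases dich h h8 hsin with ⟨h9, -⟩ | ⟨h9, -⟩
  · exact h9 x
  · exact absurd (Kx_sym h) h9

/-- A non-degenerate symmetric periodic solution comes from a polynomial. -/
lemma poly_gen {n : ℕ} {m : ℤ} {μ ε : ℝ} (hμ : μ ≠ 0)
    (h : P (n + 1) (2 * μ) ε (Real.pi / 2) = Real.pi / 2 + 2 * Real.pi * ((1 - n + 2 * m : ℤ) : ℝ))
    (hne : ¬ ∀ x, P (n + 1) (2 * μ) ε x = x + 2 * Real.pi * ((1 - n + 2 * m : ℤ) : ℝ)) :
    ∃ c : ℤ → ℝ, (∀ k : ℤ, k < 0 ∨ n < k → c k = 0) ∧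
      ∀ t : ℝ, GG n μ ε (fl (n + 1) (2 * μ) ε (Real.pi / 2)) t =
        ∑ k ∈ Finset.Icc 0 (n:ℤ), (c k : ℂ) * exp (I * k * t) := by
  obtain ⟨c, hr, hb, hG⟩ := fourier_data2 h
  have h0 : c (-1) = 0 := by
    by_contra h0
    exact hne (rot_outer h hr hb h0)
  have hz := outer_zero hr hμ h0
  obtain ⟨D, -, hD⟩ := decay hr hb 3
  have hs := (summable_c (summables hD)).of_abs
  refine ⟨c, hz, fun t => ?_⟩
  have h1 := hG hs t
  have h2 : HasSum (fun k : ℤ => (c k : ℂ) * exp (I * k * t))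
      (∑ k ∈ Finset.Icc 0 (n:ℤ), (c k : ℂ) * exp (I * k * t)) := by
    refine hasSum_sum_of_ne_finset_zero ?_
    intro k hk
    rw [Finset.mem_Icc] at hk
    rw [hz k (by omega)]; simp
  exact h1.unique h2

lemma HH_gf (μ t : ℝ) : HH (fun k => gf μ (-k)) t = exp (μ * exp (-(I * t))) := by
  have h1 : HH (gf μ) t = exp (μ * exp (I * t)) := by
    have key : ∀ z : ℂ, exp z = ∑' m : ℕ, z ^ m / m.factorial := by
      intro z; rw [Complex.exp_eq_exp_ℂ, NormedSpace.exp_eq_tsum_div]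
    rw [HH_nat (fun k hk => gf_neg hk), key (μ * exp (I * t))]
    refine tsum_congr fun m => ?_
    unfold gf
    rw [if_pos (by positivity), Int.toNat_natCast, mul_pow]
    push_cast
    ring
  have h2 := HH_conj (gf μ) t
  rw [← h2, h1, ← exp_conj, map_mul, ← exp_conj, conj_ofReal]
  congr 3
  simp only [map_mul, conj_I, conj_ofReal]
  ring

/-- The function `V`, a function of `exp (-I t)`. -/
noncomputable def Vg (n : ℕ) (mu e : ℝ) (φ : ℝ → ℝ) (t : ℝ) : ℂ :=
  exp (mu * exp (-(I * t))) * (exp (I * ((-(n:ℤ) : ℤ) : ℂ) * t) * GG n mu (2 * e) φ t)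

lemma Vg_eq (n : ℕ) (mu e : ℝ) (φ : ℝ → ℝ) (t : ℝ) : Vg n mu e φ t =
    exp (((e * Cc φ t : ℝ) : ℂ) + I * (((φ t - Real.pi / 2 - (n + 1) * t) / 2 - mu * Real.sin t : ℝ) : ℂ)) := by
  have e1 : exp (-(I * t)) = Real.cos t - I * Real.sin t := by
    rw [show -(I * (t:ℂ)) = ((-t : ℝ) : ℂ) * I by push_cast; ring, exp_mul_I]
    push_cast
    rw [Complex.cos_neg, Complex.sin_neg]; ring
  rw [Vg, GG, gg, e1, ← exp_add, ← exp_add]
  congr 1
  push_cast
  ring

lemma Vg_deriv {n : ℕ} {mu e : ℝ} {φ : ℝ → ℝ} (h : Sol (n + 1) (2 * mu) (2 * e) φ) (t : ℝ) :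
    HasDerivAt (Vg n mu e φ) (e * ((Real.cos (φ t) : ℂ) - I * Real.sin (φ t)) * Vg n mu e φ t) t := by
  have hC : HasDerivAt (fun t => ((e * Cc φ t : ℝ) : ℂ)) ((e * Real.cos (φ t) : ℝ) : ℂ) t :=
    ((Cc_deriv h.cont t).const_mul e).ofReal_comp
  have h2 : HasDerivAt (fun t => ((φ t - Real.pi / 2 - (n + 1) * t) / 2 - mu * Real.sin t : ℝ))
      (((n + 1 + 2 * mu * Real.cos t - 2 * e * Real.sin (φ t)) - ((n:ℝ) + 1) * 1) / 2 -
        mu * Real.cos t) t :=
    ((((h t).sub_const (Real.pi / 2)).sub ((hasDerivAt_id t).const_mul ((n:ℝ) + 1))).div_const 2).sub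
      ((Real.hasDerivAt_sin t).const_mul mu)
  have h3 : Vg n mu e φ = fun t => exp (((e * Cc φ t : ℝ) : ℂ) +
    I * (((φ t - Real.pi / 2 - (n + 1) * t) / 2 - mu * Real.sin t : ℝ) : ℂ)) := funext fun t => Vg_eq n mu e φ t
  rw [h3]
  refine (hC.add (h2.ofReal_comp.const_mul I)).cexp.congr_deriv ?_
  simp only [Pi.add_apply]
  push_cast
  ring

lemma Vg_ne (n : ℕ) (mu e : ℝ) (φ : ℝ → ℝ) (t : ℝ) : Vg n mu e φ t ≠ 0 := by
  rw [Vg_eq]; exact exp_ne_zero _

lemma Vg_norm (n : ℕ) (mu e : ℝ) (φ : ℝ → ℝ) (t : ℝ) :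
    Vg n mu e φ t * conj (Vg n mu e φ t) = ((Real.exp (2 * e * Cc φ t) : ℝ) : ℂ) := by
  rw [Vg_eq, ← exp_conj, ← exp_add, ofReal_exp]
  congr 1
  simp only [map_add, map_mul, conj_ofReal, conj_I]
  push_cast
  ring

/-- Positivity of the weighted mean of the sine. -/
theorem sin_mean {n : ℕ} {m : ℤ} {mu e : ℝ} (hmu : 0 < mu) (he : e ≠ 0)
    (h : P (n + 1) (2 * mu) (2 * e) (Real.pi / 2) =
      Real.pi / 2 + 2 * Real.pi * ((1 - n + 2 * m : ℤ) : ℝ))
    (hne : ¬ ∀ x, P (n + 1) (2 * mu) (2 * e) x = x + 2 * Real.pi * ((1 - n + 2 * m : ℤ) : ℝ)) :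
    0 < ∫ t in (-Real.pi)..Real.pi, e * Real.sin (fl (n + 1) (2 * mu) (2 * e) (Real.pi / 2) t) *
      Real.exp (2 * e * Cc (fl (n + 1) (2 * mu) (2 * e) (Real.pi / 2)) t) := by
  obtain ⟨c, hz, hG⟩ := poly_gen hmu.ne' h hne
  set φ := fl (n + 1) (2 * mu) (2 * e) (Real.pi / 2) with hφd
  have hφ : Sol (n + 1) (2 * mu) (2 * e) φ := fl_sol _ _ _ _
  set V := Vg n mu e φ with hV
  set W : ℝ → ℂ := fun t => e * ((Real.cos (φ t) : ℂ) - I * Real.sin (φ t)) * V t with hW
  have hVd : ∀ t, HasDerivAt V (W t) t := fun t => Vg_deriv hφ t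
  have hVc : Continuous V := continuous_iff_continuousAt.2 fun t => (hVd t).continuousAt
  have hφc := hφ.cont
  have hWc : Continuous W := by fun_prop
  -- Fourier coefficients
  set E : ℤ → ℝ := fun k => gf mu (-k) with hE
  have hEs : Summable fun k => |E k| := by
    have h1 : Summable (fun k : ℤ => gf mu (-k)) := ((Equiv.neg ℤ).summable_iff (f := gf mu)).2 (gf_summable mu)
    exact h1.abs
  set d : ℤ → ℝ := fun k => ∑ j ∈ Finset.Icc 0 (n:ℤ), c j * E (k - (j - n)) with hd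
  have hds1 : ∀ j : ℤ, Summable fun k : ℤ => |c j * E (k - (j - n))| := by
    intro j
    simp_rw [abs_mul]
    exact (((Equiv.subRight (j - n)).summable_iff (f := fun k => |E k|)).2 hEs).mul_left _
  have hds : Summable fun k => |d k| := by
    refine Summable.of_nonneg_of_le (fun k => abs_nonneg _)
      (fun k => Finset.abs_sum_le_sum_abs _ _) ?_
    exact summable_sum fun j _ => hds1 j
  have hVd' : ∀ t, V t = HH d t := by
    intro t
    rw [hd, HH_finset_sum hds1, hV, Vg, hG, ← HH_gf, Finset.mul_sum, Finset.mul_sum]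
    refine Finset.sum_congr rfl fun j _ => ?_
    have h1 : HH (fun k => c j * E (k - (j - n))) t = c j * HH (fun k => E (k - (j - n))) t :=
      HH_smul (c j) (fun k => E (k - (j - n))) t
    rw [h1, ← HH_e]
    rw [show exp (I * ((j - n : ℤ) : ℂ) * t) = exp (I * ((-(n:ℤ) : ℤ) : ℂ) * t) * exp (I * j * t) by
      rw [← exp_add]; congr 1; push_cast; ring]
    ring
  have hdz : ∀ k : ℤ, 0 < k → d k = 0 := by
    intro k hk
    simp only [hd, hE]
    refine Finset.sum_eq_zero fun j hj => ?_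
    rw [Finset.mem_Icc] at hj
    rw [gf_neg (by omega), mul_zero]
  have hVper : ∀ t, V (t + 2 * Real.pi) = V t := by
    intro t; rw [hVd', hVd', HH_per]
  have hcfV : ∀ k, cf V k = d k := by
    intro k
    rw [show V = HH d from funext hVd', HH_coeff hds]
  have hcfW : ∀ k, cf W k = I * k * d k := by
    intro k
    rw [cf_deriv hVd hWc hVper, hcfV]
  have hWper : ∀ t, W (t + 2 * Real.pi) = W t := by
    intro t
    have h1 : HasDerivAt (fun t => V (t + 2 * Real.pi)) (W (t + 2 * Real.pi)) t :=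
      (hVd (t + 2 * Real.pi)).comp_add_const t (2 * Real.pi)
    rw [show (fun t => V (t + 2 * Real.pi)) = V from funext hVper] at h1
    exact h1.unique (hVd t)
  obtain ⟨C, hC⟩ := ((show Function.Periodic W (2 * Real.pi) from hWper).isBounded_of_continuous
    Real.two_pi_pos.ne' hWc).exists_norm_le
  have hC' : ∀ t, ‖W t‖ ≤ C := fun t => hC _ (mem_range_self t)
  have key : HasSum (fun k : ℤ => ∫ t in (-Real.pi)..Real.pi, (d k : ℂ) * (W t * exp (-(I * k * t))))
      (∫ t in (-Real.pi)..Real.pi, W t * conj (V t)) := by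
    refine intervalIntegral.hasSum_integral_of_dominated_convergence (bound := fun k _ => |d k| * C)
      ?_ ?_ ?_ ?_ ?_
    · intro k
      exact (by fun_prop : Continuous fun t : ℝ => (d k : ℂ) * (W t * exp (-(I * k * t)))).aestronglyMeasurable
    · intro k
      refine Eventually.of_forall fun t _ => ?_
      rw [norm_mul, norm_mul, Complex.norm_real, Real.norm_eq_abs]
      have : ‖exp (-(I * k * t))‖ = 1 := by
        have := norm_ek (-k) t
        rw [← this]; congr 2; push_cast; ring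
      rw [this, mul_one]
      exact mul_le_mul_of_nonneg_left (hC' t) (abs_nonneg _)
    · exact Eventually.of_forall fun t _ => hds.mul_right C
    · exact intervalIntegrable_const
    · refine Eventually.of_forall fun t _ => ?_
      have h2 := (HH_summable hds t).hasSum
      have h3 := Complex.hasSum_conj'.2 h2
      have h4 := h3.mul_left (W t)
      have h5 : W t * conj (∑' k : ℤ, (d k : ℂ) * exp (I * k * t)) = W t * conj (V t) := by
        rw [hVd' t]; rfl
      rw [h5] at h4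
      refine h4.congr_fun fun k => ?_
      rw [map_mul, conj_ofReal, ← exp_conj]
      have : exp (-(I * k * t)) = exp (conj (I * k * t)) := by
        congr 1
        simp only [map_mul, conj_I, conj_ofReal, map_intCast]
        ring
      rw [this]; ring
  have hterm : ∀ k : ℤ, ∫ t in (-Real.pi)..Real.pi, (d k : ℂ) * (W t * exp (-(I * k * t))) =
      ((2 * Real.pi * (k * d k ^ 2) : ℝ) : ℂ) * I := by
    intro k
    rw [intervalIntegral.integral_const_mul]
    have h1 := hcfW k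
    unfold cf at h1
    have hpi : (Real.pi : ℂ) ≠ 0 := by exact_mod_cast Real.pi_ne_zero
    have h2 : ∫ t in (-Real.pi)..Real.pi, W t * exp (-(I * k * t)) = 2 * Real.pi * (I * k * d k) := by
      rw [← h1]; push_cast; field_simp
    rw [h2]; push_cast; ring
  simp_rw [hterm] at key
  have key2 := Complex.hasSum_im key
  simp only [mul_I_im, ofReal_re] at key2
  have hint : (∫ t in (-Real.pi)..Real.pi, W t * conj (V t)).im =
      -∫ t in (-Real.pi)..Real.pi, e * Real.sin (φ t) * Real.exp (2 * e * Cc φ t) := by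
    have h3 : ∀ t : ℝ, (W t * conj (V t)).im = -(e * Real.sin (φ t) * Real.exp (2 * e * Cc φ t)) := by
      intro t
      have h4 : W t * conj (V t) = ((e * Real.exp (2 * e * Cc φ t) : ℝ) : ℂ) *
          ((Real.cos (φ t) : ℂ) - I * Real.sin (φ t)) := by
        have h5 : V t * conj (V t) = ((Real.exp (2 * e * Cc φ t) : ℝ) : ℂ) := Vg_norm n mu e φ t
        simp only [hW]
        rw [ofReal_mul, ← h5]; ring
      rw [h4, im_ofReal_mul, sub_im, ofReal_im, I_mul_im, ofReal_re]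
      ring
    have h4 : Continuous fun t : ℝ => W t * conj (V t) := hWc.mul (continuous_conj.comp hVc)
    have h5 := Complex.imCLM.intervalIntegral_comp_comm (μ := MeasureTheory.volume)
      (h4.intervalIntegrable (-Real.pi) Real.pi)
    simp only [Complex.imCLM_apply] at h5
    rw [← h5]
    simp_rw [h3]
    rw [intervalIntegral.integral_neg]
  rw [hint] at key2
  have hnp : ∀ k : ℤ, 2 * Real.pi * (k * d k ^ 2) ≤ 0 := by
    intro k
    rcases lt_or_ge 0 k with hk | hk
    · rw [hdz k hk]; simp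
    · have h1 : (k:ℝ) ≤ 0 := by exact_mod_cast hk
      have h2 : (k:ℝ) * d k ^ 2 ≤ 0 := mul_nonpos_of_nonpos_of_nonneg h1 (sq_nonneg _)
      have := Real.pi_pos
      nlinarith
  by_contra hcon
  push Not at hcon
  have hsum0 : ∀ k : ℤ, 2 * Real.pi * (k * d k ^ 2) = 0 := by
    intro k
    have h1 := key2.neg
    rw [neg_neg] at h1
    have h2 := le_hasSum h1 k (fun j _ => by have := hnp j; simp only [Left.nonneg_neg_iff]; exact this)
    have h3 := hnp k
    linarith
  have hkd : ∀ k, cf W k = 0 := by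
    intro k
    rw [hcfW]
    have h1 := hsum0 k
    have h2 : (k:ℝ) * d k ^ 2 = 0 := (mul_eq_zero.1 h1).resolve_left Real.two_pi_pos.ne'
    rcases mul_eq_zero.1 h2 with h3 | h3
    · have : k = 0 := by exact_mod_cast h3
      rw [this]; simp
    · rw [pow_eq_zero_iff (two_ne_zero)] at h3
      rw [h3]; simp
  have hW0 : W 0 = 0 := by
    have h1 := cf_expand hWc hWper (by
      rw [show cf W = fun _ => 0 from funext hkd]; exact summable_zero) 0
    simp only [hkd, zero_mul] at h1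
    exact h1.unique hasSum_zero
  have hVne := Vg_ne n mu e φ 0
  have h1 : (e:ℂ) * ((Real.cos (φ 0) : ℂ) - I * Real.sin (φ 0)) = 0 :=
    (mul_eq_zero.1 hW0).resolve_right hVne
  have h2 : ((Real.cos (φ 0) : ℂ) - I * Real.sin (φ 0)) = 0 :=
    (mul_eq_zero.1 h1).resolve_left (ofReal_ne_zero.2 he)
  have h3 : φ 0 = Real.pi / 2 := fl_zero _ _ _ _
  rw [h3, Real.cos_pi_div_two, Real.sin_pi_div_two] at h2
  simp at h2

end Pool.Agent.V7H91.PL
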