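import Pool.Agent.V7H91.PL.Dd

set_option autoImplicit false
open Set Filter Topology

namespace Pool.Agent.V7H91.PL
open H535R3

/-- Comparison identity for two parameters. -/
lemma compare {b a e e' : ℝ} {φ ψ : ℝ → ℝ} (h1 : Sol b a (2 * e) φ) (h2 : Sol b a (2 * e') ψ)
    (h0 : φ 0 = ψ 0) (T : ℝ) :
    Real.exp (e * Cc φ T + e' * Cc ψ T) * Real.sin ((ψ T - φ T) / 2) =
      -(e' - e) * ∫ t in (0:ℝ)..T, Real.exp (e * Cc φ t + e' * Cc ψ t) * Real.sin ((φ t + ψ t) / 2) := by
  have hφc := h1.cont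
  have hψc := h2.cont
  have hC1 : Continuous (Cc φ) := continuous_iff_continuousAt.2 fun t => (Cc_deriv hφc t).continuousAt
  have hC2 : Continuous (Cc ψ) := continuous_iff_continuousAt.2 fun t => (Cc_deriv hψc t).continuousAt
  have hd : ∀ t, HasDerivAt (fun t => Real.exp (e * Cc φ t + e' * Cc ψ t) * Real.sin ((ψ t - φ t) / 2))
      (-(e' - e) * (Real.exp (e * Cc φ t + e' * Cc ψ t) * Real.sin ((φ t + ψ t) / 2))) t := by
    intro t
    have ha := (((h2 t).sub (h1 t)).div_const 2).sin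
    have hb := (((Cc_deriv hφc t).const_mul e).add ((Cc_deriv hψc t).const_mul e')).exp
    refine (hb.mul ha).congr_deriv ?_
    simp only [Pi.sub_apply, Pi.add_apply]
    have e1 : Real.sin (ψ t) - Real.sin (φ t) =
      2 * Real.sin ((ψ t - φ t) / 2) * Real.cos ((ψ t + φ t) / 2) := Real.sin_sub_sin _ _
    have e2 : Real.cos (ψ t) + Real.cos (φ t) =
      2 * Real.cos ((ψ t + φ t) / 2) * Real.cos ((ψ t - φ t) / 2) := Real.cos_add_cos _ _
    have e3 : Real.sin ((φ t + ψ t) / 2) = Real.sin (ψ t) * Real.cos ((ψ t - φ t) / 2) -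
        Real.cos (ψ t) * Real.sin ((ψ t - φ t) / 2) := by
      rw [← Real.sin_sub]; congr 1; ring
    rw [e3]
    have e4 : Real.cos ((ψ t - φ t) / 2) * (Real.sin (ψ t) - Real.sin (φ t)) =
        Real.sin ((ψ t - φ t) / 2) * (Real.cos (ψ t) + Real.cos (φ t)) := by
      rw [e1, e2]; ring
    linear_combination (-e * Real.exp (e * Cc φ t + e' * Cc ψ t)) * e4
  have hint := intervalIntegral.integral_eq_sub_of_hasDerivAt (a := 0) (b := T)
    (fun t _ => hd t) (Continuous.intervalIntegrable (by fun_prop) _ _)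
  rw [intervalIntegral.integral_const_mul] at hint
  rw [hint, Cc_zero, Cc_zero, h0]
  simp

lemma sin_sign {x : ℝ} (hx : |x| < Real.pi) {c : ℝ} (h : c * Real.sin x < 0) : c * x < 0 := by
  obtain ⟨h1, h2⟩ := abs_lt.1 hx
  rcases lt_trichotomy x 0 with h0 | h0 | h0
  · have h3 := Real.sin_neg_of_neg_of_neg_pi_lt h0 h1
    have hc : 0 < c := by
      by_contra hc
      push Not at hc
      have := mul_nonneg_of_nonpos_of_nonpos hc h3.le
      linarith
    exact mul_neg_of_pos_of_neg hc h0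
  · rw [h0, Real.sin_zero, mul_zero] at h
    exact absurd h (lt_irrefl _)
  · have h3 := Real.sin_pos_of_pos_of_lt_pi h0 h2
    have hc : c < 0 := by
      by_contra hc
      push Not at hc
      have := mul_nonneg hc h3.le
      linarith
    exact mul_neg_of_neg_of_pos hc h0

/-- Strict crossing at a nondegenerate symmetric periodic solution with even defect. -/
theorem cross {n : ℕ} {m : ℤ} {mu e : ℝ} (hmu : 0 < mu) (he : e ≠ 0)
    (h : P (n + 1) (2 * mu) (2 * e) (Real.pi / 2) =
      Real.pi / 2 + 2 * Real.pi * ((1 - n + 2 * m : ℤ) : ℝ))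
    (hne : ¬ ∀ x, P (n + 1) (2 * mu) (2 * e) x = x + 2 * Real.pi * ((1 - n + 2 * m : ℤ) : ℝ)) :
    ∀ᶠ e' in 𝓝 e, e' ≠ e → (e' - e) * e * (al n mu e' - al n mu e) < 0 := by
  have hpos := sin_mean hmu he h hne
  set φ := fl (n + 1) (2 * mu) (2 * e) (Real.pi / 2) with hφd
  have hφ : Sol (n + 1) (2 * mu) (2 * e) φ := fl_sol _ _ _ _
  set J : ℝ → ℝ := fun e' => ∫ t in (0:ℝ)..(2 * Real.pi),
    Real.exp (e * Cc φ t + e' * Cc (fl (n + 1) (2 * mu) (2 * e') (Real.pi / 2)) t) *
      Real.sin ((φ t + fl (n + 1) (2 * mu) (2 * e') (Real.pi / 2) t) / 2) with hJ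
  have hJe : 0 < e * J e := by
    have h1 : ∀ t : ℝ, Real.exp (e * Cc φ t + e * Cc (fl (n + 1) (2 * mu) (2 * e) (Real.pi / 2)) t) *
        Real.sin ((φ t + fl (n + 1) (2 * mu) (2 * e) (Real.pi / 2) t) / 2) =
        Real.sin (φ t) * Real.exp (2 * e * Cc φ t) := by
      intro t
      rw [← hφd, show (φ t + φ t) / 2 = φ t by ring, show e * Cc φ t + e * Cc φ t = 2 * e * Cc φ t by ring]
      ring
    rw [hJ]
    simp only
    simp_rw [h1]
    rw [← intervalIntegral.integral_const_mul]
    have h2 : ∀ t : ℝ, e * (Real.sin (φ t) * Real.exp (2 * e * Cc φ t)) =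
      e * Real.sin (φ t) * Real.exp (2 * e * Cc φ t) := by intro t; ring
    simp_rw [h2]
    rw [← shift_int (f := fun t => e * Real.sin (φ t) * Real.exp (2 * e * Cc φ t))]
    · exact hpos
    · intro t
      have h3 := fl_per h t
      have h4 := (Cc_per h).2 t
      rw [← hφd] at h3 h4
      rw [h3, h4, mul_comm (2 * Real.pi), Real.sin_add_int_mul_two_pi]
  have hJc : ContinuousAt J e := by
    have hCb : ∀ (χ : ℝ → ℝ) (t : ℝ), t ∈ Icc 0 (2 * Real.pi) → |Cc χ t| ≤ 2 * Real.pi := by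
      intro χ t ht
      unfold Cc
      have h1 := intervalIntegral.norm_integral_le_of_norm_le_const (a := 0) (b := t) (C := 1)
        (f := fun s => Real.cos (χ s)) (fun s _ => by rw [Real.norm_eq_abs]; exact Real.abs_cos_le_one _)
      rw [Real.norm_eq_abs, sub_zero, abs_of_nonneg ht.1, one_mul] at h1
      exact h1.trans ht.2
    refine intervalIntegral.continuousAt_of_dominated_interval
      (bound := fun _ => Real.exp (|e| * (2 * Real.pi) + (|e| + 1) * (2 * Real.pi))) ?_ ?_ ?_ ?_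
    · refine Eventually.of_forall fun e' => ?_
      have c1 := hφ.cont
      have c2 := (fl_sol (n + 1) (2 * mu) (2 * e') (Real.pi / 2)).cont
      have c3 : Continuous (Cc φ) := continuous_iff_continuousAt.2 fun t => (Cc_deriv c1 t).continuousAt
      have c4 : Continuous (Cc (fl (n + 1) (2 * mu) (2 * e') (Real.pi / 2))) :=
        continuous_iff_continuousAt.2 fun t => (Cc_deriv c2 t).continuousAt
      exact (by fun_prop : Continuous fun t : ℝ =>
        Real.exp (e * Cc φ t + e' * Cc (fl (n + 1) (2 * mu) (2 * e') (Real.pi / 2)) t) *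
      Real.sin ((φ t + fl (n + 1) (2 * mu) (2 * e') (Real.pi / 2) t) / 2)).aestronglyMeasurable
    · filter_upwards [Metric.ball_mem_nhds e one_pos] with e' he'
      refine Eventually.of_forall fun t ht => ?_
      rw [uIoc_of_le Real.two_pi_pos.le] at ht
      have ht' : t ∈ Icc 0 (2 * Real.pi) := ⟨ht.1.le, ht.2⟩
      rw [norm_mul, Real.norm_eq_abs, Real.norm_eq_abs, Real.abs_exp]
      have h1 : |e'| ≤ |e| + 1 := by
        rw [Metric.mem_ball, Real.dist_eq] at he'
        have := abs_sub_abs_le_abs_sub e' e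
        linarith
      have h2 : e * Cc φ t ≤ |e| * (2 * Real.pi) := by
        refine (le_abs_self _).trans ?_
        rw [abs_mul]
        exact mul_le_mul_of_nonneg_left (hCb φ t ht') (abs_nonneg _)
      have h3 : e' * Cc (fl (n + 1) (2 * mu) (2 * e') (Real.pi / 2)) t ≤ (|e| + 1) * (2 * Real.pi) := by
        refine (le_abs_self _).trans ?_
        rw [abs_mul]
        exact mul_le_mul h1 (hCb _ t ht') (abs_nonneg _) (by positivity)
      calc _ ≤ Real.exp (e * Cc φ t + e' * Cc (fl (n + 1) (2 * mu) (2 * e') (Real.pi / 2)) t) * 1 :=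
            mul_le_mul_of_nonneg_left (Real.abs_sin_le_one _) (Real.exp_pos _).le
        _ ≤ _ := by
          rw [mul_one]
          exact Real.exp_le_exp.2 (by linarith)
    · exact intervalIntegrable_const
    · refine Eventually.of_forall fun t ht => ?_
      rw [uIoc_of_le Real.two_pi_pos.le] at ht
      have ht' : t ∈ Icc 0 (2 * Real.pi) := ⟨ht.1.le, ht.2⟩
      have c1 : Continuous fun e' : ℝ => Cc (fl (n + 1) (2 * mu) (2 * e') (Real.pi / 2)) t :=
        (Cc_cont_eps (n + 1) (2 * mu) (Real.pi / 2) ht').comp (f := fun e' : ℝ => 2 * e') (by fun_prop)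
      have c2 : Continuous fun e' : ℝ => fl (n + 1) (2 * mu) (2 * e') (Real.pi / 2) t :=
        (fl_cont_eps (n + 1) (2 * mu) (Real.pi / 2) ht').comp (f := fun e' : ℝ => 2 * e') (by fun_prop)
      exact (by fun_prop : Continuous fun e' : ℝ =>
        Real.exp (e * Cc φ t + e' * Cc (fl (n + 1) (2 * mu) (2 * e') (Real.pi / 2)) t) *
      Real.sin ((φ t + fl (n + 1) (2 * mu) (2 * e') (Real.pi / 2) t) / 2)).continuousAt
  have hev1 : ∀ᶠ e' in 𝓝 e, 0 < e * J e' := (hJc.const_mul e).eventually (lt_mem_nhds hJe)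
  have hev2 : ∀ᶠ e' in 𝓝 e, |al n mu e' - al n mu e| < Real.pi := by
    have h1 : Continuous fun e' => |al n mu e' - al n mu e| := by
      have := al_cont n mu
      fun_prop
    have h2 := h1.tendsto e
    rw [sub_self, abs_zero] at h2
    exact h2.eventually (gt_mem_nhds Real.pi_pos)
  filter_upwards [hev1, hev2] with e' h1 h2 hee
  have h3 := compare hφ (fl_sol (n + 1) (2 * mu) (2 * e') (Real.pi / 2))
    (by rw [hφd, fl_zero, fl_zero]) (2 * Real.pi)
  have h4 : (fl (n + 1) (2 * mu) (2 * e') (Real.pi / 2) (2 * Real.pi) - φ (2 * Real.pi)) / 2 =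
      al n mu e' - al n mu e := by
    unfold al P; rw [← hφd]; ring
  rw [h4] at h3
  have h5 : (∫ t in (0:ℝ)..(2 * Real.pi),
    Real.exp (e * Cc φ t + e' * Cc (fl (n + 1) (2 * mu) (2 * e') (Real.pi / 2)) t) *
      Real.sin ((φ t + fl (n + 1) (2 * mu) (2 * e') (Real.pi / 2) t) / 2)) = J e' := rfl
  rw [h5] at h3
  set X := Real.exp (e * Cc φ (2 * Real.pi) + e' * Cc (fl (n + 1) (2 * mu) (2 * e') (Real.pi / 2)) (2 * Real.pi))
  have hX : 0 < X := Real.exp_pos _
  refine sin_sign h2 ?_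
  have h6 : 0 < (e' - e) ^ 2 := by
    have : e' - e ≠ 0 := sub_ne_zero.2 hee
    positivity
  have h7 : X * ((e' - e) * e * Real.sin (al n mu e' - al n mu e)) = -((e' - e) ^ 2 * (e * J e')) := by
    linear_combination ((e' - e) * e) * h3
  have h8 : X * ((e' - e) * e * Real.sin (al n mu e' - al n mu e)) < 0 := by
    rw [h7]
    have := mul_pos h6 h1
    linarith
  by_contra hcon
  push Not at hcon
  have := mul_nonneg hX.le hcon
  linarith

end Pool.Agent.V7H91.PL
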