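import Pool.Agent.H1R3.Z.Had

set_option autoImplicit false
open Set Filter Topology Complex Metric

namespace Pool.Agent.V7H91.PL

/-- Normalised product over a multiset. -/
noncomputable def mp (s : Multiset ℂ) (z : ℂ) : ℂ := (s.map fun a => 1 - z / a).prod

lemma mp_zero (z : ℂ) : mp 0 z = 1 := by simp [mp]

lemma mp_cons (a : ℂ) (s : Multiset ℂ) (z : ℂ) : mp (a ::ₘ s) z = (1 - z / a) * mp s z := by
  simp [mp]

lemma mp_at_zero (s : Multiset ℂ) : mp s 0 = 1 := by
  induction s using Multiset.induction_on with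
  | empty => exact mp_zero 0
  | cons a s ih => rw [mp_cons, ih]; simp

lemma mp_ge (s : Multiset ℂ) (R : ℝ) (hS : ∀ a ∈ s, a ≠ 0 ∧ ‖a‖ < R) (z : ℂ) (hz : ‖z‖ = 4 * R) :
    (3:ℝ) ^ s.card ≤ ‖mp s z‖ := by
  induction s using Multiset.induction_on with
  | empty => simp [mp_zero]
  | cons a s ih =>
    rw [mp_cons, norm_mul, Multiset.card_cons, pow_succ, mul_comm]
    obtain ⟨ha0, haR⟩ := hS a (Multiset.mem_cons_self a s)
    have hn : 0 < ‖a‖ := norm_pos_iff.2 ha0
    have h1 : ‖z / a‖ - 1 ≤ ‖1 - z / a‖ := by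
      have := norm_sub_norm_le (z / a) 1
      rw [norm_one] at this
      rw [norm_sub_rev]; exact this
    have h2 : 4 ≤ ‖z / a‖ := by
      rw [norm_div, le_div_iff₀ hn, hz]; linarith
    have h3 := ih (fun b hb => hS b (Multiset.mem_cons_of_mem hb))
    exact mul_le_mul (by linarith) h3 (by positivity) (norm_nonneg _)

lemma quot_bound' (s : Multiset ℂ) (R M : ℝ) (hR : 0 < R) (hS : ∀ a ∈ s, a ≠ 0 ∧ ‖a‖ < R)
    {f h : ℂ → ℂ} (hh : Differentiable ℂ h) (hf : ∀ z, f z = mp s z * h z)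
    (hM : ∀ z, ‖z‖ ≤ 4 * R → ‖f z‖ ≤ M) (z : ℂ) (hz : ‖z‖ ≤ 4 * R) :
    (3:ℝ) ^ s.card * ‖h z‖ ≤ M := by
  have h3 : (0:ℝ) < (3:ℝ) ^ s.card := by positivity
  have key : ‖h z‖ ≤ M / (3:ℝ) ^ s.card := by
    apply Complex.norm_le_of_forall_mem_frontier_norm_le (U := ball (0:ℂ) (4 * R)) isBounded_ball
      hh.diffContOnCl
    · intro w hw
      rw [frontier_ball _ (by positivity), mem_sphere_zero_iff_norm] at hw
      have h1 := mp_ge s R hS w hw
      have h2 := hM w hw.le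
      rw [hf w, norm_mul] at h2
      rw [le_div_iff₀ h3]
      calc ‖h w‖ * (3:ℝ) ^ s.card ≤ ‖h w‖ * ‖mp s w‖ :=
            mul_le_mul_of_nonneg_left h1 (norm_nonneg _)
        _ ≤ M := by rw [mul_comm]; exact h2
    · rw [closure_ball _ (by positivity), mem_closedBall_zero_iff]; exact hz
  rw [le_div_iff₀ h3] at key
  rw [mul_comm]; exact key

/-- Factorisation in a disc. -/
lemma factor_disc {f : ℂ → ℂ} (hf : Differentiable ℂ f) (h0 : f 0 ≠ 0) {R M : ℝ} (hR : 0 < R)
    (hM : ∀ z, ‖z‖ ≤ 4 * R → ‖f z‖ ≤ M) :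
    ∃ (s : Multiset ℂ) (h : ℂ → ℂ), (∀ a ∈ s, a ≠ 0 ∧ ‖a‖ < R ∧ f a = 0) ∧ Differentiable ℂ h ∧
      (∀ z, f z = mp s z * h z) ∧ (∀ z, ‖z‖ < R → h z ≠ 0) ∧ (∀ z, ‖z‖ ≤ 4 * R → ‖h z‖ ≤ M) ∧
      h 0 = f 0 := by
  classical
  let Q : ℕ → Prop := fun n => ∃ (s : Multiset ℂ) (h : ℂ → ℂ), s.card = n ∧
    (∀ a ∈ s, a ≠ 0 ∧ ‖a‖ < R ∧ f a = 0) ∧ Differentiable ℂ h ∧ ∀ z, f z = mp s z * h z
  have hQ0 : Q 0 := ⟨0, f, rfl, by simp, hf, fun z => by rw [mp_zero, one_mul]⟩
  have hbd : ∀ n, Q n → (3:ℝ) ^ n * ‖f 0‖ ≤ M := by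
    rintro n ⟨s, h, rfl, hs, hd, hh⟩
    have h1 := quot_bound' s R M hR (fun a ha => ⟨(hs a ha).1, (hs a ha).2.1⟩) hd hh hM 0
      (by rw [norm_zero]; positivity)
    have h2 := hh 0
    rw [mp_at_zero, one_mul] at h2
    rwa [← h2] at h1
  have hf0 : 0 < ‖f 0‖ := norm_pos_iff.2 h0
  obtain ⟨N, hN⟩ : ∃ N : ℕ, M / ‖f 0‖ < (3:ℝ) ^ N := pow_unbounded_of_one_lt _ (by norm_num)
  have hle : ∀ n, Q n → n ≤ N := by
    intro n hn
    by_contra hcon
    push Not at hcon
    have h1 := hbd n hn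
    have h2 : (3:ℝ) ^ N ≤ (3:ℝ) ^ n := pow_le_pow_right₀ (by norm_num) hcon.le
    rw [div_lt_iff₀ hf0] at hN
    have h3 : (3:ℝ) ^ N * ‖f 0‖ ≤ (3:ℝ) ^ n * ‖f 0‖ := mul_le_mul_of_nonneg_right h2 hf0.le
    linarith
  set m := Nat.findGreatest Q N with hm
  have hQm : Q m := Nat.findGreatest_spec (P := Q) (Nat.zero_le N) hQ0
  obtain ⟨s, h, hcard, hs, hd, hh⟩ := hQm
  have h00 : h 0 = f 0 := by
    have h2 := hh 0
    rw [mp_at_zero, one_mul] at h2
    exact h2.symm
  refine ⟨s, h, hs, hd, hh, ?_, ?_, h00⟩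
  · intro w hw hw0
    have hwne : w ≠ 0 := by
      rintro rfl
      exact h0 (by rw [← h00]; exact hw0)
    obtain ⟨k, hk, hkk⟩ := H1R3.Z.div_one_factor hd hw0
    have hQ1 : Q (m + 1) := by
      refine ⟨w ::ₘ s, fun z => -w * k z, by rw [Multiset.card_cons, hcard], ?_,
        (differentiable_const _).mul hk, ?_⟩
      · intro a ha
        rcases Multiset.mem_cons.1 ha with rfl | ha
        · exact ⟨hwne, hw, by rw [hh, hw0, mul_zero]⟩
        · exact hs a ha
      · intro z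
        rw [mp_cons, hh z, hkk z]
        field_simp
        ring
    have h1 := hle _ hQ1
    have h2 := Nat.le_findGreatest h1 hQ1
    omega
  · intro z hz
    have h1 := quot_bound' s R M hR (fun a ha => ⟨(hs a ha).1, (hs a ha).2.1⟩) hd hh hM z hz
    have h2 : (1:ℝ) ≤ (3:ℝ) ^ s.card := one_le_pow₀ (by norm_num)
    nlinarith [norm_nonneg (h z)]


lemma mp_ne {s : Multiset ℂ} {z : ℂ} (h : ∀ a ∈ s, 1 - z / a ≠ 0) : mp s z ≠ 0 := by
  induction s using Multiset.induction_on with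
  | empty => simp [mp_zero]
  | cons a s ih =>
    rw [mp_cons]
    exact mul_ne_zero (h a (Multiset.mem_cons_self a s))
      (ih fun b hb => h b (Multiset.mem_cons_of_mem hb))

lemma mp_log {s : Multiset ℂ} {x y t u : ℝ} (ht : 0 ≤ t) (hu : 0 ≤ u) (htu : t + u = 1)
    (hxy : t * x + u * y = 0)
    (hs : ∀ a ∈ s, ∃ r : ℝ, a = r ∧ 0 < 1 - x / r ∧ 0 < 1 - y / r) :
    t * Real.log ‖mp s x‖ + u * Real.log ‖mp s y‖ ≤ 0 := by
  induction s using Multiset.induction_on with
  | empty => simp [mp_zero]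
  | cons a s ih =>
    have ih' := ih (fun b hb => hs b (Multiset.mem_cons_of_mem hb))
    obtain ⟨r, rfl, h1, h2⟩ := hs a (Multiset.mem_cons_self _ s)
    have e1 : ‖(1 - (x:ℂ) / (r:ℂ))‖ = 1 - x / r := by
      rw [show (1 - (x:ℂ) / (r:ℂ)) = ((1 - x / r : ℝ) : ℂ) by push_cast; ring, Complex.norm_real,
        Real.norm_of_nonneg h1.le]
    have e2 : ‖(1 - (y:ℂ) / (r:ℂ))‖ = 1 - y / r := by
      rw [show (1 - (y:ℂ) / (r:ℂ)) = ((1 - y / r : ℝ) : ℂ) by push_cast; ring, Complex.norm_real,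
        Real.norm_of_nonneg h2.le]
    have n1 : mp s x ≠ 0 := mp_ne fun b hb => by
      obtain ⟨r', rfl, h1', -⟩ := hs b (Multiset.mem_cons_of_mem hb)
      rw [show (1 - (x:ℂ) / (r':ℂ)) = ((1 - x / r' : ℝ) : ℂ) by push_cast; ring]
      exact_mod_cast h1'.ne'
    have n2 : mp s y ≠ 0 := mp_ne fun b hb => by
      obtain ⟨r', rfl, -, h2'⟩ := hs b (Multiset.mem_cons_of_mem hb)
      rw [show (1 - (y:ℂ) / (r':ℂ)) = ((1 - y / r' : ℝ) : ℂ) by push_cast; ring]
      exact_mod_cast h2'.ne'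
    rw [mp_cons, mp_cons, norm_mul, norm_mul, e1, e2, Real.log_mul h1.ne' (norm_ne_zero_iff.2 n1),
      Real.log_mul h2.ne' (norm_ne_zero_iff.2 n2)]
    have h3 := strictConcaveOn_log_Ioi.concaveOn.2 (x := 1 - x / r) (y := 1 - y / r) h1 h2 ht hu htu
    simp only [smul_eq_mul] at h3
    have h4 : t * (1 - x / r) + u * (1 - y / r) = 1 := by
      have : t * (1 - x / r) + u * (1 - y / r) = (t + u) - (t * x + u * y) / r := by ring
      rw [this, htu, hxy]; simp
    rw [h4, Real.log_one] at h3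
    linarith

/-- An entire function of exponential type with only real zeros has concave `log |f|` on real
intervals free of zeros. -/
theorem log_concave {f : ℂ → ℂ} (hf : Differentiable ℂ f) {A B : ℝ} (hB : 0 ≤ B)
    (hb : ∀ z, ‖f z‖ ≤ Real.exp (A + B * ‖z‖)) (hz : ∀ z, f z = 0 → z.im = 0) {a b : ℝ}
    (hne : ∀ x : ℝ, x ∈ Ioo a b → f x ≠ 0) :
    ConcaveOn ℝ (Ioo a b) (fun x : ℝ => Real.log ‖f x‖) := by
  refine ⟨convex_Ioo a b, ?_⟩
  intro x hx y hy t u ht hu htu
  simp only [smul_eq_mul]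
  set z : ℝ := t * x + u * y with hzd
  have hzI : z ∈ Ioo a b := by
    have := (convex_Ioo a b) hx hy ht hu htu
    simpa only [smul_eq_mul] using this
  set g : ℂ → ℂ := fun w => f (w + z) with hg
  have hgd : Differentiable ℂ g := hf.comp (differentiable_id.add_const _)
  have hg0 : g 0 ≠ 0 := by simp only [hg, zero_add]; exact hne z hzI
  set x' : ℝ := x - z with hx'
  set y' : ℝ := y - z with hy'
  have hsum : t * x' + u * y' = 0 := by
    rw [hx', hy']
    have : t * (x - z) + u * (y - z) = (t * x + u * y) - (t + u) * z := by ring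
    rw [this, htu, ← hzd]; ring
  have egx : g x' = f x := by simp only [hg, hx']; congr 1; push_cast; ring
  have egy : g y' = f y := by simp only [hg, hy']; congr 1; push_cast; ring
  have eg0 : g 0 = f z := by simp only [hg, zero_add]
  rw [← egx, ← egy, ← eg0]
  set D : ℝ := |x'| + |y'| with hD
  set K : ℝ := |A| + B * |z| + |Real.log ‖g 0‖| + 1 with hK
  have hK0 : 0 < K := by positivity
  have main : ∀ R : ℝ, 2 * D + 1 < R →
      t * Real.log ‖g x'‖ + u * Real.log ‖g y'‖ - Real.log ‖g 0‖ ≤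
        16 * (K + 4 * B * R) * (D / R) ^ 2 := by
    intro R hR
    have hD0 : 0 ≤ D := by positivity
    have hR0 : 0 < R := by linarith
    obtain ⟨s, h, hs, hd, hh, hhne, hhb, h00⟩ := factor_disc hgd hg0 hR0
      (M := Real.exp (A + B * (4 * R + |z|))) (by
        intro w hw
        refine (hb _).trans (Real.exp_le_exp.2 ?_)
        have h1 : ‖w + (z:ℂ)‖ ≤ 4 * R + |z| := by
          refine (norm_add_le _ _).trans ?_
          rw [Complex.norm_real, Real.norm_eq_abs]
          linarith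
        have := mul_le_mul_of_nonneg_left h1 hB
        linarith)
    set M : ℝ := K + 4 * B * R with hM
    have hM0 : 0 < M := by positivity
    have hh0 : h 0 ≠ 0 := by rw [h00]; exact hg0
    obtain ⟨τ, -, hτ, -⟩ := H1R3.Z.log_bounds (h := h) hR0 hM0 hd hhne (by
      intro w hw
      refine (hhb w (by linarith)).trans ?_
      have hpos : 0 < ‖h 0‖ := norm_pos_iff.2 hh0
      rw [← Real.exp_log hpos, ← Real.exp_add, Real.exp_le_exp, h00, hM, hK]
      have h1 := neg_abs_le (Real.log ‖g 0‖)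
      have h2 := le_abs_self A
      nlinarith)
    have hr : ∀ a' ∈ s, ∃ r : ℝ, a' = r ∧ 0 < 1 - x' / r ∧ 0 < 1 - y' / r := by
      intro a' ha'
      obtain ⟨ha0, -, haf⟩ := hs a' ha'
      have him : a'.im = 0 := by
        have := hz _ haf
        simpa using this
      have har : a' = ((a'.re : ℝ) : ℂ) := by
        apply Complex.ext
        · simp
        · simp [him]
      set r := a'.re with hrd
      have hr0 : r ≠ 0 := by
        intro h; apply ha0; rw [har, h]; simp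
      refine ⟨r, har, ?_⟩
      -- root is r + z
      have hroot : r + z ∉ Ioo a b := by
        intro hmem
        apply hne _ hmem
        rw [har] at haf
        simp only [hg] at haf
        push_cast
        exact haf
      rcases lt_or_gt_of_ne hr0 with hneg | hpos
      · have h1 : r + z ≤ a := by
          by_contra hcon
          push Not at hcon
          exact hroot ⟨hcon, by linarith [hzI.2]⟩
        constructor
        · rw [sub_pos, div_lt_one_of_neg hneg]; rw [hx']; linarith [hx.1]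
        · rw [sub_pos, div_lt_one_of_neg hneg]; rw [hy']; linarith [hy.1]
      · have h1 : b ≤ r + z := by
          by_contra hcon
          push Not at hcon
          exact hroot ⟨by linarith [hzI.1], hcon⟩
        constructor
        · rw [sub_pos, div_lt_one hpos]; rw [hx']; linarith [hx.2]
        · rw [sub_pos, div_lt_one hpos]; rw [hy']; linarith [hy.2]
    have hmp := mp_log ht hu htu hsum hr
    have nx : mp s x' ≠ 0 := mp_ne fun b' hb' => by
      obtain ⟨r', rfl, h1', -⟩ := hr b' hb'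
      rw [show (1 - (x':ℂ) / (r':ℂ)) = ((1 - x' / r' : ℝ) : ℂ) by push_cast; ring]
      exact_mod_cast h1'.ne'
    have ny : mp s y' ≠ 0 := mp_ne fun b' hb' => by
      obtain ⟨r', rfl, -, h2'⟩ := hr b' hb'
      rw [show (1 - (y':ℂ) / (r':ℂ)) = ((1 - y' / r' : ℝ) : ℂ) by push_cast; ring]
      exact_mod_cast h2'.ne'
    have bx : ‖(x' : ℂ)‖ < R / 2 := by
      rw [Complex.norm_real, Real.norm_eq_abs]
      have := abs_nonneg y'
      linarith
    have by' : ‖(y' : ℂ)‖ < R / 2 := by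
      rw [Complex.norm_real, Real.norm_eq_abs]
      have := abs_nonneg x'
      linarith
    have hx1 := (abs_le.1 (hτ x' bx)).2
    have hy1 := (abs_le.1 (hτ y' by')).2
    rw [hh x', hh y', norm_mul, norm_mul, Real.log_mul (norm_ne_zero_iff.2 nx)
      (norm_ne_zero_iff.2 (hhne _ (by linarith))), Real.log_mul (norm_ne_zero_iff.2 ny)
      (norm_ne_zero_iff.2 (hhne _ (by linarith))), ← h00]
    have hlin : t * (τ * (x':ℂ)).re + u * (τ * (y':ℂ)).re = 0 := by
      have : t * (τ * (x':ℂ)).re + u * (τ * (y':ℂ)).re = τ.re * (t * x' + u * y') := by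
        simp; ring
      rw [this, hsum, mul_zero]
    have q1 : (‖(x':ℂ)‖ / R) ^ 2 ≤ (D / R) ^ 2 := by
      rw [Complex.norm_real, Real.norm_eq_abs]
      have := abs_nonneg y'
      gcongr
      linarith
    have q2 : (‖(y':ℂ)‖ / R) ^ 2 ≤ (D / R) ^ 2 := by
      rw [Complex.norm_real, Real.norm_eq_abs]
      have := abs_nonneg x'
      gcongr
      linarith
    have r1 : 16 * M * (‖(x':ℂ)‖ / R) ^ 2 ≤ 16 * M * (D / R) ^ 2 :=
      mul_le_mul_of_nonneg_left q1 (by positivity)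
    have r2 : 16 * M * (‖(y':ℂ)‖ / R) ^ 2 ≤ 16 * M * (D / R) ^ 2 :=
      mul_le_mul_of_nonneg_left q2 (by positivity)
    have s1 := mul_le_mul_of_nonneg_left (hx1.trans r1) ht
    have s2 := mul_le_mul_of_nonneg_left (hy1.trans r2) hu
    have e3 : t * Real.log ‖h 0‖ + u * Real.log ‖h 0‖ = Real.log ‖h 0‖ := by
      rw [← add_mul, htu, one_mul]
    have e4 : t * (16 * M * (D / R) ^ 2) + u * (16 * M * (D / R) ^ 2) = 16 * M * (D / R) ^ 2 := by
      rw [← add_mul, htu, one_mul]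
    nlinarith [s1, s2, e3, e4, hlin, hmp]
  have hlim : Tendsto (fun R : ℝ => 16 * (K + 4 * B * R) * (D / R) ^ 2) atTop (𝓝 0) := by
    have h1 : Tendsto (fun R : ℝ => 16 * K * D ^ 2 * (R⁻¹ * R⁻¹) + 64 * B * D ^ 2 * R⁻¹) atTop
        (𝓝 (16 * K * D ^ 2 * (0 * 0) + 64 * B * D ^ 2 * 0)) :=
      ((tendsto_inv_atTop_zero.mul tendsto_inv_atTop_zero).const_mul _).add
        (tendsto_inv_atTop_zero.const_mul _)
    simp only [mul_zero, add_zero] at h1
    refine h1.congr' ?_
    filter_upwards [eventually_gt_atTop (0:ℝ)] with R hR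
    field_simp
    ring
  have := ge_of_tendsto hlim (by
    filter_upwards [eventually_gt_atTop (2 * D + 1)] with R hR
    exact main R hR)
  linarith

end Pool.Agent.V7H91.PL
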