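import Pool.Agent.V7H91.PL.De
import Pool.Agent.V7H91.PL.LP

set_option autoImplicit false
open Set Filter Topology

namespace Pool.Agent.V7H91.PL
open H535R3

/-- No locking with a negative number on the axis. -/
lemma no_neg_lock {n : ℕ} {r : ℤ} {a ε : ℝ} (ha : 0 ≤ a) (hε : 0 < ε) (hr : r < 0) :
    (((n:ℝ) + 1, a) : ℝ × ℝ) ∉ Ls r ε := by
  intro h
  have h1 := Ls_neg h
  obtain ⟨k, hk⟩ : ∃ k : ℕ, -r = k := ⟨(-r).toNat, by omega⟩
  rw [hk] at h1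
  obtain ⟨x, hx⟩ := h1
  have h2 := strictly_right hε (r := k) (by omega) (b := -((n:ℝ) + 1)) (a := a) ha
    ⟨x, by exact_mod_cast hx⟩
  have h3 : (1:ℝ) ≤ k := by exact_mod_cast (by omega : 1 ≤ k)
  have h4 : (0:ℝ) ≤ n := n.cast_nonneg
  linarith

/-- Exclusion of identity monodromy away from the axis number. -/
lemma no_ident_pos {n : ℕ} {r : ℤ} {a ε : ℝ} (ha : 0 < a) (hε : 0 < ε) (hr : r ≠ n + 1) :
    ¬ ∀ x, P (n + 1) a ε x = x + 2 * Real.pi * (r : ℝ) := by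
  intro hall
  have hmem : (((n:ℝ) + 1, a) : ℝ × ℝ) ∈ Ls r ε := ⟨0, hall 0⟩
  rcases lt_trichotomy r 0 with h | h | h
  · exact no_neg_lock ha.le hε h hmem
  · subst h
    have h1 := slice_of_rot hall
    have h2 := Ls_neg hmem
    rw [neg_zero] at h2
    have h3 : ((-((n:ℝ) + 1), a) : ℝ × ℝ) ∈ {q : ℝ × ℝ | q ∈ Ls 0 ε ∧ q.2 = a} := ⟨h2, rfl⟩
    rw [h1, mem_singleton_iff, Prod.mk.injEq] at h3
    have h4 : (0:ℝ) ≤ n := n.cast_nonneg
    linarith [h3.1]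
  · obtain ⟨k, rfl⟩ : ∃ k : ℕ, r = k := ⟨r.toNat, by omega⟩
    have h1 := ident_axis (b := (n:ℝ) + 1) (r := k) (by omega) hε ha (by exact_mod_cast hall)
    apply hr
    have h2 : ((n + 1 : ℕ) : ℝ) = (k : ℝ) := by push_cast; exact h1
    have h3 : n + 1 = k := by exact_mod_cast h2
    omega

lemma no_ident {n : ℕ} {r : ℤ} {mu e : ℝ} (hmu : 0 < mu) (he : e ≠ 0) (hr : r ≠ n + 1) :
    ¬ ∀ x, P (n + 1) (2 * mu) (2 * e) x = x + 2 * Real.pi * (r : ℝ) := by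
  rcases lt_or_gt_of_ne he with h | h
  · intro hall
    refine no_ident_pos (n := n) (r := r) (a := 2 * mu) (ε := 2 * -e) (by positivity) (by linarith) hr ?_
    intro x
    have h1 := (P_neg (n + 1) (2 * mu) (2 * -e) x).1
    rw [show -(2 * -e) = 2 * e by ring, hall] at h1
    rw [h1]; ring
  · exact no_ident_pos (by positivity) (by positivity) hr

lemma lock_al {n : ℕ} {mu e : ℝ} {i : ℤ} (h : al n mu e = -(Real.pi * i)) :
    P (n + 1) (2 * mu) (2 * e) (Real.pi / 2) =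
      Real.pi / 2 + 2 * Real.pi * (((n:ℤ) + 1 - i : ℤ) : ℝ) := by
  rw [P_al, h]; push_cast; ring

lemma lock_al_neg {n : ℕ} {mu e : ℝ} {i : ℤ} (h : al n mu (-e) = -(Real.pi * i)) :
    P (n + 1) (2 * mu) (2 * e) (-(Real.pi / 2)) =
      -(Real.pi / 2) + 2 * Real.pi * (((n:ℤ) + 1 - i : ℤ) : ℝ) := by
  rw [P_al_neg, h]; push_cast; ring

lemma Wt_lock {n : ℕ} {mu e : ℝ} {i : ℤ} (h : al n mu e = -(Real.pi * i)) : Wt n mu e = 1 := by
  rw [Wt, Kx_sym (lock_al h), Real.exp_zero]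

lemma cos_neg_int (i : ℤ) : Real.cos (-(Real.pi * i)) = (-1) ^ i := by
  rw [Real.cos_neg, mul_comm, Real.cos_int_mul_pi]

lemma Dr_lock {n : ℕ} {mu e : ℝ} {i : ℤ} (h : al n mu e = -(Real.pi * i)) : Dr n mu e = 2 * (-1) ^ i := by
  rw [Dr, Wt_lock h, h, cos_neg_int, one_mul]

/-- Both angles at the same level force identity monodromy. -/
lemma both_ident {n : ℕ} {mu e : ℝ} {i : ℤ} (h : al n mu e = -(Real.pi * i))
    (h' : al n mu (-e) = -(Real.pi * i)) (x : ℝ) :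
    P (n + 1) (2 * mu) (2 * e) x = x + 2 * Real.pi * (((n:ℤ) + 1 - i : ℤ) : ℝ) := by
  have h1 := lock_al h
  have h2 := lock_al_neg h'
  have hsin : Real.sin ((-(Real.pi / 2) - Real.pi / 2) / 2) ≠ 0 := by
    rw [show (-(Real.pi / 2) - Real.pi / 2) / 2 = -(Real.pi / 2) by ring, Real.sin_neg,
      Real.sin_pi_div_two]
    norm_num
  rcases dich h1 h2 hsin with ⟨h9, -⟩ | ⟨h9, -⟩
  · exact h9 x
  · exact absurd (Kx_sym h1) h9

/-- Conversely. -/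
lemma ident_al {n : ℕ} {mu e : ℝ} {i : ℤ}
    (h : ∀ x, P (n + 1) (2 * mu) (2 * e) x = x + 2 * Real.pi * (((n:ℤ) + 1 - i : ℤ) : ℝ)) :
    al n mu e = -(Real.pi * i) ∧ al n mu (-e) = -(Real.pi * i) := by
  have h1 := h (Real.pi / 2)
  have h2 := h (-(Real.pi / 2))
  rw [P_al] at h1
  rw [P_al_neg] at h2
  push_cast at h1 h2
  constructor <;> linarith

/-- Even levels are crossed strictly, in the form used below. -/
lemma cross_even {n : ℕ} {mu e : ℝ} {i : ℤ} (hmu : 0 < mu) (he : e ≠ 0) (hi : Even i)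
    (h : al n mu e = -(Real.pi * i)) (hne : al n mu (-e) ≠ -(Real.pi * i)) :
    ∀ᶠ e' in 𝓝 e, e' ≠ e → (e' - e) * e * (al n mu e' - al n mu e) < 0 := by
  obtain ⟨k, hk⟩ := hi
  have e1 : ((n:ℤ) + 1 - i) = 1 - n + 2 * (n - k) := by rw [hk]; ring
  have h1 := lock_al h
  rw [e1] at h1
  refine cross (m := n - k) hmu he h1 ?_
  intro hall
  rw [← e1] at hall
  exact hne (ident_al hall).2

/-- Locked points have large trace. -/
lemma lock_trace {n : ℕ} {mu e x : ℝ} (he : e ≠ 0)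
    (h : P (n + 1) (2 * mu) (2 * e) x = x + 2 * Real.pi * ((n + 1 : ℤ) : ℝ)) : 2 ≤ Dr n mu e := by
  obtain ⟨κ, h1, -, h2⟩ := lock_eig (k := 0) (n := n) (mu := mu) (e := e) (x := x) (by rw [h]; push_cast; ring)
  rw [Dl_eq he] at h2
  have h3 : Dr n mu e = κ + κ⁻¹ := by
    have := Complex.ofReal_inj.1 h2
    rw [this]; simp
  rw [h3]
  have h4 : κ * κ⁻¹ = 1 := mul_inv_cancel₀ h1.ne'
  have h5 : 0 < κ⁻¹ := inv_pos.2 h1
  nlinarith [sq_nonneg (κ - κ⁻¹), sq_nonneg (κ - 1)]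

lemma Dl_pos_eq {n : ℕ} {mu e s : ℝ} (he : 0 < e) (hs : s = 1 ∨ s = -1) :
    Dl n (((e ^ 2 : ℝ) : ℂ)) mu = (Dr n mu (s * e) : ℂ) := by
  rcases hs with rfl | rfl
  · rw [one_mul, ← Dl_eq he.ne', Complex.ofReal_pow]
  · rw [neg_one_mul, Dr_neg, ← Dl_eq he.ne', Complex.ofReal_pow]

/-- Concavity of the logarithm of the discriminant on intervals free of zeros. -/
lemma conc {n : ℕ} {mu s p q : ℝ} (hs : s = 1 ∨ s = -1) (hp : 0 ≤ p) (hpq : p < q)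
    (hne : ∀ e ∈ Ioo p q, Dr n mu (s * e) ≠ 2) :
    ConcaveOn ℝ (Ioo (p ^ 2) (q ^ 2)) (fun x : ℝ => Real.log ‖Dl n (x : ℂ) mu - 2‖) := by
  obtain ⟨A, B, hB, hb⟩ := Dl_bound n (mu : ℂ)
  refine log_concave (f := fun z => Dl n z mu - 2) ((Dl_diff_lam n mu).sub_const 2) hB hb
    (fun z hz => zeros_real hz) ?_
  intro x hx h0
  have hx0 : 0 < x := lt_of_le_of_lt (sq_nonneg p) hx.1
  have hsq : Real.sqrt x ^ 2 = x := Real.sq_sqrt hx0.le
  have hsp : 0 < Real.sqrt x := Real.sqrt_pos.2 hx0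
  have h1 : p < Real.sqrt x := by
    rw [← hsq] at hx
    exact lt_of_pow_lt_pow_left₀ 2 hsp.le hx.1
  have hq : Real.sqrt x < q := by
    rw [← hsq] at hx
    exact lt_of_pow_lt_pow_left₀ 2 (hp.trans hpq.le) hx.2
  apply hne _ ⟨h1, hq⟩
  have h2 := Dl_pos_eq (n := n) (mu := mu) hsp hs
  rw [hsq] at h2
  rw [h2] at h0
  have h3 : ((Dr n mu (s * Real.sqrt x) - 2 : ℝ) : ℂ) = 0 := by push_cast; exact h0
  have h4 := Complex.ofReal_eq_zero.1 h3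
  linarith

end Pool.Agent.V7H91.PL
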