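import Mathlib

set_option autoImplicit false
open Set Filter Topology

namespace Pool.Agent.V7H91.PL

lemma ivt_lt {f : ℝ → ℝ} (hf : Continuous f) {a b c h : ℝ} (hc : c ∈ Ioo a b) (h1 : f c < h)
    (hne : ∀ x ∈ Ioo a b, f x ≠ h) : ∀ x ∈ Ioo a b, f x < h := by
  intro x hx
  by_contra hcon
  push Not at hcon
  have hsub : uIcc c x ⊆ Ioo a b := (ordConnected_Ioo).uIcc_subset hc hx
  obtain ⟨y, hy1, hy2⟩ := intermediate_value_uIcc (a := c) (b := x) hf.continuousOn
    (show h ∈ uIcc (f c) (f x) from ⟨(min_le_left _ _).trans h1.le, hcon.trans (le_max_right _ _)⟩)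
  exact hne y (hsub hy1) hy2

lemma ivt_gt {f : ℝ → ℝ} (hf : Continuous f) {a b c h : ℝ} (hc : c ∈ Ioo a b) (h1 : h < f c)
    (hne : ∀ x ∈ Ioo a b, f x ≠ h) : ∀ x ∈ Ioo a b, h < f x := by
  intro x hx
  have := ivt_lt (f := fun x => -f x) hf.neg (h := -h) hc (by linarith)
    (fun x hx h0 => hne x hx (by linarith)) x hx
  linarith

lemma conc_left {g : ℝ → ℝ} {S : Set ℝ} (hg : ConcaveOn ℝ S g) {x y z c : ℝ} (hx : x ∈ S) (hz : z ∈ S)
    (hxy : x < y) (hyz : y < z) (h1 : c < g x) (h2 : c ≤ g z) : c < g y := by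
  have hxz : 0 < z - x := by linarith
  have ha : 0 ≤ (z - y) / (z - x) := div_nonneg (by linarith) hxz.le
  have hb : 0 ≤ (y - x) / (z - x) := div_nonneg (by linarith) hxz.le
  have hab : (z - y) / (z - x) + (y - x) / (z - x) = 1 := by field_simp; ring
  have h3 := hg.2 hx hz ha hb hab
  simp only [smul_eq_mul] at h3
  have h4 : (z - y) / (z - x) * x + (y - x) / (z - x) * z = y := by field_simp; ring
  rw [h4] at h3
  have h5 : (z - y) / (z - x) * c < (z - y) / (z - x) * g x :=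
    mul_lt_mul_of_pos_left h1 (div_pos (by linarith) hxz)
  have h6 : (y - x) / (z - x) * c ≤ (y - x) / (z - x) * g z :=
    mul_le_mul_of_nonneg_left h2 (div_nonneg (by linarith) hxz.le)
  have h7 : (z - y) / (z - x) * c + (y - x) / (z - x) * c = c := by field_simp; ring
  linarith

lemma conc_right {g : ℝ → ℝ} {S : Set ℝ} (hg : ConcaveOn ℝ S g) {x y z c : ℝ} (hx : x ∈ S) (hz : z ∈ S)
    (hxy : x < y) (hyz : y < z) (h1 : c ≤ g x) (h2 : c < g z) : c < g y := by
  have hxz : 0 < z - x := by linarith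
  have ha : 0 ≤ (z - y) / (z - x) := div_nonneg (by linarith) hxz.le
  have hb : 0 ≤ (y - x) / (z - x) := div_nonneg (by linarith) hxz.le
  have hab : (z - y) / (z - x) + (y - x) / (z - x) = 1 := by field_simp; ring
  have h3 := hg.2 hx hz ha hb hab
  simp only [smul_eq_mul] at h3
  have h4 : (z - y) / (z - x) * x + (y - x) / (z - x) * z = y := by field_simp; ring
  rw [h4] at h3
  have h5 : (z - y) / (z - x) * c ≤ (z - y) / (z - x) * g x :=
    mul_le_mul_of_nonneg_left h1 (div_nonneg (by linarith) hxz.le)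
  have h6 : (y - x) / (z - x) * c < (y - x) / (z - x) * g z :=
    mul_lt_mul_of_pos_left h2 (div_pos (by linarith) hxz)
  have h7 : (z - y) / (z - x) * c + (y - x) / (z - x) * c = c := by field_simp; ring
  linarith

/-- Sign of a product of sines. -/
lemma sin_sin_pos {x y : ℝ} (hx : |x| < Real.pi) (hy : |y| < Real.pi)
    (h : 0 < Real.sin x * Real.sin y) : 0 < x * y := by
  obtain ⟨x1, x2⟩ := abs_lt.1 hx
  obtain ⟨y1, y2⟩ := abs_lt.1 hy
  rcases lt_trichotomy x 0 with hx0 | hx0 | hx0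
  · have h1 := Real.sin_neg_of_neg_of_neg_pi_lt hx0 x1
    rcases lt_trichotomy y 0 with hy0 | hy0 | hy0
    · exact mul_pos_of_neg_of_neg hx0 hy0
    · rw [hy0, Real.sin_zero, mul_zero] at h; exact absurd h (lt_irrefl _)
    · have h2 := Real.sin_pos_of_pos_of_lt_pi hy0 y2
      have := mul_neg_of_neg_of_pos h1 h2
      linarith
  · rw [hx0, Real.sin_zero, zero_mul] at h; exact absurd h (lt_irrefl _)
  · have h1 := Real.sin_pos_of_pos_of_lt_pi hx0 x2
    rcases lt_trichotomy y 0 with hy0 | hy0 | hy0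
    · have h2 := Real.sin_neg_of_neg_of_neg_pi_lt hy0 y1
      have := mul_neg_of_pos_of_neg h1 h2
      linarith
    · rw [hy0, Real.sin_zero, mul_zero] at h; exact absurd h (lt_irrefl _)
    · exact mul_pos hx0 hy0

lemma sin_sin_neg {x y : ℝ} (hx : |x| < Real.pi) (hy : |y| < Real.pi)
    (h : Real.sin x * Real.sin y < 0) : x * y < 0 := by
  have := sin_sin_pos (x := -x) (y := y) (by rwa [abs_neg]) hy (by rw [Real.sin_neg]; linarith)
  linarith

lemma sin_sin_neg' {x y : ℝ} (hx : |x| < Real.pi) (hy : |y| < Real.pi)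
    (h : x * y < 0) : Real.sin x * Real.sin y < 0 := by
  obtain ⟨x1, x2⟩ := abs_lt.1 hx
  obtain ⟨y1, y2⟩ := abs_lt.1 hy
  rcases mul_neg_iff.1 h with ⟨h1, h2⟩ | ⟨h1, h2⟩
  · exact mul_neg_of_pos_of_neg (Real.sin_pos_of_pos_of_lt_pi h1 x2) (Real.sin_neg_of_neg_of_neg_pi_lt h2 y1)
  · exact mul_neg_of_neg_of_pos (Real.sin_neg_of_neg_of_neg_pi_lt h1 x1) (Real.sin_pos_of_pos_of_lt_pi h2 y2)

/-- The data used in the global argument. -/
structure Env (N : ℕ) (A B D g : ℝ → ℝ) : Prop where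
  cA : Continuous A
  cB : Continuous B
  cD : Continuous D
  A0 : A 0 = 0
  B0 : B 0 = 0
  diff : ∀ e, |A e - B e| < Real.pi / 2
  wA : ∀ e, ∃ w > 0, D e = w * Real.cos (A e)
  wB : ∀ e, ∃ w > 0, D e = w * Real.cos (B e)
  prod : ∀ e, ∃ w > 0, w * (Real.sin (A e) * Real.sin (B e)) = 4 - D e ^ 2
  lA : ∀ e, ∀ i : ℤ, A e = -(Real.pi * i) → D e = 2 * (-1) ^ i
  lB : ∀ e, ∀ i : ℤ, B e = -(Real.pi * i) → D e = 2 * (-1) ^ i
  nid : ∀ e, 0 < e → ∀ i : ℤ, i ≠ 0 → A e = -(Real.pi * i) → B e ≠ -(Real.pi * i)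
  crA : ∀ e, 0 < e → ∀ i : ℤ, Even i → A e = -(Real.pi * i) → B e ≠ -(Real.pi * i) →
    ∀ᶠ e' in 𝓝 e, e' ≠ e → (e' - e) * (A e' - A e) < 0
  crB : ∀ e, 0 < e → ∀ i : ℤ, Even i → B e = -(Real.pi * i) → A e ≠ -(Real.pi * i) →
    ∀ᶠ e' in 𝓝 e, e' ≠ e → (e' - e) * (B e' - B e) < 0
  conc : ∀ p q, 0 ≤ p → p < q → (∀ e ∈ Ioo p q, D e ≠ 2) → ConcaveOn ℝ (Ioo (p ^ 2) (q ^ 2)) g
  gD : ∀ e, 0 < e → g (e ^ 2) = Real.log |D e - 2|
  zA : ∀ e, 0 < e → A e = 0 → ∀ e', 0 < e' → e' ≤ e → 2 ≤ D e'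
  zB : ∀ e, 0 < e → B e = 0 → ∀ e', 0 < e' → e' ≤ e → 2 ≤ D e'
  far : ∃ M, ∀ e, M ≤ e → A e < -(Real.pi * N) ∨ B e < -(Real.pi * N)

lemma Env.swap {N : ℕ} {A B D g : ℝ → ℝ} (h : Env N A B D g) : Env N B A D g where
  cA := h.cB
  cB := h.cA
  cD := h.cD
  A0 := h.B0
  B0 := h.A0
  diff e := by rw [abs_sub_comm]; exact h.diff e
  wA := h.wB
  wB := h.wA
  prod e := by
    obtain ⟨w, hw, h1⟩ := h.prod e
    exact ⟨w, hw, by rw [mul_comm (Real.sin (B e))]; exact h1⟩
  lA := h.lB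
  lB := h.lA
  nid e he i hi h1 h2 := h.nid e he i hi h2 h1
  crA := h.crB
  crB := h.crA
  conc := h.conc
  gD := h.gD
  zA := h.zB
  zB := h.zA
  far := by
    obtain ⟨M, hM⟩ := h.far
    exact ⟨M, fun e he => (hM e he).symm⟩

section
variable {N : ℕ} {A B D g : ℝ → ℝ}

/-- Confinement between consecutive even levels. -/
lemma Env.confine (h : Env N A B D g) {i : ℤ} (hi : Odd i) {ea e1 eb : ℝ} (he : e1 ∈ Ioo ea eb)
    (hD : ∀ e ∈ Ioo ea eb, D e ≠ 2) (h1 : |A e1 - -(Real.pi * i)| < Real.pi) :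
    ∀ e ∈ Ioo ea eb, |A e - -(Real.pi * i)| < Real.pi := by
  obtain ⟨h2, h3⟩ := abs_lt.1 h1
  obtain ⟨k, hk⟩ := hi
  have e1' : Even (i - 1) := ⟨k, by omega⟩
  have e2' : Even (i + 1) := ⟨k + 1, by omega⟩
  have hu := ivt_lt h.cA (h := -(Real.pi * ((i - 1 : ℤ) : ℝ))) he (by push_cast; linarith)
    (fun x hx h0 => hD x hx (by rw [h.lA x _ h0, e1'.neg_one_zpow]; norm_num))
  have hl := ivt_gt h.cA (h := -(Real.pi * ((i + 1 : ℤ) : ℝ))) he (by push_cast; linarith)
    (fun x hx h0 => hD x hx (by rw [h.lA x _ h0, e2'.neg_one_zpow]; norm_num))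
  intro e hee
  have h4 := hu e hee
  have h5 := hl e hee
  push_cast at h4 h5
  rw [abs_lt]
  constructor <;> linarith

lemma Env.closed_confine (h : Env N A B D g) {i : ℤ} {ea eb : ℝ} (hab : ea < eb)
    (hc : ∀ e ∈ Ioo ea eb, |A e - -(Real.pi * i)| < Real.pi) :
    ∀ e ∈ Icc ea eb, |A e - -(Real.pi * i)| ≤ Real.pi := by
  intro e he
  rw [← closure_Ioo hab.ne] at he
  have hcl : IsClosed {e | |A e - -(Real.pi * i)| ≤ Real.pi} :=
    isClosed_le (by have := h.cA; fun_prop) continuous_const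
  exact closure_minimal (fun e he => (hc e he).le) hcl he

/-- Zeros of the sine at a point with `D = 2`. -/
lemma Env.level (h : Env N A B D g) {i : ℤ} (hi : Odd i) {e : ℝ} (hD : D e = 2)
    (hs : Real.sin (A e) = 0) (hc : |A e - -(Real.pi * i)| ≤ Real.pi) :
    A e = -(Real.pi * ((i - 1 : ℤ) : ℝ)) ∨ A e = -(Real.pi * ((i + 1 : ℤ) : ℝ)) := by
  obtain ⟨k, hk⟩ := Real.sin_eq_zero_iff.1 hs
  obtain ⟨w, hw, h1⟩ := h.wA e
  rw [hD, ← hk, Real.cos_int_mul_pi] at h1
  have hev : Even k := by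
    rcases Int.even_or_odd k with h2 | h2
    · exact h2
    · rw [h2.neg_one_zpow] at h1; linarith
  rw [← hk] at hc
  obtain ⟨h2, h3⟩ := abs_le.1 hc
  have hpi := Real.pi_pos
  have h4 : -1 ≤ (k:ℝ) + i := by
    by_contra hcon
    push Not at hcon
    nlinarith
  have h5 : (k:ℝ) + i ≤ 1 := by
    by_contra hcon
    push Not at hcon
    nlinarith
  have h6 : -1 ≤ k + i := by exact_mod_cast h4
  have h7 : k + i ≤ 1 := by exact_mod_cast h5
  obtain ⟨a, ha⟩ := hev
  obtain ⟨b, hb⟩ := hi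
  rw [← hk]
  rcases (by omega : k = -(i - 1) ∨ k = -(i + 1)) with h8 | h8
  · left; rw [h8]; push_cast; ring
  · right; rw [h8]; push_cast; ring

/-- The left end. -/
lemma Env.left_end (h : Env N A B D g) {i : ℤ} (hi : Odd i) (h1 : 1 ≤ i) {ea eb : ℝ} (h0 : 0 ≤ ea)
    (hab : ea < eb) (hc : ∀ e ∈ Ioo ea eb, |A e - -(Real.pi * i)| < Real.pi)
    (hD : D ea = 2) (hs : Real.sin (A ea) = 0) : -(Real.pi * i) < A ea := by
  have hpi := Real.pi_pos
  rcases h.level hi hD hs (h.closed_confine hab hc ea ⟨le_rfl, hab.le⟩) with h2 | h2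
  · rw [h2]; push_cast; linarith
  · exfalso
    have h1' : (1:ℝ) ≤ i := by exact_mod_cast h1
    rcases h0.lt_or_eq with h3 | h3
    · obtain ⟨k, hk⟩ := hi
      have hne := h.nid ea h3 (i + 1) (by omega) h2
      have hev := h.crA ea h3 (i + 1) ⟨k + 1, by omega⟩ h2 hne
      have hev2 : ∀ᶠ e' in 𝓝[>] ea, e' ≠ ea → (e' - ea) * (A e' - A ea) < 0 :=
        hev.filter_mono nhdsWithin_le_nhds
      obtain ⟨e', h4, h5⟩ := (hev2.and (Ioo_mem_nhdsGT hab)).exists
      have h6 := h4 (ne_of_gt h5.1)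
      have h7 : A e' - A ea < 0 := by
        by_contra hcon
        push Not at hcon
        have := mul_nonneg (sub_nonneg.2 h5.1.le) hcon
        linarith
      have h8 := (abs_lt.1 (hc e' h5)).1
      rw [h2] at h7
      push_cast at h7
      linarith
    · rw [← h3, h.A0] at h2
      push_cast at h2
      nlinarith

/-- The right end. -/
lemma Env.right_end (h : Env N A B D g) {i : ℤ} (hi : Odd i) {ea e1 eb : ℝ} (h0 : 0 ≤ ea)
    (he : e1 ∈ Ioo ea eb) (hc : ∀ e ∈ Ioo ea eb, |A e - -(Real.pi * i)| < Real.pi)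
    (hD1 : D e1 < 2)
    (hD : D eb = 2) (hs : Real.sin (A eb) = 0) : A eb < -(Real.pi * i) := by
  have hpi := Real.pi_pos
  have hab := he.1.trans he.2
  have hb0 : 0 < eb := h0.trans_lt hab
  rcases h.level hi hD hs (h.closed_confine hab hc eb ⟨hab.le, le_rfl⟩) with h2 | h2
  · exfalso
    by_cases hi1 : i = 1
    · have h3 : A eb = 0 := by rw [h2, hi1]; simp
      have := h.zA eb hb0 h3 e1 (h0.trans_lt he.1) he.2.le
      linarith
    · obtain ⟨k, hk⟩ := hi
      have hne := h.nid eb hb0 (i - 1) (by omega) h2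
      have hev := h.crA eb hb0 (i - 1) ⟨k, by omega⟩ h2 hne
      have hev2 : ∀ᶠ e' in 𝓝[<] eb, e' ≠ eb → (e' - eb) * (A e' - A eb) < 0 :=
        hev.filter_mono nhdsWithin_le_nhds
      obtain ⟨e', h4, h5⟩ := (hev2.and (Ioo_mem_nhdsLT hab)).exists
      have h6 := h4 (ne_of_lt h5.2)
      have h7 : 0 < A e' - A eb := by
        by_contra hcon
        push Not at hcon
        have := mul_nonneg_of_nonpos_of_nonpos (sub_nonpos.2 h5.2.le) hcon
        linarith
      have h8 := (abs_lt.1 (hc e' h5)).2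
      rw [h2] at h7
      push_cast at h7
      linarith
  · rw [h2]; push_cast; linarith

/-- Below level, the trace relations. -/
lemma Env.signs (h : Env N A B D g) {i : ℤ} (hi : Odd i) {e : ℝ}
    (hA : |A e - -(Real.pi * i)| < Real.pi) (hB : |B e - -(Real.pi * i)| < Real.pi) :
    (D e ^ 2 < 4 → 0 < (A e - -(Real.pi * i)) * (B e - -(Real.pi * i))) ∧
    (4 < D e ^ 2 → (A e - -(Real.pi * i)) * (B e - -(Real.pi * i)) < 0) ∧
    ((A e - -(Real.pi * i)) * (B e - -(Real.pi * i)) < 0 → D e < -2) := by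
  obtain ⟨w, hw, h1⟩ := h.prod e
  have hsg : ∀ x : ℝ, Real.sin x = -Real.sin (x - -(Real.pi * i)) := by
    intro x
    rw [show x - -(Real.pi * i) = x + i * Real.pi by ring, Real.sin_add_int_mul_pi, hi.neg_one_zpow]
    ring
  have hcg : ∀ x : ℝ, Real.cos x = -Real.cos (x - -(Real.pi * i)) := by
    intro x
    rw [show x - -(Real.pi * i) = x + i * Real.pi by ring, Real.cos_add_int_mul_pi, hi.neg_one_zpow]
    ring
  rw [hsg (A e), hsg (B e), neg_mul_neg] at h1
  refine ⟨fun h2 => ?_, fun h2 => ?_, fun h2 => ?_⟩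
  · apply sin_sin_pos hA hB
    by_contra hcon
    push Not at hcon
    have := mul_nonpos_of_nonneg_of_nonpos hw.le hcon
    linarith
  · apply sin_sin_neg hA hB
    by_contra hcon
    push Not at hcon
    have := mul_nonneg hw.le hcon
    linarith
  · have h3 := sin_sin_neg' hA hB h2
    have h4 := mul_neg_of_pos_of_neg hw h3
    have h5 : 4 < D e ^ 2 := by linarith
    obtain ⟨w', hw', h6⟩ := h.wA e
    have hpi := Real.pi_pos
    have hd := abs_lt.1 (h.diff e)
    have h7 : 0 < Real.cos (A e - -(Real.pi * i)) := by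
      apply Real.cos_pos_of_mem_Ioo
      rcases mul_neg_iff.1 h2 with ⟨h8, h9⟩ | ⟨h8, h9⟩
      · exact ⟨by linarith, by linarith [hd.2]⟩
      · exact ⟨by linarith [hd.1], by linarith⟩
    rw [hcg] at h6
    have h8 : D e < 0 := by
      rw [h6]
      exact mul_neg_of_pos_of_neg hw' (by linarith)
    nlinarith

/-- The global statement. -/
theorem Env.star (h : Env N A B D g) {i : ℤ} (hi : Odd i) (h1 : 1 ≤ i) (hN : i ≤ N) {e1 : ℝ}
    (he1 : 0 < e1) (hA : A e1 = -(Real.pi * i)) : ∀ᶠ e in 𝓝[<] e1, -(Real.pi * i) < A e := by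
  have hpi := Real.pi_pos
  have hD1 : D e1 = -2 := by rw [h.lA e1 i hA, hi.neg_one_zpow]; norm_num
  have hcA := h.cA
  have hcB := h.cB
  have hcD := h.cD
  -- left end
  obtain ⟨ea, ⟨⟨hea0, hea1⟩, heaD⟩, hea⟩ : ∃ ea, IsGreatest {e | e ∈ Icc 0 e1 ∧ D e = 2} ea := by
    have hcomp : IsCompact {e | e ∈ Icc 0 e1 ∧ D e = 2} :=
      isCompact_Icc.inter_right (isClosed_eq hcD continuous_const)
    refine hcomp.exists_isGreatest ⟨0, ⟨le_rfl, he1.le⟩, ?_⟩
    rw [h.lA 0 0 (by rw [h.A0]; simp)]; norm_num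
  have hlt : ea < e1 := by
    rcases hea1.lt_or_eq with h2 | h2
    · exact h2
    · rw [h2, hD1] at heaD; norm_num at heaD
  have hDl : ∀ e, ea < e → e ≤ e1 → D e ≠ 2 := by
    intro e h2 h3 h4
    have := hea ⟨⟨hea0.trans h2.le, h3⟩, h4⟩
    linarith
  -- right end
  obtain ⟨eb, heb1, hDr, hebP⟩ : ∃ eb, e1 < eb ∧ (∀ e, e1 ≤ e → e < eb → D e ≠ 2) ∧
      (D eb = 2 ∨ (A eb < -(Real.pi * i) ∨ B eb < -(Real.pi * i))) := by
    by_cases hex : ∃ e0, e1 ≤ e0 ∧ D e0 = 2
    · obtain ⟨e0, h2, h3⟩ := hex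
      have hcomp : IsCompact {e | e ∈ Icc e1 e0 ∧ D e = 2} :=
        isCompact_Icc.inter_right (isClosed_eq hcD continuous_const)
      obtain ⟨eb, ⟨⟨hb1, hb2⟩, hb3⟩, hb4⟩ := hcomp.exists_isLeast ⟨e0, ⟨h2, le_rfl⟩, h3⟩
      refine ⟨eb, ?_, ?_, Or.inl hb3⟩
      · rcases hb1.lt_or_eq with h4 | h4
        · exact h4
        · rw [← h4, hD1] at hb3; norm_num at hb3
      · intro e h4 h5 h6
        have := hb4 ⟨⟨h4, h5.le.trans hb2⟩, h6⟩
        linarith
    · push Not at hex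
      obtain ⟨M, hM⟩ := h.far
      refine ⟨max M (e1 + 1), lt_of_lt_of_le (by linarith) (le_max_right _ _),
        fun e h2 _ => hex e h2, Or.inr ?_⟩
      have h3 : Real.pi * i ≤ Real.pi * N := by
        have : (i:ℝ) ≤ N := by exact_mod_cast hN
        exact mul_le_mul_of_nonneg_left this hpi.le
      rcases hM _ (le_max_left M (e1 + 1)) with h4 | h4
      · left; linarith
      · right; linarith
  have hmem : e1 ∈ Ioo ea eb := ⟨hlt, heb1⟩
  have hab : ea < eb := hlt.trans heb1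
  have hDne : ∀ e ∈ Ioo ea eb, D e ≠ 2 := by
    intro e he
    rcases le_total e e1 with h2 | h2
    · exact hDl e he.1 h2
    · exact hDr e h2 he.2
  have hDlt : ∀ e ∈ Ioo ea eb, D e < 2 := ivt_lt hcD hmem (by rw [hD1]; norm_num) hDne
  have hcfA := h.confine hi hmem hDne (by rw [hA, sub_self, abs_zero]; exact hpi)
  have hcfB : ∀ e ∈ Ioo ea eb, |B e - -(Real.pi * i)| < Real.pi := by
    refine h.swap.confine hi hmem hDne ?_
    have := h.diff e1
    rw [hA, abs_sub_comm] at this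
    linarith
  have hneB : B e1 ≠ -(Real.pi * i) := h.nid e1 he1 i (by omega) hA
  have hsin : ∀ e, D e = 2 → Real.sin (A e) = 0 ∨ Real.sin (B e) = 0 := by
    intro e he
    obtain ⟨w, hw, h2⟩ := h.prod e
    rw [he] at h2
    have h3 : w * (Real.sin (A e) * Real.sin (B e)) = 0 := by rw [h2]; norm_num
    exact mul_eq_zero.1 ((mul_eq_zero.1 h3).resolve_left hw.ne')
  have hPa : -(Real.pi * i) < A ea ∨ -(Real.pi * i) < B ea := by
    rcases hsin ea heaD with h2 | h2
    · left; exact h.left_end hi h1 hea0 hab hcfA heaD h2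
    · right; exact h.swap.left_end hi h1 hea0 hab hcfB heaD h2
  have hPb : A eb < -(Real.pi * i) ∨ B eb < -(Real.pi * i) := by
    rcases hebP with h3 | h3
    · rcases hsin eb h3 with h2 | h2
      · left; exact h.right_end hi hea0 hmem hcfA (hDlt e1 hmem) h3 h2
      · right; exact h.swap.right_end hi hea0 hmem hcfB (hDlt e1 hmem) h3 h2
    · exact h3
  -- points near the ends
  have hnearA : ∃ᶠ e in 𝓝[>] ea, e ∈ Ioo ea eb ∧ (-(Real.pi * i) < A e ∨ -(Real.pi * i) < B e) := by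
    have h2 : ∀ᶠ e in 𝓝[>] ea, e ∈ Ioo ea eb ∧ (-(Real.pi * i) < A e ∨ -(Real.pi * i) < B e) := by
      refine Filter.Eventually.and (Ioo_mem_nhdsGT hab) ?_
      rcases hPa with h3 | h3
      · filter_upwards [(hcA.continuousAt.eventually (lt_mem_nhds h3)).filter_mono nhdsWithin_le_nhds]
          with e he using Or.inl he
      · filter_upwards [(hcB.continuousAt.eventually (lt_mem_nhds h3)).filter_mono nhdsWithin_le_nhds]
          with e he using Or.inr he
    exact h2.frequently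
  have hnearB : ∃ᶠ e in 𝓝[<] eb, e ∈ Ioo ea eb ∧ (A e < -(Real.pi * i) ∨ B e < -(Real.pi * i)) := by
    have h2 : ∀ᶠ e in 𝓝[<] eb, e ∈ Ioo ea eb ∧ (A e < -(Real.pi * i) ∨ B e < -(Real.pi * i)) := by
      refine Filter.Eventually.and (Ioo_mem_nhdsLT hab) ?_
      rcases hPb with h3 | h3
      · filter_upwards [(hcA.continuousAt.eventually (gt_mem_nhds h3)).filter_mono nhdsWithin_le_nhds]
          with e he using Or.inl he
      · filter_upwards [(hcB.continuousAt.eventually (gt_mem_nhds h3)).filter_mono nhdsWithin_le_nhds]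
          with e he using Or.inr he
    exact h2.frequently
  -- a hyperbolic point in between
  obtain ⟨e2, he2, hlt2⟩ : ∃ e2 ∈ Ioo ea eb, (A e2 - -(Real.pi * i)) * (B e2 - -(Real.pi * i)) < 0 := by
    have hU : IsOpen {e | -(Real.pi * i) < A e ∨ -(Real.pi * i) < B e} :=
      (isOpen_lt continuous_const hcA).union (isOpen_lt continuous_const hcB)
    have hV : IsOpen {e | A e < -(Real.pi * i) ∨ B e < -(Real.pi * i)} :=
      (isOpen_lt hcA continuous_const).union (isOpen_lt hcB continuous_const)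
    have hcov : Ioo ea eb ⊆ {e | -(Real.pi * i) < A e ∨ -(Real.pi * i) < B e} ∪
        {e | A e < -(Real.pi * i) ∨ B e < -(Real.pi * i)} := by
      intro e he
      by_contra hcon
      simp only [mem_union, mem_ofPred_eq, not_or, not_lt] at hcon
      obtain ⟨⟨h2, h3⟩, h4, h5⟩ := hcon
      exact h.nid e (hea0.trans_lt he.1) i (by omega) (le_antisymm h2 h4) (le_antisymm h3 h5)
    obtain ⟨p, hp1, hp2⟩ := hnearA.exists
    obtain ⟨q, hq1, hq2⟩ := hnearB.exists
    obtain ⟨e2, he2, h2, h3⟩ := isPreconnected_Ioo _ _ hU hV hcov ⟨p, hp1, hp2⟩ ⟨q, hq1, hq2⟩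
    refine ⟨e2, he2, ?_⟩
    simp only [mem_ofPred_eq] at h2 h3
    rcases h2 with h2 | h2 <;> rcases h3 with h3 | h3
    · linarith
    · exact mul_neg_of_pos_of_neg (by linarith) (by linarith)
    · exact mul_neg_of_neg_of_pos (by linarith) (by linarith)
    · linarith
  have hD2 : D e2 < -2 := (h.signs hi (hcfA e2 he2) (hcfB e2 he2)).2.2 hlt2
  -- concavity
  have hconc := h.conc ea eb hea0 hab hDne
  have hpos : ∀ e ∈ Ioo ea eb, 0 < e := fun e he => hea0.trans_lt he.1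
  have hsq : ∀ e ∈ Ioo ea eb, e ^ 2 ∈ Ioo (ea ^ 2) (eb ^ 2) := by
    intro e he
    exact ⟨pow_lt_pow_left₀ he.1 hea0 two_ne_zero, pow_lt_pow_left₀ he.2 (hpos e he).le two_ne_zero⟩
  have hsqlt : ∀ x y, x ∈ Ioo ea eb → x < y → x ^ 2 < y ^ 2 := fun x y hx hxy =>
    pow_lt_pow_left₀ hxy (hpos x hx).le two_ne_zero
  have hg1 : g (e1 ^ 2) = Real.log 4 := by
    rw [h.gD e1 he1, hD1]; norm_num
  have hgval : ∀ e ∈ Ioo ea eb, g (e ^ 2) = Real.log (2 - D e) := by
    intro e he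
    rw [h.gD e (hpos e he), abs_of_neg (by linarith [hDlt e he])]
    congr 1; ring
  have hg2 : Real.log 4 < g (e2 ^ 2) := by
    rw [hgval e2 he2]
    exact Real.log_lt_log (by norm_num) (by linarith)
  have hsmall : ∀ e ∈ Ioo ea eb, g (e ^ 2) < Real.log 4 → D e ^ 2 < 4 := by
    intro e he h2
    rw [hgval e he] at h2
    have h3 := hDlt e he
    have h4 : 2 - D e < 4 := (Real.log_lt_log_iff (by linarith) (by norm_num)).1 h2
    nlinarith
  have hbig : ∀ e ∈ Ioo ea eb, Real.log 4 < g (e ^ 2) → 4 < D e ^ 2 := by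
    intro e he h2
    rw [hgval e he] at h2
    have h3 := hDlt e he
    have h4 : 4 < 2 - D e := (Real.log_lt_log_iff (by norm_num) (by linarith)).1 h2
    nlinarith
  rcases lt_trichotomy e2 e1 with hcase | hcase | hcase
  · -- right part elliptic
    have hell : ∀ e ∈ Ioo e1 eb, 0 < (A e - -(Real.pi * i)) * (B e - -(Real.pi * i)) := by
      intro e he
      have he' : e ∈ Ioo ea eb := ⟨hlt.trans he.1, he.2⟩
      refine (h.signs hi (hcfA e he') (hcfB e he')).1 (hsmall e he' ?_)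
      by_contra hcon
      push Not at hcon
      have := conc_left hconc (hsq e2 he2) (hsq e he') (hsqlt e2 e1 he2 hcase)
        (hsqlt e1 e hmem he.1) hg2 hcon
      rw [hg1] at this
      exact lt_irrefl _ this
    obtain ⟨q, hq1, hq2, hq3⟩ : ∃ q ∈ Ioo e1 eb, A q < -(Real.pi * i) ∧ B q < -(Real.pi * i) := by
      have h2 : ∃ᶠ e in 𝓝[<] eb, (e ∈ Ioo ea eb ∧ (A e < -(Real.pi * i) ∨ B e < -(Real.pi * i))) ∧
          e ∈ Ioo e1 eb := hnearB.and_eventually (Ioo_mem_nhdsLT heb1)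
      obtain ⟨q, ⟨-, h3⟩, h4⟩ := h2.exists
      have h5 := hell q h4
      refine ⟨q, h4, ?_⟩
      rcases mul_pos_iff.1 h5 with ⟨h6, h7⟩ | ⟨h6, h7⟩
      · rcases h3 with h3 | h3 <;> linarith
      · exact ⟨by linarith, by linarith⟩
    have hBlt : ∀ e ∈ Ioo e1 eb, B e < -(Real.pi * i) := ivt_lt hcB hq1 hq3 (fun x hx h0 => by
      have := hell x hx
      rw [h0, sub_self, mul_zero] at this
      exact lt_irrefl _ this)
    have hB1 : B e1 ≤ -(Real.pi * i) := by
      have h2 : Tendsto B (𝓝[>] e1) (𝓝 (B e1)) := hcB.continuousAt.tendsto.mono_left nhdsWithin_le_nhds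
      refine le_of_tendsto h2 ?_
      filter_upwards [Ioo_mem_nhdsGT heb1] with e he using (hBlt e he).le
    have hB1' : B e1 < -(Real.pi * i) := lt_of_le_of_ne hB1 hneB
    filter_upwards [Ioo_mem_nhdsLT hcase,
      (hcB.continuousAt.eventually (gt_mem_nhds hB1')).filter_mono nhdsWithin_le_nhds] with e he heB
    have he' : e ∈ Ioo ea eb := ⟨he2.1.trans he.1, he.2.trans heb1⟩
    have h2 : Real.log 4 < g (e ^ 2) :=
      conc_left hconc (hsq e2 he2) (hsq e1 hmem) (hsqlt e2 e he2 he.1) (hsqlt e e1 he' he.2) hg2 hg1.ge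
    have h3 := (h.signs hi (hcfA e he') (hcfB e he')).2.1 (hbig e he' h2)
    by_contra hcon
    push Not at hcon
    have := mul_nonneg_of_nonpos_of_nonpos (a := A e - -(Real.pi * i)) (b := B e - -(Real.pi * i))
      (by linarith) (by linarith)
    linarith
  · exfalso
    rw [hcase, hA, sub_self, zero_mul] at hlt2
    exact lt_irrefl _ hlt2
  · -- left part elliptic
    have hell : ∀ e ∈ Ioo ea e1, 0 < (A e - -(Real.pi * i)) * (B e - -(Real.pi * i)) := by
      intro e he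
      have he' : e ∈ Ioo ea eb := ⟨he.1, he.2.trans heb1⟩
      refine (h.signs hi (hcfA e he') (hcfB e he')).1 (hsmall e he' ?_)
      by_contra hcon
      push Not at hcon
      have := conc_right hconc (hsq e he') (hsq e2 he2) (hsqlt e e1 he' he.2)
        (hsqlt e1 e2 hmem hcase) hcon hg2
      rw [hg1] at this
      exact lt_irrefl _ this
    obtain ⟨q, hq1, hq2⟩ : ∃ q ∈ Ioo ea e1, -(Real.pi * i) < A q := by
      have h2 : ∃ᶠ e in 𝓝[>] ea, (e ∈ Ioo ea eb ∧ (-(Real.pi * i) < A e ∨ -(Real.pi * i) < B e)) ∧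
          e ∈ Ioo ea e1 := hnearA.and_eventually (Ioo_mem_nhdsGT hlt)
      obtain ⟨q, ⟨-, h3⟩, h4⟩ := h2.exists
      have h5 := hell q h4
      refine ⟨q, h4, ?_⟩
      rcases mul_pos_iff.1 h5 with ⟨h6, h7⟩ | ⟨h6, h7⟩
      · linarith
      · rcases h3 with h3 | h3 <;> linarith
    have hAgt : ∀ e ∈ Ioo ea e1, -(Real.pi * i) < A e := ivt_gt hcA hq1 hq2 (fun x hx h0 => by
      have := hell x hx
      rw [h0, sub_self, zero_mul] at this
      exact lt_irrefl _ this)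
    filter_upwards [Ioo_mem_nhdsLT hlt] with e he using hAgt e he

end

end Pool.Agent.V7H91.PL
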