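import Pool.Agent.V7H91.PL.Ga
import Pool.Agent.V7H91.PL.Gb

set_option autoImplicit false
open Set Filter Topology

namespace Pool.Agent.V7H91.PL
open H535R3

lemma al_pos_ls {n : ℕ} {mu e s : ℝ} (hs : s = 1 ∨ s = -1) (h : al n mu (s * e) = 0) :
    (((n:ℝ) + 1, 2 * mu) : ℝ × ℝ) ∈ Ls ((n:ℤ) + 1) (2 * e) := by
  rcases hs with rfl | rfl
  · rw [one_mul] at h
    have h1 := lock_al (i := 0) (n := n) (mu := mu) (e := e) (by rw [h]; simp)
    exact ⟨Real.pi / 2, by simp only; rw [h1]; push_cast; ring⟩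
  · rw [neg_one_mul] at h
    have h1 := lock_al_neg (i := 0) (n := n) (mu := mu) (e := e) (by rw [h]; simp)
    exact ⟨-(Real.pi / 2), by simp only; rw [h1]; push_cast; ring⟩

lemma Dr_s (n : ℕ) (mu e : ℝ) {s : ℝ} (hs : s = 1 ∨ s = -1) : Dr n mu (s * e) = Dr n mu e := by
  rcases hs with rfl | rfl
  · rw [one_mul]
  · rw [neg_one_mul, Dr_neg]

lemma env (n : ℕ) {mu s : ℝ} (hmu : 0 < mu) (hs : s = 1 ∨ s = -1) :
    Env (n + 1) (fun e => al n mu (s * e)) (fun e => al n mu (-(s * e))) (fun e => Dr n mu (s * e))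
      (fun x => Real.log ‖Dl n (x : ℂ) mu - 2‖) := by
  have hs0 : s ≠ 0 := by rcases hs with rfl | rfl <;> norm_num
  have hs2 : s * s = 1 := by rcases hs with rfl | rfl <;> norm_num
  have hz : ∀ e, 0 < e → (al n mu (s * e) = 0 ∨ al n mu (-(s * e)) = 0) →
      ∀ e', 0 < e' → e' ≤ e → 2 ≤ Dr n mu (s * e') := by
    intro e he h e' he' hle
    have h1 : (((n:ℝ) + 1, 2 * mu) : ℝ × ℝ) ∈ Ls ((n:ℤ) + 1) (2 * e) := by
      rcases h with h | h
      · exact al_pos_ls hs h
      · refine al_pos_ls (s := -s) ?_ (by rw [neg_mul]; exact h)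
        rcases hs with rfl | rfl
        · right; rfl
        · left; norm_num
    have h2 := (axis_iff n (a := 2 * mu) (ε := 2 * e) (by positivity) (by positivity)).1 h1
    rw [mul_div_cancel_left₀ _ two_ne_zero] at h2
    have h3 := MM_mono (n := n) he' hle
    have h4 := (axis_iff n (a := 2 * mu) (ε := 2 * e') (by positivity) (by positivity)).2 (by
      rw [mul_div_cancel_left₀ _ two_ne_zero]; linarith)
    obtain ⟨x, hx⟩ := h4
    rw [Dr_s n mu e' hs]
    exact lock_trace he'.ne' (x := x) hx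
  constructor
  · have := al_cont n mu; fun_prop
  · have := al_cont n mu; fun_prop
  · have := Dr_cont n mu; fun_prop
  · simp only [mul_zero, al_zero]
  · simp only [mul_zero, neg_zero, al_zero]
  · intro e; exact al_diff n mu (s * e)
  · intro e
    refine ⟨2 * Wt n mu (s * e), by have := Wt_pos n mu (s * e); positivity, ?_⟩
    simp only [Dr]; ring
  · intro e
    refine ⟨2 * Wt n mu (-(s * e)), by have := Wt_pos n mu (-(s * e)); positivity, ?_⟩
    rw [← Dr_neg, Dr]; ring
  · intro e
    refine ⟨4 * (Wt n mu (s * e) * Wt n mu (-(s * e))), by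
      have := Wt_pos n mu (s * e); have := Wt_pos n mu (-(s * e)); positivity, ?_⟩
    have := sin_prod n mu (s * e)
    linear_combination 4 * this
  · intro e i h; exact Dr_lock h
  · intro e i h
    rw [← Dr_neg]
    exact Dr_lock h
  · intro e he i hi h1 h2
    exact no_ident hmu (mul_ne_zero hs0 he.ne') (r := (n:ℤ) + 1 - i) (by omega) (both_ident h1 h2)
  · intro e he i hi h1 h2
    have h3 := cross_even hmu (mul_ne_zero hs0 he.ne') hi h1 h2
    have hc : Tendsto (fun e' : ℝ => s * e') (𝓝 e) (𝓝 (s * e)) :=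
      (continuous_const.mul continuous_id).tendsto e
    filter_upwards [hc.eventually h3] with e' h4 h5
    have h6 := h4 (fun h => h5 (mul_left_cancel₀ hs0 h))
    have h7 : (s * e' - s * e) * (s * e) * (al n mu (s * e') - al n mu (s * e)) =
        e * ((e' - e) * (al n mu (s * e') - al n mu (s * e))) := by
      linear_combination ((e' - e) * e * (al n mu (s * e') - al n mu (s * e))) * hs2
    rw [h7] at h6
    by_contra hcon
    push Not at hcon
    have := mul_nonneg he.le hcon
    linarith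
  · intro e he i hi h1 h2
    have h3 := cross_even (e := -(s * e)) hmu (neg_ne_zero.2 (mul_ne_zero hs0 he.ne')) hi h1
      (by rw [neg_neg]; exact h2)
    have hc : Tendsto (fun e' : ℝ => -(s * e')) (𝓝 e) (𝓝 (-(s * e))) :=
      ((continuous_const.mul continuous_id).neg).tendsto e
    filter_upwards [hc.eventually h3] with e' h4 h5
    have h6 := h4 (fun h => h5 (mul_left_cancel₀ hs0 (neg_injective h)))
    have h7 : (-(s * e') - -(s * e)) * (-(s * e)) * (al n mu (-(s * e')) - al n mu (-(s * e))) =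
        e * ((e' - e) * (al n mu (-(s * e')) - al n mu (-(s * e)))) := by
      linear_combination ((e' - e) * e * (al n mu (-(s * e')) - al n mu (-(s * e)))) * hs2
    rw [h7] at h6
    by_contra hcon
    push Not at hcon
    have := mul_nonneg he.le hcon
    linarith
  · intro p q hp hpq hne
    exact conc hs hp hpq hne
  · intro e he
    rw [Dl_pos_eq he hs]
    congr 1
    rw [show ((Dr n mu (s * e) : ℝ) : ℂ) - 2 = ((Dr n mu (s * e) - 2 : ℝ) : ℂ) by push_cast; ring,
      Complex.norm_real, Real.norm_eq_abs]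
  · intro e he h; exact hz e he (Or.inl h)
  · intro e he h; exact hz e he (Or.inr h)
  · refine ⟨((n:ℝ) + 1 + 2 * mu) / 2 + 1, fun e he => ?_⟩
    have h1 := trap (b := (n:ℝ) + 1) (a := 2 * mu) (ε := 2 * e) (by positivity) (by linarith)
    rw [P_al] at h1
    have h2 : al n mu e < -(Real.pi * ((n + 1 : ℕ) : ℝ)) := by push_cast; linarith
    rcases hs with rfl | rfl
    · left; rw [one_mul]; exact h2
    · right; rw [neg_one_mul, neg_neg]; exact h2

/-- Strict crossing, all levels. -/
theorem star {n : ℕ} {mu s e : ℝ} (hmu : 0 < mu) (hs : s = 1 ∨ s = -1) {i : ℤ} (h0 : 0 ≤ i)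
    (hN : i ≤ n + 1) (he : 0 < e) (hA : al n mu (s * e) = -(Real.pi * i))
    (hB : al n mu (-(s * e)) ≠ -(Real.pi * i)) :
    ∀ᶠ e' in 𝓝[<] e, -(Real.pi * i) < al n mu (s * e') := by
  have henv := env n hmu hs
  rcases Int.even_or_odd i with hi | hi
  · have h1 := henv.crA e he i hi hA hB
    have h2 : ∀ᶠ e' in 𝓝[<] e, e' ≠ e → (e' - e) * (al n mu (s * e') - al n mu (s * e)) < 0 :=
      h1.filter_mono nhdsWithin_le_nhds
    filter_upwards [h2, self_mem_nhdsWithin] with e' h3 h4
    have h5 : e' < e := h4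
    have h6 := h3 h5.ne
    rw [hA] at h6
    by_contra hcon
    push Not at hcon
    have := mul_nonneg_of_nonpos_of_nonpos (sub_nonpos.2 h5.le) (sub_nonpos.2 hcon)
    linarith
  · refine henv.star hi ?_ (by push_cast; exact hN) he hA
    obtain ⟨k, hk⟩ := hi
    omega

end Pool.Agent.V7H91.PL
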