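import Pool.Agent.V7H91.PL.Gc

set_option autoImplicit false
open Set Filter Topology

namespace Pool.Agent.V7H91.PL
open H535R3

/-- Boundary point on the side given by `σ`. -/
def Bs (σ : ℝ) (r : ℤ) (ε b a : ℝ) : Prop := (b, a) ∈ Ls r ε ∧ ∀ b', 0 < σ * (b' - b) → (b', a) ∉ Ls r ε

/-- At a fixed point with zero exponent the displacement has a sign. -/
lemma par_sign {r : ℤ} {ε b a x0 : ℝ} (hx0 : P b a ε x0 = x0 + 2 * Real.pi * r)
    (hK : Kx b a ε x0 = 0) : (∀ x, x + 2 * Real.pi * r ≤ P b a ε x) ∨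
      (∀ x, P b a ε x ≤ x + 2 * Real.pi * r) := by
  by_cases hne : ∀ x, P b a ε x = x + 2 * Real.pi * r
  · left; intro x; exact (hne x).ge
  have hpi := Real.pi_pos
  by_contra hcon
  push Not at hcon
  obtain ⟨⟨u, hu⟩, ⟨v, hv⟩⟩ := hcon
  obtain ⟨i, hi1, hi2⟩ := exists_shift x0 u
  obtain ⟨j, hj1, hj2⟩ := exists_shift x0 v
  set u' := u + 2 * Real.pi * i with hu'
  set v' := v + 2 * Real.pi * j with hv'
  have hu2 : P b a ε u' < u' + 2 * Real.pi * r := by rw [hu', P_add]; linarith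
  have hv2 : v' + 2 * Real.pi * r < P b a ε v' := by rw [hv', P_add]; linarith
  have hu3 : x0 < u' := by
    rcases hi1.lt_or_eq with h | h
    · exact h
    · rw [← h, hx0] at hu2; exact absurd hu2 (lt_irrefl _)
  have hv3 : x0 < v' := by
    rcases hj1.lt_or_eq with h | h
    · exact h
    · rw [← h, hx0] at hv2; exact absurd hv2 (lt_irrefl _)
  have hc : Continuous fun x => P b a ε x - x := (continuous_Px _ _ _).sub continuous_id
  obtain ⟨w, hw1, hw2⟩ : ∃ w ∈ uIcc u' v', P b a ε w - w = 2 * Real.pi * r := by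
    have := intermediate_value_uIcc (a := u') (b := v') hc.continuousOn
    have hmem : 2 * Real.pi * r ∈ uIcc (P b a ε u' - u') (P b a ε v' - v') := by
      rw [mem_uIcc]; left; constructor <;> linarith
    obtain ⟨w, hw1, hw2⟩ := this hmem
    exact ⟨w, hw1, hw2⟩
  have hw3 : x0 < w ∧ w < x0 + 2 * Real.pi := by
    rw [mem_uIcc] at hw1
    rcases hw1 with ⟨h1, h2⟩ | ⟨h1, h2⟩ <;> constructor <;> linarith
  have hw4 : P b a ε w = w + 2 * Real.pi * r := by linarith
  have hs : Real.sin ((w - x0) / 2) ≠ 0 :=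
    (Real.sin_pos_of_pos_of_lt_pi (by linarith [hw3.1]) (by linarith [hw3.2])).ne'
  rcases dich hx0 hw4 hs with ⟨h1, -⟩ | ⟨h1, -⟩
  · exact hne h1
  · exact h1 hK

/-- The two symmetric displacements of a locked point have opposite signs. -/
lemma lock_sign {r : ℤ} {ε b a : ℝ} (h : (b, a) ∈ Ls r ε) :
    (P b a ε (Real.pi / 2) - Real.pi / 2 - 2 * Real.pi * r) *
      (P b a ε (-(Real.pi / 2)) + Real.pi / 2 - 2 * Real.pi * r) ≤ 0 := by
  obtain ⟨x1, hx1⟩ := h
  simp only at hx1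
  by_cases hne : Real.sin (((Real.pi - x1) - x1) / 2) = 0
  · rcases sym_of_cos hx1 hne with h1 | h1
    · rw [h1]; simp
    · rw [h1]
      rw [show -(Real.pi / 2) + 2 * Real.pi * r + Real.pi / 2 - 2 * Real.pi * r = 0 by ring, mul_zero]
  · have hx2 := P_reflect hx1
    have k1 := key hx1 hx2 (Real.pi / 2)
    have k2 := key hx1 hx2 (-(Real.pi / 2))
    set S := Real.sin (((Real.pi - x1) - x1) / 2)
    set X := (P b a ε (Real.pi / 2) - Real.pi / 2 - 2 * Real.pi * r) with hX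
    set Y := (P b a ε (-(Real.pi / 2)) + Real.pi / 2 - 2 * Real.pi * r) with hY
    have c1 := close (x := Real.pi / 2) hx1
    have c2 := close (x := -(Real.pi / 2)) hx1
    rw [show P b a ε (Real.pi / 2) - 2 * Real.pi * r - Real.pi / 2 = X by rw [hX]; ring] at k1 c1
    rw [show P b a ε (-(Real.pi / 2)) - 2 * Real.pi * r - -(Real.pi / 2) = Y by rw [hY]; ring] at k2 c2
    have e1 : Real.sin ((Real.pi / 2 - (Real.pi - x1)) / 2) = -Real.sin ((Real.pi / 2 - x1) / 2) := by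
      rw [← Real.sin_neg]; congr 1; ring
    have e2 : Real.sin ((-(Real.pi / 2) - x1) / 2) = -Real.sin ((Real.pi / 2 + x1) / 2) := by
      rw [← Real.sin_neg]; congr 1; ring
    have e3 : Real.sin ((-(Real.pi / 2) - (Real.pi - x1)) / 2) = -Real.sin ((Real.pi / 2 + x1) / 2) := by
      rw [← Real.sin_pi_sub ((Real.pi / 2 + x1) / 2), ← Real.sin_neg]; congr 1; ring
    rw [e1] at k1
    rw [e2, e3] at k2
    rw [neg_add, Real.exp_add, neg_add, Real.exp_add] at k1 k2
    set p := Real.exp (-Kx b a ε (Real.pi - x1)) - Real.exp (-Kx b a ε x1) with hp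
    have hk1 : Real.sin (X / 2) * S = -(Real.sin ((Real.pi / 2 - x1) / 2) ^ 2 *
        Real.exp (-Kx b a ε (Real.pi / 2)) * p) := by rw [k1, hp]; ring
    have hk2 : Real.sin (Y / 2) * S = Real.sin ((Real.pi / 2 + x1) / 2) ^ 2 *
        Real.exp (-Kx b a ε (-(Real.pi / 2))) * p := by rw [k2, hp]; ring
    have hprod : Real.sin (X / 2) * Real.sin (Y / 2) * S ^ 2 =
      -((Real.sin ((Real.pi / 2 - x1) / 2) * Real.sin ((Real.pi / 2 + x1) / 2) * p) ^ 2 *
        (Real.exp (-Kx b a ε (Real.pi / 2)) * Real.exp (-Kx b a ε (-(Real.pi / 2))))) := by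
      linear_combination (Real.sin (Y / 2) * S) * hk1 - (Real.sin ((Real.pi / 2 - x1) / 2) ^ 2 *
        Real.exp (-Kx b a ε (Real.pi / 2)) * p) * hk2
    have hle : Real.sin (X / 2) * Real.sin (Y / 2) * S ^ 2 ≤ 0 := by
      rw [hprod]
      have : 0 ≤ (Real.sin ((Real.pi / 2 - x1) / 2) * Real.sin ((Real.pi / 2 + x1) / 2) * p) ^ 2 *
        (Real.exp (-Kx b a ε (Real.pi / 2)) * Real.exp (-Kx b a ε (-(Real.pi / 2)))) := by positivity
      linarith
    have hS : 0 < S ^ 2 := by positivity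
    by_contra hcon
    push Not at hcon
    have hx : |X / 2| < Real.pi := by rw [abs_div, abs_two]; linarith
    have hy : |Y / 2| < Real.pi := by rw [abs_div, abs_two]; linarith
    have hpos : 0 < Real.sin (X / 2) * Real.sin (Y / 2) := by
      obtain ⟨x1, x2⟩ := abs_lt.1 hx
      obtain ⟨y1, y2⟩ := abs_lt.1 hy
      rcases mul_pos_iff.1 hcon with ⟨h6, h7⟩ | ⟨h6, h7⟩
      · exact mul_pos (Real.sin_pos_of_pos_of_lt_pi (by linarith) x2)
          (Real.sin_pos_of_pos_of_lt_pi (by linarith) y2)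
      · exact mul_pos_of_neg_of_neg (Real.sin_neg_of_neg_of_neg_pi_lt (by linarith) x1)
          (Real.sin_neg_of_neg_of_neg_pi_lt (by linarith) y1)
    have := mul_pos hpos hS
    linarith

/-- At a boundary point the displacement has a sign. -/
lemma Bs.sign {σ : ℝ} {r : ℤ} {ε b a : ℝ} (hσ : σ = 1 ∨ σ = -1) (h : Bs σ r ε b a) (x : ℝ) :
    0 ≤ σ * (P b a ε x - x - 2 * Real.pi * r) := by
  by_contra hcon
  push Not at hcon
  obtain ⟨⟨x0, hx0⟩, h2⟩ := h
  simp only at hx0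
  have hcb : Continuous fun b' : ℝ => P b' a ε x :=
    continuous_P.comp (f := fun b' : ℝ => (b', a, ε, x)) (by fun_prop)
  rcases hσ with rfl | rfl
  · rw [one_mul] at hcon
    have h3 : ∀ᶠ b' in 𝓝[>] b, P b' a ε x < x + 2 * Real.pi * r :=
      (hcb.continuousAt.tendsto.mono_left nhdsWithin_le_nhds).eventually
        (gt_mem_nhds (show P b a ε x < x + 2 * Real.pi * r by linarith))
    obtain ⟨b', hb1, hb2⟩ := (h3.and self_mem_nhdsWithin).exists
    have hb3 : b < b' := hb2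
    have h4 := P_lt_of_b (a := a) (ε := ε) (x := x0) hb3
    exact h2 b' (by linarith) (mem_Ls_of (q := (b', a)) (u := x0) (v := x) (by simp only; linarith) hb1.le)
  · have h3 : ∀ᶠ b' in 𝓝[<] b, x + 2 * Real.pi * r < P b' a ε x :=
      (hcb.continuousAt.tendsto.mono_left nhdsWithin_le_nhds).eventually
        (lt_mem_nhds (show x + 2 * Real.pi * r < P b a ε x by linarith))
    obtain ⟨b', hb1, hb2⟩ := (h3.and self_mem_nhdsWithin).exists
    have hb3 : b' < b := hb2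
    have h4 := P_lt_of_b (a := a) (ε := ε) (x := x0) hb3
    exact h2 b' (by linarith) (mem_Ls_of (q := (b', a)) (u := x) (v := x0) hb1.le (by simp only; linarith))

lemma Bs_of_sign {σ : ℝ} {r : ℤ} {ε b a : ℝ} (hσ : σ = 1 ∨ σ = -1) (h : (b, a) ∈ Ls r ε)
    (hs : ∀ x, 0 ≤ σ * (P b a ε x - x - 2 * Real.pi * r)) : Bs σ r ε b a := by
  refine ⟨h, fun b' hb' => ?_⟩
  rcases hσ with rfl | rfl
  · exact not_mem_of_lt (by linarith) (fun x => by have := hs x; linarith)
  · exact not_mem_of_gt (by linarith) (fun x => by have := hs x; linarith)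

/-- The displacement functions, in the sheet `s`. -/
noncomputable def XX (n : ℕ) (r : ℤ) (s a e : ℝ) : ℝ := al n (a / 2) (s * e) + Real.pi * ((n:ℝ) + 1 - r)

lemma XX_cont (n : ℕ) (r : ℤ) (s : ℝ) : Continuous fun p : ℝ × ℝ => XX n r s p.1 p.2 := by
  have h : Continuous fun p : ℝ × ℝ => al n (p.1 / 2) (s * p.2) :=
    (al_cont2 n).comp (f := fun p : ℝ × ℝ => (p.1 / 2, s * p.2)) (by fun_prop)
  exact h.add continuous_const

lemma XX_one (n : ℕ) (r : ℤ) (a e : ℝ) :
    P (n + 1) a (2 * e) (Real.pi / 2) = Real.pi / 2 + 2 * Real.pi * r + 2 * XX n r 1 a e := by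
  have h := P_al n (a / 2) e
  rw [mul_div_cancel₀ _ two_ne_zero] at h
  rw [h, XX, one_mul]; ring

lemma XX_neg (n : ℕ) (r : ℤ) (a e : ℝ) :
    P (n + 1) a (2 * e) (-(Real.pi / 2)) = -(Real.pi / 2) + 2 * Real.pi * r + 2 * XX n r (-1) a e := by
  have h := P_al_neg n (a / 2) e
  rw [mul_div_cancel₀ _ two_ne_zero] at h
  rw [h, XX, neg_one_mul]; ring

lemma XX_zero {n : ℕ} {r : ℤ} {s a e : ℝ} :
    XX n r s a e = 0 ↔ al n (a / 2) (s * e) = -(Real.pi * (((n:ℤ) + 1 - r : ℤ) : ℝ)) := by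
  rw [XX]; push_cast
  constructor <;> intro h <;> linarith

lemma XX_both {n : ℕ} {r : ℤ} {a e : ℝ} (h1 : XX n r 1 a e = 0) (h2 : XX n r (-1) a e = 0) (x : ℝ) :
    P (n + 1) a (2 * e) x = x + 2 * Real.pi * r := by
  rw [XX_zero] at h1 h2
  rw [one_mul] at h1
  rw [neg_one_mul] at h2
  have h3 := both_ident h1 h2 x
  rw [mul_div_cancel₀ _ two_ne_zero] at h3
  rw [h3]; push_cast; ring

/-- The zero exponent at the symmetric fixed points. -/
lemma XX_K {n : ℕ} {r : ℤ} {s a e : ℝ} (hs : s = 1 ∨ s = -1) (h : XX n r s a e = 0) :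
    P (n + 1) a (2 * e) (s * (Real.pi / 2)) = s * (Real.pi / 2) + 2 * Real.pi * r ∧
    Kx (n + 1) a (2 * e) (s * (Real.pi / 2)) = 0 := by
  rcases hs with rfl | rfl
  · rw [one_mul]
    have h1 : P (n + 1) a (2 * e) (Real.pi / 2) = Real.pi / 2 + 2 * Real.pi * r := by
      rw [XX_one n r, h]; ring
    exact ⟨h1, Kx_sym h1⟩
  · rw [neg_one_mul]
    have h1 : P (n + 1) a (2 * e) (-(Real.pi / 2)) = -(Real.pi / 2) + 2 * Real.pi * r := by
      rw [XX_neg n r, h]; ring
    refine ⟨h1, ?_⟩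
    have h2 := P_neg (n + 1) a (2 * e) (-(Real.pi / 2))
    rw [show -(Real.pi / 2) + Real.pi = Real.pi / 2 by ring] at h2
    rw [h2.2]
    refine Kx_sym (m := r) ?_
    have := h2.1
    rw [h1] at this
    linarith

/-- Displacement at the symmetric points. -/
lemma XX_P {n : ℕ} {r : ℤ} {s a e : ℝ} (hs : s = 1 ∨ s = -1) :
    P (n + 1) a (2 * e) (s * (Real.pi / 2)) - s * (Real.pi / 2) - 2 * Real.pi * r = 2 * XX n r s a e := by
  rcases hs with rfl | rfl
  · rw [one_mul, XX_one n r]; ring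
  · rw [neg_one_mul, XX_neg n r]; ring

lemma neg_s {s : ℝ} (hs : s = 1 ∨ s = -1) : -s = 1 ∨ -s = -1 := by
  rcases hs with rfl | rfl
  · right; rfl
  · left; norm_num

lemma XX_both' {n : ℕ} {r : ℤ} {s a e : ℝ} (hs : s = 1 ∨ s = -1) (h1 : XX n r s a e = 0)
    (h2 : XX n r (-s) a e = 0) (x : ℝ) : P (n + 1) a (2 * e) x = x + 2 * Real.pi * r := by
  rcases hs with rfl | rfl
  · exact XX_both h1 h2 x
  · rw [neg_neg] at h2; exact XX_both h2 h1 x

/-- Sufficient condition. -/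
lemma Bs_of {n : ℕ} {r : ℤ} {σ s a e : ℝ} (hσ : σ = 1 ∨ σ = -1) (hs : s = 1 ∨ s = -1)
    (h1 : XX n r s a e = 0) (h2 : 0 ≤ σ * XX n r (-s) a e) : Bs σ r (2 * e) (n + 1) a := by
  obtain ⟨hP, hK⟩ := XX_K hs h1
  have hmem : (((n:ℝ) + 1, a) : ℝ × ℝ) ∈ Ls r (2 * e) := ⟨_, hP⟩
  have hY := XX_P (n := n) (r := r) (a := a) (e := e) (neg_s hs)
  refine Bs_of_sign hσ hmem ?_
  have hlast : XX n r (-s) a e = 0 → ∀ x, 0 ≤ σ * (P (n + 1) a (2 * e) x - x - 2 * Real.pi * r) := by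
    intro h0 x
    rw [XX_both' hs h1 h0 x]
    simp
  rcases par_sign hP hK with h3 | h3
  · rcases hσ with rfl | rfl
    · intro x; have := h3 x; linarith
    · apply hlast
      have h4 := h3 (-s * (Real.pi / 2))
      have h5 : 0 ≤ XX n r (-s) a e := by linarith
      linarith
  · rcases hσ with rfl | rfl
    · apply hlast
      have h4 := h3 (-s * (Real.pi / 2))
      have h5 : XX n r (-s) a e ≤ 0 := by linarith
      linarith
    · intro x; have := h3 x; linarith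

/-- Necessary condition. -/
lemma of_Bs {n : ℕ} {r : ℤ} {σ a e : ℝ} (hσ : σ = 1 ∨ σ = -1) (h : Bs σ r (2 * e) (n + 1) a) :
    ∃ s : ℝ, (s = 1 ∨ s = -1) ∧ XX n r s a e = 0 ∧ 0 ≤ σ * XX n r (-s) a e := by
  have hsg := h.sign hσ
  have hX : ∀ s : ℝ, (s = 1 ∨ s = -1) → 0 ≤ σ * XX n r s a e := by
    intro s hs
    have h1 := hsg (s * (Real.pi / 2))
    rw [XX_P hs] at h1
    linarith
  suffices h1 : XX n r 1 a e = 0 ∨ XX n r (-1) a e = 0 by
    rcases h1 with h1 | h1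
    · exact ⟨1, Or.inl rfl, h1, hX _ (Or.inr rfl)⟩
    · exact ⟨-1, Or.inr rfl, h1, hX _ (Or.inl (by norm_num))⟩
  obtain ⟨⟨x0, hx0⟩, -⟩ := h
  simp only at hx0
  have hone : P (n + 1) a (2 * e) (Real.pi / 2) = Real.pi / 2 + 2 * Real.pi * r → XX n r 1 a e = 0 := by
    intro h1
    rw [XX_one n r] at h1; linarith
  have hneg : P (n + 1) a (2 * e) (-(Real.pi / 2)) = -(Real.pi / 2) + 2 * Real.pi * r →
      XX n r (-1) a e = 0 := by
    intro h1
    rw [XX_neg n r] at h1; linarith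
  have hrefl := P_reflect hx0
  by_cases hne : Real.sin (((Real.pi - x0) - x0) / 2) = 0
  · rcases sym_of_cos hx0 hne with h1 | h1
    · left; exact hone h1
    · right; exact hneg h1
  · rcases dich hx0 hrefl hne with ⟨h1, -⟩ | ⟨-, ⟨u, hu⟩, ⟨v, hv⟩⟩
    · left; exact hone (h1 _)
    · exfalso
      have h2 := hsg u
      have h3 := hsg v
      rcases hσ with rfl | rfl <;> linarith

end Pool.Agent.V7H91.PL
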