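import Pool.Agent.Helper27.Har.P_global_ode

set_option autoImplicit false
open Set Filter Topology Metric

namespace Pool.Agent.V7H91.PL

section param

variable {E : Type*} [NormedAddCommGroup E] [NormedSpace ℂ E] [CompleteSpace E]

/-- Complex differentiability in a parameter of solutions of a linear equation that is affine in the
parameter. -/
theorem hasDerivAt_param {A : ℂ → ℝ → E →L[ℂ] E} {A' : ℝ → E →L[ℂ] E} {z0 : ℂ} {K K' T : ℝ}
    (hT : 0 ≤ T) (hK0 : 0 < K) (hK'0 : 0 ≤ K')
    (hK : ∀ z, ‖z - z0‖ ≤ 1 → ∀ t, ‖A z t‖ ≤ K) (hK' : ∀ t, ‖A' t‖ ≤ K')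
    (hA : ∀ z t, A z t = A z0 t + (z - z0) • A' t)
    (hc : Continuous (A z0)) (hc' : Continuous A')
    {Y : ℂ → ℝ → E} (hY : ∀ z t, HasDerivAt (Y z) (A z t (Y z t)) t) (h0 : ∀ z, Y z 0 = Y z0 0) :
    DifferentiableAt ℂ (fun z => Y z T) z0 := by
  have hYc : ∀ z, Continuous (Y z) := fun z => continuous_iff_continuousAt.2 fun t => (hY z t).continuousAt
  -- the derivative
  obtain ⟨D, hD0, hD⟩ : ∃ D : ℝ → E, D 0 = 0 ∧ ∀ t, HasDerivAt D (A z0 t (D t) + A' t (Y z0 t)) t := by
    refine Haraux.global_ode (fun t x => A z0 t x + A' t (Y z0 t)) ⟨K, hK0.le⟩ ?_ ?_ 0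
    · intro t
      refine LipschitzWith.of_dist_le_mul fun x y => ?_
      rw [dist_eq_norm, dist_eq_norm, add_sub_add_right_eq_sub, ← map_sub]
      exact ((A z0 t).le_opNorm _).trans
        (mul_le_mul_of_nonneg_right (hK z0 (by simp) t) (norm_nonneg _))
    · have h1 : Continuous fun p : ℝ × E => A z0 p.1 p.2 :=
        (hc.comp continuous_fst).clm_apply continuous_snd
      have h2 : Continuous fun p : ℝ × E => A' p.1 (Y z0 p.1) :=
        (hc'.comp continuous_fst).clm_apply ((hYc z0).comp continuous_fst)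
      exact h1.add h2
  have hDc : Continuous D := continuous_iff_continuousAt.2 fun t => (hD t).continuousAt
  obtain ⟨N, hN⟩ := isCompact_Icc.exists_bound_of_continuousOn ((hYc z0).continuousOn (s := Icc 0 T))
  have hN0 : 0 ≤ N := (norm_nonneg _).trans (hN 0 (left_mem_Icc.2 hT))
  set G : ℝ := (Real.exp (K * T) - 1) / K with hG
  have hG0 : 0 ≤ G := div_nonneg (by
    have := Real.one_le_exp (mul_nonneg hK0.le hT)
    linarith) hK0.le
  have gb : ∀ ε t : ℝ, 0 ≤ ε → t ∈ Icc 0 T → gronwallBound 0 K ε (t - 0) ≤ ε * G := by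
    intro ε t hε ht
    rw [gronwallBound_of_K_ne_0 hK0.ne']
    simp only
    rw [zero_mul, zero_add, sub_zero, hG]
    have h1 : Real.exp (K * t) ≤ Real.exp (K * T) :=
      Real.exp_le_exp.2 (mul_le_mul_of_nonneg_left ht.2 hK0.le)
    have h2 : ε / K * (Real.exp (K * t) - 1) = ε * ((Real.exp (K * t) - 1) / K) := by ring
    rw [h2]
    have h3 : (Real.exp (K * t) - 1) / K ≤ (Real.exp (K * T) - 1) / K :=
      div_le_div_of_nonneg_right (by linarith) hK0.le
    exact mul_le_mul_of_nonneg_left h3 hε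
  have step1 : ∀ z, ‖z - z0‖ ≤ 1 → ∀ t ∈ Icc 0 T, ‖Y z t - Y z0 t‖ ≤ ‖z - z0‖ * (K' * N * G) := by
    intro z hz t ht
    have h1 := norm_le_gronwallBound_of_norm_deriv_right_le (f := fun t => Y z t - Y z0 t)
      (f' := fun t => A z t (Y z t) - A z0 t (Y z0 t)) (δ := 0) (K := K)
      (ε := ‖z - z0‖ * (K' * N)) (a := 0) (b := T)
      ((hYc z).sub (hYc z0)).continuousOn
      (fun s _ => ((hY z s).sub (hY z0 s)).hasDerivWithinAt)
      (by simp [h0 z]) (by
        intro s hs
        have e1 : A z s (Y z s) - A z0 s (Y z0 s) =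
            A z s (Y z s - Y z0 s) + (z - z0) • A' s (Y z0 s) := by
          rw [map_sub, hA z s]
          simp only [add_apply, smul_apply]
          abel
        rw [e1]
        refine (norm_add_le _ _).trans ?_
        have a1 : ‖A z s (Y z s - Y z0 s)‖ ≤ K * ‖Y z s - Y z0 s‖ :=
          ((A z s).le_opNorm _).trans (mul_le_mul_of_nonneg_right (hK z hz s) (norm_nonneg _))
        have a2 : ‖(z - z0) • A' s (Y z0 s)‖ ≤ ‖z - z0‖ * (K' * N) := by
          rw [norm_smul]
          refine mul_le_mul_of_nonneg_left ?_ (norm_nonneg _)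
          exact ((A' s).le_opNorm _).trans (mul_le_mul (hK' s) (hN s ⟨hs.1, hs.2.le⟩)
            (norm_nonneg _) hK'0)
        linarith) t ht
    refine h1.trans ((gb _ t (by positivity) ht).trans (le_of_eq (by ring)))
  have hder : HasDerivAt (fun z => Y z T) (D T) z0 := by
    rw [hasDerivAt_iff_isLittleO]
    have hbig : (fun z => Y z T - Y z0 T - (z - z0) • D T) =O[𝓝 z0] fun z => ‖z - z0‖ ^ 2 := by
      refine Asymptotics.IsBigO.of_bound (K' * (K' * N * G) * G) ?_
      filter_upwards [Metric.closedBall_mem_nhds z0 one_pos] with z hz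
      rw [mem_closedBall, dist_eq_norm] at hz
      have h1 := norm_le_gronwallBound_of_norm_deriv_right_le
        (f := fun t => Y z t - Y z0 t - (z - z0) • D t)
        (f' := fun t => A z t (Y z t) - A z0 t (Y z0 t) - (z - z0) • (A z0 t (D t) + A' t (Y z0 t)))
        (δ := 0) (K := K) (ε := ‖z - z0‖ ^ 2 * (K' * (K' * N * G))) (a := 0) (b := T)
        (((hYc z).sub (hYc z0)).sub (hDc.const_smul _)).continuousOn
        (fun s _ => (((hY z s).sub (hY z0 s)).sub ((hD s).const_smul (z - z0))).hasDerivWithinAt)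
        (by simp [h0 z, hD0]) (by
          intro s hs
          have e1 : A z s (Y z s) - A z0 s (Y z0 s) - (z - z0) • (A z0 s (D s) + A' s (Y z0 s)) =
              A z0 s (Y z s - Y z0 s - (z - z0) • D s) + (z - z0) • A' s (Y z s - Y z0 s) := by
            rw [map_sub, map_sub, map_smul, map_sub, hA z s]
            simp only [add_apply, smul_apply, smul_add, smul_sub]
            abel
          rw [e1]
          refine (norm_add_le _ _).trans ?_
          have a1 : ‖A z0 s (Y z s - Y z0 s - (z - z0) • D s)‖ ≤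
              K * ‖Y z s - Y z0 s - (z - z0) • D s‖ :=
            ((A z0 s).le_opNorm _).trans (mul_le_mul_of_nonneg_right (hK z0 (by simp) s) (norm_nonneg _))
          have a2 : ‖(z - z0) • A' s (Y z s - Y z0 s)‖ ≤ ‖z - z0‖ ^ 2 * (K' * (K' * N * G)) := by
            rw [norm_smul]
            have a3 := ((A' s).le_opNorm (Y z s - Y z0 s)).trans (mul_le_mul (hK' s)
              (step1 z hz s ⟨hs.1, hs.2.le⟩) (norm_nonneg _) hK'0)
            calc ‖z - z0‖ * ‖A' s (Y z s - Y z0 s)‖ ≤ ‖z - z0‖ * (K' * (‖z - z0‖ * (K' * N * G))) :=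
                  mul_le_mul_of_nonneg_left a3 (norm_nonneg _)
              _ = _ := by ring
          linarith) T (right_mem_Icc.2 hT)
      refine (h1.trans (gb _ T (by positivity) (right_mem_Icc.2 hT))).trans (le_of_eq ?_)
      rw [Real.norm_of_nonneg (by positivity)]
      ring
    refine hbig.trans_isLittleO ?_
    have h2 : Tendsto (fun z => ‖z - z0‖) (𝓝 z0) (𝓝 0) := by
      have : Continuous fun z : ℂ => ‖z - z0‖ := by fun_prop
      have h3 := this.tendsto z0
      simpa using h3
    rw [Asymptotics.isLittleO_iff]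
    intro c hc0
    filter_upwards [h2.eventually (gt_mem_nhds hc0)] with z hz
    rw [Real.norm_of_nonneg (by positivity), pow_two]
    exact mul_le_mul_of_nonneg_right hz.le (norm_nonneg _)
  exact hder.differentiableAt

end param

end Pool.Agent.V7H91.PL
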