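import Pool.Agent.V7H91.PL.Ode

set_option autoImplicit false
open Set Filter Topology Metric Complex

namespace Pool.Agent.V7H91.PL

/-- The coefficient `l + 2 mu cos t`, with `l = n + 1`. -/
noncomputable def th (n : ℕ) (mu : ℂ) (t : ℝ) : ℂ := (n:ℂ) + 1 + 2 * mu * (Real.cos t : ℂ)

/-- Coefficient operator. -/
noncomputable def Aop (n : ℕ) (lam mu : ℂ) (t : ℝ) : (ℂ × ℂ) →L[ℂ] (ℂ × ℂ) :=
  (ContinuousLinearMap.snd ℂ ℂ ℂ).prod
    (lam • ContinuousLinearMap.fst ℂ ℂ ℂ - (I * th n mu t) • ContinuousLinearMap.snd ℂ ℂ ℂ)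

lemma Aop_apply (n : ℕ) (lam mu : ℂ) (t : ℝ) (x : ℂ × ℂ) :
    Aop n lam mu t x = (x.2, lam * x.1 - I * th n mu t * x.2) := by
  simp [Aop]

/-- Lipschitz bound. -/
noncomputable def KA (n : ℕ) (lam mu : ℂ) : ℝ := 1 + ‖lam‖ + ((n:ℝ) + 1 + 2 * ‖mu‖)

lemma KA_pos (n : ℕ) (lam mu : ℂ) : 0 < KA n lam mu := by unfold KA; positivity

lemma th_norm (n : ℕ) (mu : ℂ) (t : ℝ) : ‖th n mu t‖ ≤ (n:ℝ) + 1 + 2 * ‖mu‖ := by
  unfold th
  refine (norm_add_le _ _).trans ?_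
  have h1 : ‖(n:ℂ) + 1‖ = (n:ℝ) + 1 := by
    rw [show (n:ℂ) + 1 = (((n:ℝ) + 1 : ℝ) : ℂ) by push_cast; ring, Complex.norm_real,
      Real.norm_of_nonneg (by positivity)]
  have h2 : ‖2 * mu * (Real.cos t : ℂ)‖ ≤ 2 * ‖mu‖ := by
    rw [norm_mul, norm_mul, Complex.norm_real, Real.norm_eq_abs, Complex.norm_ofNat]
    have := Real.abs_cos_le_one t
    nlinarith [norm_nonneg mu]
  linarith

lemma Aop_norm (n : ℕ) (lam mu : ℂ) (t : ℝ) : ‖Aop n lam mu t‖ ≤ KA n lam mu := by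
  refine ContinuousLinearMap.opNorm_le_bound _ (KA_pos n lam mu).le fun x => ?_
  rw [Aop_apply, Prod.norm_mk]
  have h1 : ‖x.2‖ ≤ ‖x‖ := norm_snd_le x
  have h0 : ‖x.1‖ ≤ ‖x‖ := norm_fst_le x
  have hx := norm_nonneg x
  have hK : KA n lam mu * ‖x‖ = ‖x‖ + ‖lam‖ * ‖x‖ + ((n:ℝ) + 1 + 2 * ‖mu‖) * ‖x‖ := by
    unfold KA; ring
  have h2 := norm_nonneg lam
  have h3 := norm_nonneg mu
  have h4 : 0 ≤ ‖lam‖ * ‖x‖ := by positivity
  have h5 : 0 ≤ ((n:ℝ) + 1 + 2 * ‖mu‖) * ‖x‖ := by positivity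
  refine max_le (by linarith) ?_
  refine (norm_sub_le _ _).trans ?_
  rw [norm_mul, norm_mul, norm_mul, norm_I, one_mul]
  have h6 := mul_le_mul_of_nonneg_left h0 h2
  have h7 := mul_le_mul (th_norm n mu t) h1 (norm_nonneg _) (by positivity)
  linarith

lemma th_cont (n : ℕ) (mu : ℂ) : Continuous (th n mu) := by unfold th; fun_prop

lemma Aop_cont (n : ℕ) (lam mu : ℂ) : Continuous (Aop n lam mu) := by
  unfold Aop
  have h1 : Continuous fun t => (I * th n mu t) • ContinuousLinearMap.snd ℂ ℂ ℂ :=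
    (continuous_const.mul (th_cont n mu)).smul continuous_const
  have h2 : Continuous fun t => lam • ContinuousLinearMap.fst ℂ ℂ ℂ -
      (I * th n mu t) • ContinuousLinearMap.snd ℂ ℂ ℂ := continuous_const.sub h1
  exact (ContinuousLinearMap.prodₗᵢ ℂ).continuous.comp (continuous_const.prodMk h2)

lemma Y_exists (n : ℕ) (lam mu : ℂ) (x : ℂ × ℂ) :
    ∃ Y : ℝ → ℂ × ℂ, Y 0 = x ∧ ∀ t, HasDerivAt Y (Aop n lam mu t (Y t)) t := by
  refine Haraux.global_ode (fun t x => Aop n lam mu t x) ⟨KA n lam mu, (KA_pos n lam mu).le⟩ ?_ ?_ x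
  · intro t
    refine LipschitzWith.of_dist_le_mul fun x y => ?_
    rw [dist_eq_norm, dist_eq_norm, ← map_sub]
    exact ((Aop n lam mu t).le_opNorm _).trans
      (mul_le_mul_of_nonneg_right (Aop_norm n lam mu t) (norm_nonneg _))
  · exact ((Aop_cont n lam mu).comp continuous_fst).clm_apply continuous_snd

/-- The solution with initial value `x`. -/
noncomputable def Y (n : ℕ) (lam mu : ℂ) (x : ℂ × ℂ) : ℝ → ℂ × ℂ := Classical.choose (Y_exists n lam mu x)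

lemma Y_zero (n : ℕ) (lam mu : ℂ) (x : ℂ × ℂ) : Y n lam mu x 0 = x :=
  (Classical.choose_spec (Y_exists n lam mu x)).1

lemma Y_sol (n : ℕ) (lam mu : ℂ) (x : ℂ × ℂ) (t : ℝ) :
    HasDerivAt (Y n lam mu x) (Aop n lam mu t (Y n lam mu x t)) t :=
  (Classical.choose_spec (Y_exists n lam mu x)).2 t

lemma Y_unique {n : ℕ} {lam mu : ℂ} {Z W : ℝ → ℂ × ℂ} (hZ : ∀ t, HasDerivAt Z (Aop n lam mu t (Z t)) t)
    (hW : ∀ t, HasDerivAt W (Aop n lam mu t (W t)) t) {t0 : ℝ} (h : Z t0 = W t0) : Z = W :=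
  ODE_solution_unique_univ (v := fun t x => Aop n lam mu t x) (s := fun _ => univ)
    (K := ⟨KA n lam mu, (KA_pos n lam mu).le⟩)
    (fun t => (LipschitzWith.of_dist_le_mul fun x y => by
      rw [dist_eq_norm, dist_eq_norm, ← map_sub]
      exact ((Aop n lam mu t).le_opNorm _).trans
        (mul_le_mul_of_nonneg_right (Aop_norm n lam mu t) (norm_nonneg _))).lipschitzOnWith)
    (fun t => ⟨hZ t, trivial⟩) (fun t => ⟨hW t, trivial⟩) h

lemma Y_lin (n : ℕ) (lam mu : ℂ) (a b : ℂ) (t : ℝ) :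
    Y n lam mu (a, b) t = a • Y n lam mu (1, 0) t + b • Y n lam mu (0, 1) t := by
  have h : Y n lam mu (a, b) = fun t => a • Y n lam mu (1, 0) t + b • Y n lam mu (0, 1) t := by
    refine Y_unique (Y_sol n lam mu _) ?_ (t0 := 0) ?_
    · intro t
      refine (((Y_sol n lam mu (1, 0) t).const_smul a).add
        ((Y_sol n lam mu (0, 1) t).const_smul b)).congr_deriv ?_
      rw [map_add, map_smul, map_smul]
    · simp [Y_zero]
  exact congrFun h t

/-- Solutions as pairs of functions. -/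
structure VS (n : ℕ) (lam mu : ℂ) (v q : ℝ → ℂ) : Prop where
  dv : ∀ t, HasDerivAt v (q t) t
  dq : ∀ t, HasDerivAt q (lam * v t - I * th n mu t * q t) t

lemma VS.eq_Y {n : ℕ} {lam mu : ℂ} {v q : ℝ → ℂ} (h : VS n lam mu v q) :
    (fun t => (v t, q t)) = Y n lam mu (v 0, q 0) := by
  refine Y_unique ?_ (Y_sol n lam mu _) (t0 := 0) (by rw [Y_zero])
  intro t
  rw [Aop_apply]
  exact (h.dv t).prodMk (h.dq t)

lemma Y_VS (n : ℕ) (lam mu : ℂ) (x : ℂ × ℂ) :
    VS n lam mu (fun t => (Y n lam mu x t).1) (fun t => (Y n lam mu x t).2) := by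
  constructor
  · intro t
    have h := Y_sol n lam mu x t
    rw [Aop_apply] at h
    exact (hasFDerivAt_fst (𝕜 := ℝ) (E := ℂ) (F := ℂ)).comp_hasDerivAt t h
  · intro t
    have h := Y_sol n lam mu x t
    rw [Aop_apply] at h
    exact (hasFDerivAt_snd (𝕜 := ℝ) (E := ℂ) (F := ℂ)).comp_hasDerivAt t h

/-- The trace of the time `2 pi` map. -/
noncomputable def Dl (n : ℕ) (lam mu : ℂ) : ℂ :=
  (Y n lam mu (1, 0) (2 * Real.pi)).1 + (Y n lam mu (0, 1) (2 * Real.pi)).2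

lemma Dl_diff_lam (n : ℕ) (mu : ℂ) : Differentiable ℂ fun lam => Dl n lam mu := by
  have key : ∀ x : ℂ × ℂ, Differentiable ℂ fun lam => Y n lam mu x (2 * Real.pi) := by
    intro x z0
    have hle : ∀ z : ℂ, ‖z - z0‖ ≤ 1 → ‖z‖ ≤ ‖z0‖ + 1 := by
      intro z hz
      calc ‖z‖ = ‖z0 + (z - z0)‖ := by rw [add_sub_cancel]
        _ ≤ ‖z0‖ + ‖z - z0‖ := norm_add_le _ _
        _ ≤ _ := by linarith
    refine hasDerivAt_param (A := fun z t => Aop n z mu t)
      (A' := fun _ => (0 : (ℂ × ℂ) →L[ℂ] ℂ).prod (ContinuousLinearMap.fst ℂ ℂ ℂ))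
      (K := KA n z0 mu + 1) (K' := 1) Real.two_pi_pos.le (by have := KA_pos n z0 mu; linarith)
      zero_le_one ?_ ?_ ?_ (Aop_cont n z0 mu) continuous_const (fun z t => Y_sol n z mu x t) ?_
    · intro z hz t
      refine (Aop_norm n z mu t).trans ?_
      unfold KA
      have := hle z hz
      linarith
    · intro t
      refine ContinuousLinearMap.opNorm_le_bound _ zero_le_one fun y => ?_
      simp only [ContinuousLinearMap.prod_apply, zero_apply,
        ContinuousLinearMap.coe_fst', Prod.norm_mk, norm_zero, one_mul]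
      exact max_le (norm_nonneg _) (norm_fst_le y)
    · intro z t
      ext <;> simp [Aop_apply]
    · intro z
      rw [Y_zero, Y_zero]
  exact ((key (1, 0)).fst).add ((key (0, 1)).snd)

lemma Dl_diff_mu (n : ℕ) (lam : ℂ) : Differentiable ℂ fun mu => Dl n lam mu := by
  have key : ∀ x : ℂ × ℂ, Differentiable ℂ fun mu => Y n lam mu x (2 * Real.pi) := by
    intro x z0
    have hle : ∀ z : ℂ, ‖z - z0‖ ≤ 1 → ‖z‖ ≤ ‖z0‖ + 1 := by
      intro z hz
      calc ‖z‖ = ‖z0 + (z - z0)‖ := by rw [add_sub_cancel]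
        _ ≤ ‖z0‖ + ‖z - z0‖ := norm_add_le _ _
        _ ≤ _ := by linarith
    refine hasDerivAt_param (A := fun z t => Aop n lam z t)
      (A' := fun t => (0 : (ℂ × ℂ) →L[ℂ] ℂ).prod
        ((-(I * (2 * (Real.cos t : ℂ)))) • ContinuousLinearMap.snd ℂ ℂ ℂ))
      (K := KA n lam z0 + 2) (K' := 2) Real.two_pi_pos.le (by have := KA_pos n lam z0; linarith)
      zero_le_two ?_ ?_ ?_ (Aop_cont n lam z0) ?_ (fun z t => Y_sol n lam z x t) ?_
    · intro z hz t
      refine (Aop_norm n lam z t).trans ?_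
      unfold KA
      have := hle z hz
      linarith
    · intro t
      refine ContinuousLinearMap.opNorm_le_bound _ zero_le_two fun y => ?_
      simp only [ContinuousLinearMap.prod_apply, zero_apply,
        ContinuousLinearMap.coe_snd', smul_apply, Prod.norm_mk, norm_zero, smul_eq_mul]
      refine max_le (by positivity) ?_
      rw [norm_mul, norm_neg, norm_mul, norm_I, one_mul, norm_mul, Complex.norm_ofNat,
        Complex.norm_real, Real.norm_eq_abs]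
      have h1 := Real.abs_cos_le_one t
      have h2 := norm_snd_le y
      have h3 := abs_nonneg (Real.cos t)
      have h4 := norm_nonneg y.2
      nlinarith [norm_nonneg y]
    · intro z t
      ext <;> simp [Aop_apply, th]
      ring
    · have h1 : Continuous fun t : ℝ => (-(I * (2 * (Real.cos t : ℂ))) : ℂ) := by fun_prop
      have h2 : Continuous fun t : ℝ => (-(I * (2 * (Real.cos t : ℂ)))) • ContinuousLinearMap.snd ℂ ℂ ℂ :=
        h1.smul continuous_const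
      exact (ContinuousLinearMap.prodₗᵢ ℂ).continuous.comp
        ((continuous_const (y := (0 : (ℂ × ℂ) →L[ℂ] ℂ))).prodMk h2)
    · intro z
      rw [Y_zero, Y_zero]
  exact ((key (1, 0)).fst).add ((key (0, 1)).snd)


lemma Y_bound (n : ℕ) (lam mu : ℂ) (x : ℂ × ℂ) :
    ‖Y n lam mu x (2 * Real.pi)‖ ≤ ‖x‖ * Real.exp (KA n lam mu * (2 * Real.pi)) := by
  have h1 := norm_le_gronwallBound_of_norm_deriv_right_le (f := Y n lam mu x)
    (f' := fun t => Aop n lam mu t (Y n lam mu x t)) (δ := ‖x‖) (K := KA n lam mu)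
    (ε := 0) (a := 0) (b := 2 * Real.pi)
    (continuous_iff_continuousAt.2 fun t => (Y_sol n lam mu x t).continuousAt).continuousOn
    (fun s _ => (Y_sol n lam mu x s).hasDerivWithinAt)
    (by rw [Y_zero]) (by
      intro s _
      rw [add_zero]
      exact ((Aop n lam mu s).le_opNorm _).trans
        (mul_le_mul_of_nonneg_right (Aop_norm n lam mu s) (norm_nonneg _)))
    (2 * Real.pi) (right_mem_Icc.2 Real.two_pi_pos.le)
  rw [sub_zero, gronwallBound_ε0] at h1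
  exact h1

lemma Dl_bound (n : ℕ) (mu : ℂ) : ∃ A B : ℝ, 0 ≤ B ∧ ∀ lam, ‖Dl n lam mu - 2‖ ≤ Real.exp (A + B * ‖lam‖) := by
  refine ⟨Real.log 4 + (1 + ((n:ℝ) + 1 + 2 * ‖mu‖)) * (2 * Real.pi), 2 * Real.pi, by positivity, ?_⟩
  intro lam
  have h1 := Y_bound n lam mu (1, 0)
  have h2 := Y_bound n lam mu (0, 1)
  rw [show ‖((1, 0) : ℂ × ℂ)‖ = 1 by simp [Prod.norm_def], one_mul] at h1
  rw [show ‖((0, 1) : ℂ × ℂ)‖ = 1 by simp [Prod.norm_def], one_mul] at h2
  have h3 := (norm_fst_le (Y n lam mu (1, 0) (2 * Real.pi))).trans h1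
  have h4 := (norm_snd_le (Y n lam mu (0, 1) (2 * Real.pi))).trans h2
  have e1 : Real.exp (Real.log 4 + (1 + ((n:ℝ) + 1 + 2 * ‖mu‖)) * (2 * Real.pi) + 2 * Real.pi * ‖lam‖) =
      4 * Real.exp (KA n lam mu * (2 * Real.pi)) := by
    rw [add_assoc, Real.exp_add, Real.exp_log (by norm_num)]
    congr 2
    unfold KA
    ring
  rw [e1]
  have h5 : 1 ≤ Real.exp (KA n lam mu * (2 * Real.pi)) :=
    Real.one_le_exp (mul_nonneg (KA_pos n lam mu).le Real.two_pi_pos.le)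
  unfold Dl
  refine (norm_sub_le _ _).trans ?_
  rw [Complex.norm_ofNat]
  have := norm_add_le (Y n lam mu (1, 0) (2 * Real.pi)).1 (Y n lam mu (0, 1) (2 * Real.pi)).2
  linarith

/-- Wronskian. -/
lemma VS.wr {n : ℕ} {lam mu : ℂ} {v q v' q' : ℝ → ℂ} (h : VS n lam mu v q) (h' : VS n lam mu v' q')
    (t : ℝ) : (v t * q' t - q t * v' t) *
      exp (I * (((n:ℂ) + 1) * t + 2 * mu * (Real.sin t : ℂ))) = v 0 * q' 0 - q 0 * v' 0 := by
  have hd : ∀ t : ℝ, HasDerivAt (fun t : ℝ => (v t * q' t - q t * v' t) *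
      exp (I * (((n:ℂ) + 1) * t + 2 * mu * (Real.sin t : ℂ)))) 0 t := by
    intro t
    have h1 := ((h.dv t).mul (h'.dq t)).sub ((h.dq t).mul (h'.dv t))
    have h2 : HasDerivAt (fun t : ℝ => I * (((n:ℂ) + 1) * t + 2 * mu * (Real.sin t : ℂ)))
        (I * (((n:ℂ) + 1) * 1 + 2 * mu * (Real.cos t : ℂ))) t := by
      have h3 : HasDerivAt (fun t : ℝ => (t:ℂ)) 1 t := ofRealCLM.hasDerivAt
      have h4 : HasDerivAt (fun t : ℝ => ((Real.sin t : ℝ) : ℂ)) ((Real.cos t : ℝ) : ℂ) t :=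
        (Real.hasDerivAt_sin t).ofReal_comp
      exact ((h3.const_mul _).add (h4.const_mul _)).const_mul I
    refine (h1.mul h2.cexp).congr_deriv ?_
    simp only [th, Pi.mul_apply, Pi.sub_apply]
    ring
  have hc := is_const_of_deriv_eq_zero (fun t => (hd t).differentiableAt) (fun t => (hd t).deriv) t 0
  rw [hc]
  simp

lemma exp_two_pi (n : ℕ) (mu : ℂ) :
    exp (I * (((n:ℂ) + 1) * ((2 * Real.pi : ℝ) : ℂ) + 2 * mu * (Real.sin (2 * Real.pi) : ℂ))) = 1 := by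
  rw [Real.sin_two_pi, exp_eq_one_iff]
  exact ⟨n + 1, by push_cast; ring⟩

lemma VS.wr_two_pi {n : ℕ} {lam mu : ℂ} {v q v' q' : ℝ → ℂ} (h : VS n lam mu v q)
    (h' : VS n lam mu v' q') : v (2 * Real.pi) * q' (2 * Real.pi) - q (2 * Real.pi) * v' (2 * Real.pi) =
      v 0 * q' 0 - q 0 * v' 0 := by
  have := h.wr h' (2 * Real.pi)
  rw [exp_two_pi, mul_one] at this
  exact this

/-- The time `2 pi` matrix in the standard basis has determinant one. -/
lemma det_one (n : ℕ) (lam mu : ℂ) :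
    (Y n lam mu (1, 0) (2 * Real.pi)).1 * (Y n lam mu (0, 1) (2 * Real.pi)).2 -
      (Y n lam mu (1, 0) (2 * Real.pi)).2 * (Y n lam mu (0, 1) (2 * Real.pi)).1 = 1 := by
  have := (Y_VS n lam mu (1, 0)).wr_two_pi (Y_VS n lam mu (0, 1))
  simpa [Y_zero] using this

lemma VS.at_two_pi {n : ℕ} {lam mu : ℂ} {v q : ℝ → ℂ} (h : VS n lam mu v q) (t : ℝ) :
    v t = v 0 * (Y n lam mu (1, 0) t).1 + q 0 * (Y n lam mu (0, 1) t).1 ∧
    q t = v 0 * (Y n lam mu (1, 0) t).2 + q 0 * (Y n lam mu (0, 1) t).2 := by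
  have h1 := congrFun h.eq_Y t
  rw [Y_lin] at h1
  have h2 := congrArg Prod.fst h1
  have h3 := congrArg Prod.snd h1
  simp only [Prod.fst_add, Prod.snd_add, Prod.smul_fst, Prod.smul_snd, smul_eq_mul] at h2 h3
  exact ⟨h2, h3⟩

/-- Trace through any pair of solutions. -/
lemma trace_pair {n : ℕ} {lam mu : ℂ} {v q v' q' : ℝ → ℂ} (h : VS n lam mu v q)
    (h' : VS n lam mu v' q') :
    v (2 * Real.pi) * q' 0 - q (2 * Real.pi) * v' 0 + (v 0 * q' (2 * Real.pi) - q 0 * v' (2 * Real.pi)) =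
      Dl n lam mu * (v 0 * q' 0 - q 0 * v' 0) := by
  obtain ⟨h1, h2⟩ := h.at_two_pi (2 * Real.pi)
  obtain ⟨h3, h4⟩ := h'.at_two_pi (2 * Real.pi)
  rw [h1, h2, h3, h4, Dl]
  ring

end Pool.Agent.V7H91.PL
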