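import Pool.Agent.V7H91.PL.Zer
import Pool.Agent.H535R3.KI

set_option autoImplicit false
open Set Filter Topology Complex ComplexConjugate

namespace Pool.Agent.V7H91.PL
open H535R3

/-- First component attached to a solution. -/
noncomputable def Vf (n : ℕ) (mu e : ℝ) (φ : ℝ → ℝ) (t : ℝ) : ℂ :=
  exp (((e * Cc φ t : ℝ) : ℂ) + I * (((φ t - (n + 1) * t) / 2 - mu * Real.sin t : ℝ) : ℂ))

/-- Second component attached to a solution. -/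
noncomputable def Qf (n : ℕ) (mu e : ℝ) (φ : ℝ → ℝ) (t : ℝ) : ℂ :=
  e * exp (((e * Cc φ t : ℝ) : ℂ) - I * (((φ t + (n + 1) * t) / 2 + mu * Real.sin t : ℝ) : ℂ))

lemma Vf_Qf (n : ℕ) (mu e : ℝ) (φ : ℝ → ℝ) (t : ℝ) :
    Qf n mu e φ t = e * ((Real.cos (φ t) : ℂ) - I * Real.sin (φ t)) * Vf n mu e φ t := by
  have e3 : (Real.cos (φ t) - I * Real.sin (φ t) : ℂ) = exp (-(I * (φ t : ℝ))) := by
    rw [show -(I * ((φ t : ℝ):ℂ)) = ((-(φ t) : ℝ) : ℂ) * I by push_cast; ring, exp_mul_I]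
    push_cast
    rw [Complex.cos_neg, Complex.sin_neg]; ring
  rw [e3, Vf, Qf, mul_assoc, ← exp_add]
  congr 2
  push_cast; ring

lemma VS_of_sol {n : ℕ} {mu e : ℝ} {φ : ℝ → ℝ} (h : Sol (n + 1) (2 * mu) (2 * e) φ) :
    VS n ((e:ℂ) ^ 2) mu (Vf n mu e φ) (Qf n mu e φ) := by
  have hC : ∀ t, HasDerivAt (fun t => ((e * Cc φ t : ℝ) : ℂ)) ((e * Real.cos (φ t) : ℝ) : ℂ) t :=
    fun t => ((Cc_deriv h.cont t).const_mul e).ofReal_comp
  constructor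
  · intro t
    have h2 : HasDerivAt (fun t => ((φ t - (n + 1) * t) / 2 - mu * Real.sin t : ℝ))
        (((n + 1 + 2 * mu * Real.cos t - 2 * e * Real.sin (φ t)) - ((n:ℝ) + 1) * 1) / 2 -
          mu * Real.cos t) t :=
      (((h t).sub ((hasDerivAt_id t).const_mul ((n:ℝ) + 1))).div_const 2).sub
        ((Real.hasDerivAt_sin t).const_mul mu)
    refine ((hC t).add (h2.ofReal_comp.const_mul I)).cexp.congr_deriv ?_
    rw [Vf_Qf]
    have e0 : exp (((e * Cc φ t : ℝ) : ℂ) + I * (((φ t - (n + 1) * t) / 2 - mu * Real.sin t : ℝ) : ℂ)) =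
      Vf n mu e φ t := rfl
    simp only [Pi.add_apply]
    rw [e0]
    push_cast
    ring
  · intro t
    have h2 : HasDerivAt (fun t => ((φ t + (n + 1) * t) / 2 + mu * Real.sin t : ℝ))
        (((n + 1 + 2 * mu * Real.cos t - 2 * e * Real.sin (φ t)) + ((n:ℝ) + 1) * 1) / 2 +
          mu * Real.cos t) t :=
      (((h t).add ((hasDerivAt_id t).const_mul ((n:ℝ) + 1))).div_const 2).add
        ((Real.hasDerivAt_sin t).const_mul mu)
    refine (((hC t).sub (h2.ofReal_comp.const_mul I)).cexp.const_mul (e:ℂ)).congr_deriv ?_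
    have e1 : (e:ℂ) ^ 2 * Vf n mu e φ t = e * ((Real.cos (φ t) : ℂ) + I * Real.sin (φ t)) * Qf n mu e φ t := by
      rw [Vf_Qf]
      have hcs : (Real.cos (φ t) : ℂ) ^ 2 + (Real.sin (φ t) : ℂ) ^ 2 = 1 := by
        rw [← ofReal_pow, ← ofReal_pow, ← ofReal_add, add_comm, Real.sin_sq_add_cos_sq]; simp
      linear_combination (-(e:ℂ) ^ 2 * Vf n mu e φ t) * hcs - (e:ℂ) ^ 2 * Vf n mu e φ t *
        (Real.sin (φ t) : ℂ) ^ 2 * (-1) * I_sq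
    rw [e1, th]
    have e0 : (e:ℂ) * exp (((e * Cc φ t : ℝ) : ℂ) - I * (((φ t + (n + 1) * t) / 2 + mu * Real.sin t : ℝ) : ℂ)) =
      Qf n mu e φ t := rfl
    simp only [Pi.sub_apply]
    rw [← mul_assoc, e0]
    push_cast
    ring

/-- Data at time `2 pi`. -/
lemma VQ_zero (n : ℕ) (mu e x : ℝ) :
    Vf n mu e (fl (n + 1) (2 * mu) (2 * e) x) 0 = exp (I * ((x / 2 : ℝ) : ℂ)) ∧
    Qf n mu e (fl (n + 1) (2 * mu) (2 * e) x) 0 = e * exp (-(I * ((x / 2 : ℝ) : ℂ))) := by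
  constructor
  · rw [Vf, fl_zero, Cc_zero]; simp
  · rw [Qf, fl_zero, Cc_zero]; simp

lemma VQ_two_pi (n : ℕ) (mu e x : ℝ) :
    Vf n mu e (fl (n + 1) (2 * mu) (2 * e) x) (2 * Real.pi) =
      (Real.exp (Kx (n + 1) (2 * mu) (2 * e) x) : ℝ) *
        exp (I * (((P (n + 1) (2 * mu) (2 * e) x - 2 * Real.pi * (n + 1)) / 2 : ℝ) : ℂ)) ∧
    Qf n mu e (fl (n + 1) (2 * mu) (2 * e) x) (2 * Real.pi) =
      e * ((Real.exp (Kx (n + 1) (2 * mu) (2 * e) x) : ℝ) *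
        exp (-(I * (((P (n + 1) (2 * mu) (2 * e) x - 2 * Real.pi * (n + 1)) / 2 : ℝ) : ℂ)))) := by
  have hK : Kx (n + 1) (2 * mu) (2 * e) x = e * Cc (fl (n + 1) (2 * mu) (2 * e) x) (2 * Real.pi) := by
    rw [Kx]; ring
  constructor
  · rw [Vf, hK, ofReal_exp, ← exp_add, P, Real.sin_two_pi]
    congr 2
    push_cast; ring
  · rw [Qf, hK, ofReal_exp, ← exp_add, P, Real.sin_two_pi]
    congr 1
    rw [exp_eq_exp_iff_exists_int]
    refine ⟨-(n + 1), ?_⟩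
    push_cast; ring

lemma two_sin (x : ℝ) : exp (I * (x:ℂ)) - exp (-(I * (x:ℂ))) = 2 * I * (Real.sin x : ℂ) := by
  rw [ofReal_sin, Complex.sin, show I * (x:ℂ) = x * I by ring, show -(↑x * I) = -(x:ℂ) * I by ring]
  linear_combination (exp ((x:ℂ) * I) - exp (-(x:ℂ) * I)) * I_sq

lemma trace_xy {n : ℕ} {mu e : ℝ} (he : e ≠ 0) (x y : ℝ) :
    ((Real.exp (Kx (n + 1) (2 * mu) (2 * e) x) *
      Real.sin ((P (n + 1) (2 * mu) (2 * e) x - 2 * Real.pi * (n + 1) - y) / 2) +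
     Real.exp (Kx (n + 1) (2 * mu) (2 * e) y) *
      Real.sin ((x - (P (n + 1) (2 * mu) (2 * e) y - 2 * Real.pi * (n + 1))) / 2) : ℝ) : ℂ) =
    Dl n ((e:ℂ) ^ 2) mu * ((Real.sin ((x - y) / 2) : ℝ) : ℂ) := by
  have h := trace_pair (VS_of_sol (fl_sol (n + 1) (2 * mu) (2 * e) x))
    (VS_of_sol (fl_sol (n + 1) (2 * mu) (2 * e) y))
  obtain ⟨a1, a2⟩ := VQ_zero n mu e x
  obtain ⟨b1, b2⟩ := VQ_zero n mu e y
  obtain ⟨c1, c2⟩ := VQ_two_pi n mu e x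
  obtain ⟨d1, d2⟩ := VQ_two_pi n mu e y
  rw [a1, a2, b1, b2, c1, c2, d1, d2] at h
  generalize Real.exp (Kx (n + 1) (2 * mu) (2 * e) x) = Wx at *
  generalize Real.exp (Kx (n + 1) (2 * mu) (2 * e) y) = Wy at *
  set X := (P (n + 1) (2 * mu) (2 * e) x - 2 * Real.pi * (n + 1)) with hX
  set Z := (P (n + 1) (2 * mu) (2 * e) y - 2 * Real.pi * (n + 1)) with hZ
  have e1 := two_sin ((X - y) / 2)
  have e2 := two_sin ((x - Z) / 2)
  have e3 := two_sin ((x - y) / 2)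
  have f1 : exp (I * (((X - y) / 2 : ℝ) : ℂ)) = exp (I * ((X / 2 : ℝ) : ℂ)) * exp (-(I * ((y / 2 : ℝ) : ℂ))) := by
    rw [← exp_add]; congr 1; push_cast; ring
  have f2 : exp (-(I * (((X - y) / 2 : ℝ) : ℂ))) = exp (-(I * ((X / 2 : ℝ) : ℂ))) * exp (I * ((y / 2 : ℝ) : ℂ)) := by
    rw [← exp_add]; congr 1; push_cast; ring
  have f3 : exp (I * (((x - Z) / 2 : ℝ) : ℂ)) = exp (I * ((x / 2 : ℝ) : ℂ)) * exp (-(I * ((Z / 2 : ℝ) : ℂ))) := by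
    rw [← exp_add]; congr 1; push_cast; ring
  have f4 : exp (-(I * (((x - Z) / 2 : ℝ) : ℂ))) = exp (-(I * ((x / 2 : ℝ) : ℂ))) * exp (I * ((Z / 2 : ℝ) : ℂ)) := by
    rw [← exp_add]; congr 1; push_cast; ring
  have f5 : exp (I * (((x - y) / 2 : ℝ) : ℂ)) = exp (I * ((x / 2 : ℝ) : ℂ)) * exp (-(I * ((y / 2 : ℝ) : ℂ))) := by
    rw [← exp_add]; congr 1; push_cast; ring
  have f6 : exp (-(I * (((x - y) / 2 : ℝ) : ℂ))) = exp (-(I * ((x / 2 : ℝ) : ℂ))) * exp (I * ((y / 2 : ℝ) : ℂ)) := by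
    rw [← exp_add]; congr 1; push_cast; ring
  rw [f1, f2] at e1
  rw [f3, f4] at e2
  rw [f5, f6] at e3
  have he' : (2 * I * e : ℂ) ≠ 0 :=
    mul_ne_zero (mul_ne_zero two_ne_zero I_ne_zero) (ofReal_ne_zero.2 he)
  apply mul_left_cancel₀ he'
  push_cast
  push_cast at h e1 e2 e3
  linear_combination h - (e:ℂ) * Wx * e1 - (e:ℂ) * Wy * e2 + (e:ℂ) * Dl n ((e:ℂ) ^ 2) mu * e3

end Pool.Agent.V7H91.PL
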