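import Pool.Agent.V7H91.PL.Sys
import Pool.Agent.H535R3.JE

set_option autoImplicit false
open Set Filter Topology Complex ComplexConjugate

namespace Pool.Agent.V7H91.PL
open H535R3 (cf cf_bound cf_expand exp_per)

/-- Fourier coefficients of a derivative. -/
lemma cf_deriv {f g : ℝ → ℂ} (hf : ∀ t, HasDerivAt f (g t) t) (hg : Continuous g)
    (hper : ∀ t, f (t + 2 * Real.pi) = f t) (k : ℤ) : cf g k = I * k * cf f k := by
  have hcont : Continuous f := continuous_iff_continuousAt.2 fun t => (hf t).continuousAt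
  have hd : ∀ t : ℝ, HasDerivAt (fun t : ℝ => f t * exp (-(I * k * t)))
      (g t * exp (-(I * k * t)) + f t * (exp (-(I * k * t)) * (-(I * k)))) t := by
    intro t
    have h1 : HasDerivAt (fun t : ℝ => exp (-(I * k * (t : ℂ)))) (exp (-(I * k * t)) * (-(I * k))) t := by
      have h2 : HasDerivAt (fun t : ℝ => -(I * k * (t : ℂ))) (-(I * k * 1)) t :=
        ((ofRealCLM.hasDerivAt (x := t)).const_mul (I * k)).neg
      rw [mul_one] at h2
      exact h2.cexp
    exact (hf t).mul h1
  have hint := intervalIntegral.integral_eq_sub_of_hasDerivAt (a := -Real.pi) (b := Real.pi)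
    (fun t _ => hd t) (Continuous.intervalIntegrable (by fun_prop) _ _)
  have hbd : f Real.pi * exp (-(I * k * (Real.pi : ℝ))) =
      f (-Real.pi) * exp (-(I * k * ((-Real.pi : ℝ) : ℂ))) := by
    have h1 := hper (-Real.pi)
    have h2 := exp_per k (-Real.pi)
    rw [show -Real.pi + 2 * Real.pi = Real.pi by ring] at h1 h2
    rw [h1, h2]
  rw [hbd, sub_self, intervalIntegral.integral_add (Continuous.intervalIntegrable (by fun_prop) _ _)
    (Continuous.intervalIntegrable (by fun_prop) _ _)] at hint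
  have h3 : ∫ t in (-Real.pi)..Real.pi, f t * (exp (-(I * k * t)) * (-(I * k))) =
      (-(I * k)) * ∫ t in (-Real.pi)..Real.pi, f t * exp (-(I * k * t)) := by
    rw [← intervalIntegral.integral_const_mul]
    congr 1
    funext t; ring
  rw [h3] at hint
  unfold cf
  linear_combination ((1 / (2 * Real.pi) : ℝ) : ℂ) * hint

lemma cf_cos {f : ℝ → ℂ} (hf : Continuous f) (k : ℤ) :
    cf (fun t => (Real.cos t : ℂ) * f t) k = (cf f (k - 1) + cf f (k + 1)) / 2 := by
  unfold cf
  have h1 : ∀ t : ℝ, (Real.cos t : ℂ) * f t * exp (-(I * k * t)) =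
      (1 / 2 : ℂ) * (f t * exp (-(I * ((k - 1 : ℤ) : ℂ) * t))) +
      (1 / 2 : ℂ) * (f t * exp (-(I * ((k + 1 : ℤ) : ℂ) * t))) := by
    intro t
    have e1 : exp (-(I * ((k - 1 : ℤ) : ℂ) * t)) = exp (-(I * k * t)) * exp (t * I) := by
      rw [← exp_add]; congr 1; push_cast; ring
    have e2 : exp (-(I * ((k + 1 : ℤ) : ℂ) * t)) = exp (-(I * k * t)) * exp (-t * I) := by
      rw [← exp_add]; congr 1; push_cast; ring
    rw [e1, e2, Complex.ofReal_cos, Complex.cos]
    ring
  simp_rw [h1]
  rw [intervalIntegral.integral_add (Continuous.intervalIntegrable (by fun_prop) _ _)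
    (Continuous.intervalIntegrable (by fun_prop) _ _), intervalIntegral.integral_const_mul,
    intervalIntegral.integral_const_mul]
  ring

lemma cf_lin {f g : ℝ → ℂ} (hf : Continuous f) (hg : Continuous g) (a b : ℂ) (k : ℤ) :
    cf (fun t => a * f t + b * g t) k = a * cf f k + b * cf g k := by
  unfold cf
  have h1 : ∀ t : ℝ, (a * f t + b * g t) * exp (-(I * k * t)) =
      a * (f t * exp (-(I * k * t))) + b * (g t * exp (-(I * k * t))) := by
    intro t; ring
  simp_rw [h1]
  rw [intervalIntegral.integral_add (Continuous.intervalIntegrable (by fun_prop) _ _)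
    (Continuous.intervalIntegrable (by fun_prop) _ _), intervalIntegral.integral_const_mul,
    intervalIntegral.integral_const_mul]
  ring

/-- A decaying one-sided solution of the recursion vanishes for nonreal parameter. -/
lemma one_side {R : ℕ → ℂ} {lam : ℂ} {a : ℕ → ℝ} {b : ℝ} (h0 : R 0 = 0)
    (hrec : ∀ k : ℕ, lam * R (k + 1) / ((k:ℂ) + 1) = a k * R (k + 1) + b * (R k + R (k + 2)))
    (hlim : Tendsto R atTop (𝓝 0)) (hl : lam.im ≠ 0) (k : ℕ) : R k = 0 := by
  set S : ℕ → ℝ := fun N => ∑ k ∈ Finset.range N, normSq (R (k + 1)) / ((k:ℝ) + 1) with hS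
  have hmono : Monotone S := by
    refine monotone_nat_of_le_succ fun N => ?_
    simp only [hS]
    rw [Finset.sum_range_succ]
    have : 0 ≤ normSq (R (N + 1)) / ((N:ℝ) + 1) := div_nonneg (normSq_nonneg _) (by positivity)
    linarith
  have key : ∀ N : ℕ, lam.im * S N = b * (R (N + 1) * conj (R N)).im := by
    intro N
    induction N with
    | zero => simp [hS, h0]
    | succ N ih =>
      have h1 := hrec N
      have h2 : lam.im * (normSq (R (N + 1)) / ((N:ℝ) + 1)) =
          b * (R N * conj (R (N + 1))).im + b * (R (N + 2) * conj (R (N + 1))).im := by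
        have h3 : lam * R (N + 1) / ((N:ℂ) + 1) * conj (R (N + 1)) =
            lam * ((normSq (R (N + 1)) / ((N:ℝ) + 1) : ℝ) : ℂ) := by
          rw [ofReal_div, ← mul_conj]; push_cast; ring
        have h4 : lam * ((normSq (R (N + 1)) / ((N:ℝ) + 1) : ℝ) : ℂ) =
            ((a N * normSq (R (N + 1)) : ℝ) : ℂ) + ((b : ℝ) : ℂ) * (R N * conj (R (N + 1))) +
            ((b : ℝ) : ℂ) * (R (N + 2) * conj (R (N + 1))) := by
          rw [← h3, h1, ofReal_mul, ← mul_conj]; ring
        have h5 := congrArg Complex.im h4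
        simp only [add_im, im_mul_ofReal, ofReal_im, im_ofReal_mul, zero_add] at h5
        exact h5
      have h6 : (R N * conj (R (N + 1))).im = -(R (N + 1) * conj (R N)).im := by
        have : R N * conj (R (N + 1)) = conj (R (N + 1) * conj (R N)) := by
          rw [map_mul, conj_conj]; ring
        rw [this, conj_im]
      have h7 : S (N + 1) = S N + normSq (R (N + 1)) / ((N:ℝ) + 1) := by
        simp only [hS]; rw [Finset.sum_range_succ]
      rw [h7, mul_add, ih, h2, h6]
      ring
  have hl1 : Tendsto (fun N => lam.im * S N) atTop (𝓝 0) := by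
    simp_rw [key]
    have h1 : Tendsto (fun N => R (N + 1)) atTop (𝓝 0) := hlim.comp (tendsto_add_atTop_nat 1)
    have h2 : Tendsto (fun N => R (N + 1) * conj (R N)) atTop (𝓝 (0 * conj 0)) :=
      h1.mul ((continuous_conj.tendsto _).comp hlim)
    rw [zero_mul] at h2
    have h3 := ((continuous_im.tendsto _).comp h2).const_mul b
    simpa using h3
  have hl2 : Tendsto S atTop (𝓝 0) := by
    have := hl1.const_mul (lam.im)⁻¹
    rw [mul_zero] at this
    refine this.congr fun N => ?_
    rw [← mul_assoc, inv_mul_cancel₀ hl, one_mul]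
  have hz : ∀ N, S N = 0 := by
    intro N
    have h1 : S N ≤ 0 := hmono.ge_of_tendsto hl2 N
    have h2 : S 0 ≤ S N := hmono (Nat.zero_le N)
    have h3 : S 0 = 0 := by simp [hS]
    linarith
  rcases k with _ | k
  · exact h0
  · have h1 : S (k + 1) = S k + normSq (R (k + 1)) / ((k:ℝ) + 1) := by
      simp only [hS]; rw [Finset.sum_range_succ]
    rw [hz, hz, zero_add] at h1
    have h2 : normSq (R (k + 1)) = 0 := by
      have h3 : ((k:ℝ) + 1) ≠ 0 := by positivity
      field_simp at h1
      linarith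
    exact normSq_eq_zero.1 h2

lemma VS.per {n : ℕ} {lam mu : ℂ} {v q : ℝ → ℂ} (h : VS n lam mu v q)
    (hv : v (2 * Real.pi) = v 0) (hq : q (2 * Real.pi) = q 0) (t : ℝ) :
    v (t + 2 * Real.pi) = v t ∧ q (t + 2 * Real.pi) = q t := by
  have h1 : VS n lam mu (fun t => v (t + 2 * Real.pi)) (fun t => q (t + 2 * Real.pi)) := by
    constructor
    · intro t
      exact (h.dv (t + 2 * Real.pi)).comp_add_const t (2 * Real.pi)
    · intro t
      have := (h.dq (t + 2 * Real.pi)).comp_add_const t (2 * Real.pi)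
      refine this.congr_deriv ?_
      unfold th
      rw [Real.cos_add_two_pi]
  have h2 := h1.eq_Y
  have h3 := h.eq_Y
  simp only [zero_add, hv, hq] at h2
  rw [← h3] at h2
  have h4 := congrFun h2 t
  simp only [Prod.mk.injEq] at h4
  exact h4

/-- A fixed vector of the time `2 pi` map. -/
lemma fixed_vec {n : ℕ} {lam mu : ℂ} (h : Dl n lam mu = 2) :
    ∃ v q : ℝ → ℂ, VS n lam mu v q ∧ v (2 * Real.pi) = v 0 ∧ q (2 * Real.pi) = q 0 ∧
      (v 0 ≠ 0 ∨ q 0 ≠ 0) := by
  have hd := det_one n lam mu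
  unfold Dl at h
  set a := (Y n lam mu (1, 0) (2 * Real.pi)).1
  set b := (Y n lam mu (0, 1) (2 * Real.pi)).1
  set c := (Y n lam mu (1, 0) (2 * Real.pi)).2
  set d := (Y n lam mu (0, 1) (2 * Real.pi)).2
  have hdet : (!![a - 1, b; c, d - 1]).det = 0 := by
    rw [Matrix.det_fin_two_of]
    linear_combination hd - h
  obtain ⟨x, hx, hM⟩ := Matrix.exists_mulVec_eq_zero_iff.2 hdet
  have h1 := congrFun hM 0
  have h2 := congrFun hM 1
  simp only [Matrix.mulVec, dotProduct, Fin.sum_univ_two, Matrix.of_apply, Matrix.cons_val', Matrix.cons_val_zero,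
    Matrix.cons_val_one, Matrix.cons_val_fin_one, Pi.zero_apply] at h1 h2
  refine ⟨_, _, Y_VS n lam mu (x 0, x 1), ?_, ?_, ?_⟩
  · rw [Y_lin, Y_zero]
    simp only [Prod.fst_add, Prod.smul_fst, smul_eq_mul]
    linear_combination h1
  · rw [Y_lin, Y_zero]
    simp only [Prod.snd_add, Prod.smul_snd, smul_eq_mul]
    linear_combination h2
  · rw [Y_zero]
    by_contra hc
    push Not at hc
    apply hx
    funext i
    fin_cases i
    · exact hc.1
    · exact hc.2

/-- The zeros of `Dl - 2` are real. -/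
theorem zeros_real {n : ℕ} {lam : ℂ} {mu : ℝ} (h : Dl n lam mu - 2 = 0) : lam.im = 0 := by
  by_contra hl
  obtain ⟨v, q, hvs, hv, hq, hne⟩ := fixed_vec (sub_eq_zero.1 h)
  have hvc : Continuous v := continuous_iff_continuousAt.2 fun t => (hvs.dv t).continuousAt
  have hqc : Continuous q := continuous_iff_continuousAt.2 fun t => (hvs.dq t).continuousAt
  have hper := hvs.per hv hq
  have c1 : ∀ k : ℤ, cf q k = I * k * cf v k := cf_deriv hvs.dv hqc fun t => (hper t).1
  have c2 : ∀ k : ℤ, I * k * cf q k = lam * cf v k - I * (((n:ℂ) + 1) * cf q k +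
      mu * (cf q (k - 1) + cf q (k + 1))) := by
    intro k
    rw [← cf_deriv hvs.dq (by have := th_cont n (mu:ℂ); fun_prop) (fun t => (hper t).2) k]
    have h1 : (fun t : ℝ => lam * v t - I * th n mu t * q t) = fun t : ℝ =>
        1 * (lam * v t + (-(I * ((n:ℂ) + 1))) * q t) + (-(2 * I * mu)) * ((Real.cos t : ℂ) * q t) := by
      funext t; unfold th; ring
    rw [h1, cf_lin (f := fun t => lam * v t + (-(I * ((n:ℂ) + 1))) * q t)
      (g := fun t => (Real.cos t : ℂ) * q t) (by fun_prop) (by fun_prop),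
      cf_lin hvc hqc, cf_cos hqc]
    ring
  have hq0 : cf q 0 = 0 := by rw [c1]; simp
  obtain ⟨C, hC⟩ := ((show Function.Periodic q (2 * Real.pi) from fun t => (hper t).2).isBounded_of_continuous
    Real.two_pi_pos.ne' hqc).exists_norm_le
  have hQb : ∀ k, ‖cf q k‖ ≤ C := fun k => cf_bound (fun t => hC _ (mem_range_self t)) k
  obtain ⟨C', hC'⟩ := ((show Function.Periodic v (2 * Real.pi) from fun t => (hper t).1).isBounded_of_continuous
    Real.two_pi_pos.ne' hvc).exists_norm_le
  have hVb : ∀ k, ‖cf v k‖ ≤ C' := fun k => cf_bound (fun t => hC' _ (mem_range_self t)) k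
  set D : ℝ := ‖lam‖ * C' + (((n:ℝ) + 1) * C + |mu| * (C + C)) with hD
  have hdec : ∀ k : ℤ, |(k:ℝ)| * ‖cf q k‖ ≤ D := by
    intro k
    have h1 : ‖I * k * cf q k‖ = |(k:ℝ)| * ‖cf q k‖ := by
      rw [norm_mul, norm_mul, norm_I, one_mul, Complex.norm_intCast]
    rw [← h1, c2]
    refine (norm_sub_le _ _).trans ?_
    rw [norm_mul, norm_mul, norm_I, one_mul]
    have h2 := norm_add_le (((n:ℂ) + 1) * cf q k) (mu * (cf q (k - 1) + cf q (k + 1)))
    have h3 := norm_add_le (cf q (k - 1)) (cf q (k + 1))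
    rw [norm_mul, norm_mul, Complex.norm_real, Real.norm_eq_abs] at h2
    have h4 : ‖(n:ℂ) + 1‖ = (n:ℝ) + 1 := by
      rw [show (n:ℂ) + 1 = (((n:ℝ) + 1 : ℝ) : ℂ) by push_cast; ring, Complex.norm_real,
        Real.norm_of_nonneg (by positivity)]
    rw [h4] at h2
    have h5 := mul_le_mul_of_nonneg_left (hVb k) (norm_nonneg lam)
    have h6 := mul_le_mul_of_nonneg_left (hQb k) (by positivity : (0:ℝ) ≤ (n:ℝ) + 1)
    have h7 := mul_le_mul_of_nonneg_left (h3.trans (add_le_add (hQb (k - 1)) (hQb (k + 1)))) (abs_nonneg mu)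
    linarith
  have hrec : ∀ k : ℤ, k ≠ 0 → lam * cf q k / k = -(((k:ℂ) + (n + 1)) * cf q k +
      mu * (cf q (k - 1) + cf q (k + 1))) := by
    intro k hk
    have hk' : (k:ℂ) ≠ 0 := by exact_mod_cast hk
    have h1 := c1 k
    have h2 := c2 k
    have h3 : cf v k = -I * cf q k / k := by
      rw [h1]; field_simp
      linear_combination (cf v k) * I_sq
    rw [h3] at h2
    have h4 : I * (lam * cf q k / k) = I * (-(((k:ℂ) + (n + 1)) * cf q k +
      mu * (cf q (k - 1) + cf q (k + 1)))) := by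
      linear_combination h2
    exact mul_left_cancel₀ I_ne_zero h4
  have hlimz : ∀ g : ℕ → ℤ, (∀ k, |((g k : ℤ):ℝ)| = k) → Tendsto (fun k => cf q (g k)) atTop (𝓝 0) := by
    intro g hg
    rw [tendsto_zero_iff_norm_tendsto_zero]
    have hb : Tendsto (fun k : ℕ => D / (k:ℝ)) atTop (𝓝 0) :=
      tendsto_const_nhds.div_atTop tendsto_natCast_atTop_atTop
    refine squeeze_zero' (Eventually.of_forall fun k => norm_nonneg _) ?_ hb
    filter_upwards [eventually_gt_atTop 0] with k hk
    have hk' : (0:ℝ) < k := by exact_mod_cast hk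
    rw [le_div_iff₀ hk', mul_comm]
    have := hdec (g k)
    rwa [hg] at this
  have hpos : ∀ k : ℕ, cf q k = 0 := by
    refine one_side (R := fun k : ℕ => cf q k) (lam := lam)
      (a := fun k => -(((k:ℝ) + 1) + (n + 1))) (b := -mu) (by simpa using hq0) ?_ ?_ hl
    · intro k
      have h1 := hrec ((k + 1 : ℕ) : ℤ) (by positivity)
      have e1 : (((k + 1 : ℕ) : ℤ) - 1) = (k : ℤ) := by push_cast; ring
      have e2 : (((k + 1 : ℕ) : ℤ) + 1) = ((k + 2 : ℕ) : ℤ) := by push_cast; ring
      rw [e1, e2] at h1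
      push_cast at h1 ⊢
      rw [h1]; ring
    · exact hlimz (fun k => (k:ℤ)) (fun k => by simp)
  have hneg : ∀ k : ℕ, cf q (-(k:ℤ)) = 0 := by
    refine one_side (R := fun k : ℕ => cf q (-(k:ℤ))) (lam := lam)
      (a := fun k => (-((k:ℝ) + 1) + (n + 1))) (b := mu) (by simpa using hq0) ?_ ?_ hl
    · intro k
      have h1 := hrec (-((k + 1 : ℕ) : ℤ)) (by
        have : ((k + 1 : ℕ) : ℤ) ≠ 0 := by positivity
        exact neg_ne_zero.2 this)
      have e1 : (-((k + 1 : ℕ) : ℤ) + 1) = -(k : ℤ) := by push_cast; ring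
      have e2 : (-((k + 1 : ℕ) : ℤ) - 1) = -((k + 2 : ℕ) : ℤ) := by push_cast; ring
      rw [e1, e2] at h1
      have hk : ((k:ℂ) + 1) ≠ 0 := by
        have : ((k:ℂ) + 1) = (((k:ℝ) + 1 : ℝ) : ℂ) := by push_cast; ring
        rw [this]
        exact ofReal_ne_zero.2 (by positivity)
      have e3 : lam * cf q (-((k + 1 : ℕ) : ℤ)) / ((-((k + 1 : ℕ) : ℤ) : ℤ) : ℂ) =
          -(lam * cf q (-((k + 1 : ℕ) : ℤ)) / ((k:ℂ) + 1)) := by
        push_cast
        rw [div_neg]
      rw [e3] at h1
      push_cast at h1 ⊢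
      linear_combination -h1
    · exact hlimz (fun k => -(k:ℤ)) (fun k => by simp)
  have hall : ∀ k : ℤ, cf q k = 0 := by
    intro k
    rcases le_total 0 k with hk | hk
    · have := hpos k.toNat
      rwa [Int.toNat_of_nonneg hk] at this
    · have := hneg (-k).toNat
      rwa [Int.toNat_of_nonneg (by omega), neg_neg] at this
  have hqz : ∀ t, q t = 0 := by
    intro t
    have h1 := cf_expand hqc (fun t => (hper t).2) (by
      rw [show cf q = fun _ => 0 from funext hall]; exact summable_zero) t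
    simp only [hall, zero_mul] at h1
    exact h1.unique hasSum_zero
  have hvz : v 0 = 0 := by
    have h1 := hvs.dq 0
    have h2 : HasDerivAt q 0 0 := by
      rw [show q = fun _ => 0 from funext hqz]; exact hasDerivAt_const _ _
    have h3 := h1.unique h2
    rw [hqz, mul_zero, sub_zero] at h3
    exact (mul_eq_zero.1 h3).resolve_left (fun h0 => hl (by rw [h0]; simp))
  rcases hne with h1 | h1
  · exact h1 hvz
  · exact h1 (hqz 0)

end Pool.Agent.V7H91.PL
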